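import Pool.Agent.Lib.H36G.Del

set_option autoImplicit false

/-!
# H36G, chunk A3: connectivity after deletion of an edge
-/

namespace Pool.Agent.Lib.H36G

open Equiv Equiv.Perm H71S

variable {D V : Type} {φ α : Perm D} {lam : D → V} {c : V → Bool}

/-- Deletion of an edge which separates two faces keeps everything else connected.

PROOF. `(h.g0.del' hr hr' hne).2`/`G0.del` (Lib/H71S/Ops.lean, third component) gives
`cs φ α a b ↔ cs (φ * swap r r') (α * swap r r') a b`, and `G0.skip` (Ops.lean, third component, used
twice, first for `r`, then for `r'`, exactly as in `PM.del` of Lib/H71S/Run.lean, last lines) removes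
the two fixed points; the permutations are those of `dphi`, `dalpha` by definition. -/
theorem del_conn1 [Finite D] [DecidableEq D] (h : LM φ α lam) {r r' : D} (hr : α r = r')
    (hn : ¬ SameCycle φ r r') {a b : D} (ha : a ≠ r) (ha' : a ≠ r') (hb : b ≠ r) (hb' : b ≠ r')
    (hab : cs φ α a b) : cs (dphi φ r r') (dalpha α r r') a b := by
  have hr' : α r' = r := by rw [← hr, h.inv]
  obtain ⟨g1, m1, c1⟩ := h.g0.del hr hr' hn
  have α2r : (α * swap r r') r = r := by simp [hr']
  have α2r' : (α * swap r r') r' = r' := by simp [hr]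
  obtain ⟨g2, m2, c2⟩ := G0.skip g1 α2r
  obtain ⟨g3, m3, c3⟩ := G0.skip g2 α2r'
  exact (c3 a b ha' hb').1 ((c2 a b ha hb).1 ((c1 a b).1 hab))

/-- Deletion of a pendant edge (`r` arrives at the leaf, `r' = α r = φ r` comes back) keeps
everything else connected.

PROOF. Let `t := cs (dphi φ r r') (dalpha α r r')` and `x0 := φ r'` and
`π d := if d = r ∨ d = r' then x0 else d`. `x0 ≠ r'` by `phi_ne_self`. If `x0 = r` then `φ r' = r`,
`φ r = r'`, and no other dart is connected to `r`: the set `{r, r'}` is closed under `φ` and `α`; so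
`cs_le` with the setoid (both in `{r, r'}` or both outside and related by `t`) gives the claim (or
treat it as below: for `d ∉ {r, r'}` never `φ d ∈ {r, r'}`). Otherwise `x0 ∉ {r, r'}`. Use `cs_le`
(Lib/H71S/Cyc.lean) with the setoid `t.comap π`: for `d ∉ {r, r'}`: `φ d = r'` is impossible
(`φ r = r'`); if `φ d = r` then `dphi φ r r' d = φ r' = x0` (`dphi_1`), so `t d x0` by `cs_left`;
otherwise `dphi φ r r' d = φ d` (`dphi_3`). For `d = r`: `φ r = r'`, both have image `x0`. For
`d = r'`: `φ r' = x0`. For `α`: `α r = r'`, `α r' = r`, else `α d ∉ {r, r'}` and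
`dalpha α r r' d = α d`, `cs_right`. -/
theorem del_conn2 [Finite D] [DecidableEq D] (h : LM φ α lam) {r r' : D} (hr : α r = r')
    (hl : lam r ≠ lam r') (hn : φ r = r') {a b : D} (ha : a ≠ r) (ha' : a ≠ r') (hb : b ≠ r)
    (hb' : b ≠ r') (hab : cs φ α a b) : cs (dphi φ r r') (dalpha α r r') a b := by
  have hr' : α r' = r := by rw [← hr, h.inv]
  set t := cs (dphi φ r r') (dalpha α r r') with ht
  let π : D → D := fun d => if d = r ∨ d = r' then φ r' else d
  have π1 : π r = φ r' := if_pos (Or.inl rfl)
  have π2 : π r' = φ r' := if_pos (Or.inr rfl)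
  have π3 : ∀ d, d ≠ r → d ≠ r' → π d = d := fun d h1 h2 => if_neg (by rintro (h | h); exacts [h1 h, h2 h])
  have π4 : π (φ r') = φ r' := by
    by_cases h1 : φ r' = r
    · rw [h1, π1, h1]
    · by_cases h2 : φ r' = r'
      · rw [h2, π2, h2]
      · exact π3 _ h1 h2
  have key : ∀ a b, cs φ α a b → t (π a) (π b) := by
    intro a b hab
    refine cs_le (s := t.comap π) (fun d => ?_) (fun d => ?_) hab
    · change t (π d) (π (φ d))
      by_cases h1 : d = r
      · rw [h1, hn, π1, π2]
      · by_cases h2 : d = r'
        · rw [h2, π4, π2]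
        · rw [π3 d h1 h2]
          by_cases h3 : φ d = r
          · rw [h3, π1]
            have := cs_left (dphi φ r r') (dalpha α r r') d
            rwa [dphi_1 h hr hl h1 h2 h3] at this
          · have h4 : φ d ≠ r' := fun hc => h1 (φ.injective (hc.trans hn.symm))
            rw [π3 _ h3 h4]
            have := cs_left (dphi φ r r') (dalpha α r r') d
            rwa [dphi_3 h1 h2 h3 h4] at this
    · change t (π d) (π (α d))
      by_cases h1 : d = r
      · rw [h1, hr, π1, π2]
      · by_cases h2 : d = r'
        · rw [h2, hr', π1, π2]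
        · have h3 : α d ≠ r := fun hc => h2 (by rw [← h.inv d, hc, hr])
          have h4 : α d ≠ r' := fun hc => h1 (by rw [← h.inv d, hc, hr'])
          rw [π3 d h1 h2, π3 _ h3 h4]
          have := cs_right (dphi φ r r') (dalpha α r r') d
          rwa [show dalpha α r r' d = α d from by
            simp [dalpha, swap_apply_of_ne_of_ne h1 h2]] at this
  have := key a b hab
  rwa [π3 a ha ha', π3 b hb hb'] at this

end Pool.Agent.Lib.H36G
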