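import Pool.Agent.Lib.H36G.A3

set_option autoImplicit false

/-!
# H36G, chunk B1: one step of the deletion of a vertex (edge `a`, not pendant)
-/

namespace Pool.Agent.Lib.H36G

open Equiv Equiv.Perm H71S

variable {D V : Type} {φ α : Perm D} {lam : D → V} {c : V → Bool}

/-- The outer walk is `s, A, a, e, B`; the reverse `α a` of `a` is not on the outer walk, so it lies
on a face of length four `α a, q1, q2, q3`. Delete the edge of `a`: in the outer walk `a` is replaced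
by `q1, q2, q3`.

PROOF. Let `r := a`, `r' := α a`, `φ2 := dphi φ a (α a)`, `α2 := dalpha α a (α a)` (use `classical`),
`q1 := φ (α a)`, `q2 := φ q1`, `q3 := φ q2`; `h.quad (α a)` gives `φ q3 = α a`. `α a` is live
(`live_alpha`), `a` is live (`QM.live_mem`). The outer walk is closed under `φ` in both directions
(`QM.closed`, `QM.closed'`), so `q1, q2, q3` are not on it. `lam a ≠ lam (α a)` by `bip`.
`lam q1 = lam (φ (α a)) = lam (α (α a)) = lam a` (`head`). If `lam q2 = lam (α a)` then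
`lam (α q1) = lam q2 = lam (α a)` and `simp` gives `q1 = a`, which is on the outer walk:
contradiction; `lam e = lam (φ a) = lam (α a)`, so `lam q2 ≠ lam e`; in particular `q2 ≠ α a`. The
darts `α a, q1, q2, q3` are distinct (neighbours by `phi_ne`, `q3 ≠ q1` since otherwise `q2 = α a`).
* LM, Killed: `del_lm`. Bip, Simp: `killed_bip`, `killed_simp`.
* Run: split `h.run` with `Run.append` at `a` and `e`: `Run φ s A a`, `φ a = e`, `Run φ e B s`. New:
  `Run φ2 s A q1` by `Run.replace` (values: `dphi_3` for `φ x ≠ a`, where `φ x ≠ α a` because `φ x` is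
  on the outer walk; `dphi_1` for `φ x = a`); `φ2 q1 = q2`, `φ2 q2 = q3` (`dphi_3`), `φ2 q3 = φ a = e`
  (`dphi_2`); `Run φ2 e B s` by `Run.congr` (`dphi_3`; note `φ x ≠ a` for `x ∈ e :: B` by `nod`:
  the predecessor of `a` is in `s :: A`, or simply since `φ x ∈ B ∪ {s}`).
* Nodup: from `h.nod` and `q1, q2, q3` distinct and not on the old walk.
* live: `α2 s = α s` (`s ≠ a` by `nod`, `s ≠ α a`).
* quad: let `d` be live for `α2` and not on the new walk; then `d ≠ a, α a`, `d` is not on the old walk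
  and `d ∉ {q1, q2, q3}`. So `φ d ≠ a` (`QM.closed`), `φ d ≠ α a` (`d ≠ q3`), `φ2 d = φ d`, and `φ d`
  is again not on the old walk and not in `{α a, q1, q2, q3}`; repeat four times.
* conn: `del_conn1` with `¬ SameCycle φ a (α a)` (`Run.closed_same` of Lib/H71S/Run.lean), for live `d`
  (so `d ≠ a, α a`), from `h.conn d`. -/
theorem eat_one [Finite D] {s a e : D} {A B : List D} (h : QM φ α lam c s (A ++ a :: e :: B))
    (ha : α a ∉ s :: (A ++ a :: e :: B)) :
    ∃ (φ2 α2 : Perm D) (q1 q2 q3 : D), QM φ2 α2 lam c s (A ++ q1 :: q2 :: q3 :: e :: B) ∧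
      Killed φ α φ2 α2 a (α a) ∧ lam q1 = lam a ∧ lam q2 ≠ lam e := by
  classical
  have la : α a ≠ a := h.live_mem (by simp)
  have lr : α (α a) ≠ α a := live_alpha h.lm la
  have hl : lam a ≠ lam (α a) := fun hc => h.bip a la (by rw [← hc])
  obtain ⟨r1, r2, r3⟩ := Run.append.1 h.run
  obtain ⟨K1, K2⟩ := del_lm h.lm rfl (Ne.symm la)
  have hq := h.quad (α a) lr ha
  have ncl : ∀ d, d ∉ s :: (A ++ a :: e :: B) → φ d ∉ s :: (A ++ a :: e :: B) :=
    fun d hd hc => hd (h.closed hc)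
  obtain ⟨r', hr'⟩ : ∃ r', r' = α a := ⟨_, rfl⟩
  rw [← hr'] at ha lr hl K1 K2 hq
  obtain ⟨q1, hq1⟩ : ∃ q1, q1 = φ r' := ⟨_, rfl⟩
  obtain ⟨q2, hq2⟩ : ∃ q2, q2 = φ q1 := ⟨_, rfl⟩
  obtain ⟨q3, hq3⟩ : ∃ q3, q3 = φ q2 := ⟨_, rfl⟩
  rw [← hq1, ← hq2, ← hq3] at hq
  have o1 : q1 ∉ s :: (A ++ a :: e :: B) := by rw [hq1]; exact ncl _ ha
  have o2 : q2 ∉ s :: (A ++ a :: e :: B) := by rw [hq2]; exact ncl _ o1
  have o3 : q3 ∉ s :: (A ++ a :: e :: B) := by rw [hq3]; exact ncl _ o2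
  have oa : a ∈ s :: (A ++ a :: e :: B) := by simp
  have nea : ∀ x, x ∉ s :: (A ++ a :: e :: B) → x ≠ a := fun x hx hc => hx (by rw [hc]; exact oa)
  have neO : ∀ x y, x ∈ s :: (A ++ a :: e :: B) → y ∉ s :: (A ++ a :: e :: B) → x ≠ y :=
    fun x y hx hy hc => hy (by rw [← hc]; exact hx)
  have lq1 : α q1 ≠ q1 := by rw [hq1]; exact live_phi h.lm h.bip lr
  have lq2 : α q2 ≠ q2 := by rw [hq2]; exact live_phi h.lm h.bip lq1
  have lq3 : α q3 ≠ q3 := by rw [hq3]; exact live_phi h.lm h.bip lq2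
  have lam1 : lam q1 = lam a := by rw [hq1, head h.lm, hr', h.lm.inv]
  have lame : lam e = lam r' := by rw [← r2, head h.lm, hr']
  have lam2 : lam q2 ≠ lam e := by
    intro hc
    have h1 : lam (α q1) = lam (α a) := by rw [← head h.lm, ← hq2, hc, lame, hr']
    exact nea q1 o1 (h.simp q1 a lq1 la lam1 h1)
  have n1 : q1 ≠ r' := by rw [hq1]; exact phi_ne h.lm h.bip lr
  have n21 : q2 ≠ q1 := by rw [hq2]; exact phi_ne h.lm h.bip lq1
  have n32 : q3 ≠ q2 := by rw [hq3]; exact phi_ne h.lm h.bip lq2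
  have n3 : q3 ≠ r' := by
    intro hc
    exact phi_ne h.lm h.bip lq3 (by rw [hq, hc])
  have n2 : q2 ≠ r' := fun hc => lam2 (by rw [hc, lame])
  have n31 : q3 ≠ q1 := by
    intro hc
    rw [hc, ← hq2] at hq
    exact n2 hq
  -- nodup facts
  have nd := h.nod
  have ndAB : ((s :: A) ++ (a :: e :: B)).Nodup := nd
  obtain ⟨nd1, nd2, nd3⟩ := List.nodup_append.1 ndAB
  have naA : ∀ x, (x = s ∨ x ∈ A) → x ≠ a := fun x hx =>
    nd3 x (List.mem_cons.2 hx) a (by simp)
  have naB : ∀ x, (x = e ∨ x ∈ B) → x ≠ a := fun x hx hc =>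
    (List.nodup_cons.1 nd2).1 (by rw [← hc]; exact List.mem_cons.2 hx)
  have OA : ∀ x, (x = s ∨ x ∈ A) → x ∈ s :: (A ++ a :: e :: B) := by
    intro x hx
    simp only [List.mem_cons, List.mem_append]
    tauto
  have OB : ∀ x, (x = e ∨ x ∈ B) → x ∈ s :: (A ++ a :: e :: B) := by
    intro x hx
    simp only [List.mem_cons, List.mem_append]
    tauto
  have nr : ∀ x, x ∈ s :: (A ++ a :: e :: B) → φ x ≠ r' := fun x hx =>
    neO _ _ (h.closed' hx) ha
  refine ⟨dphi φ a r', dalpha α a r', q1, q2, q3,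
    ⟨K1, killed_bip K2 h.bip, killed_simp K2 h.simp, ?_, ?_, ?_, ?_, ?_⟩, ?_, lam1, lam2⟩
  · -- the run
    refine Run.append.2 ⟨?_, ?_, ?_, ?_, ?_⟩
    · refine r1.replace ?_ ?_ ?_
      · exact fun hc => naA a (Or.inr hc) rfl
      · intro x hx h1
        exact dphi_3 (naA x hx) (neO _ _ (OA x hx) ha) h1 (nr x (OA x hx))
      · intro x hx h1
        rw [hq1]
        exact dphi_1 h.lm hr'.symm hl (naA x hx) (neO _ _ (OA x hx) ha) h1
    · rw [dphi_3 (nea q1 o1) n1 (by rw [← hq2]; exact nea q2 o2) (by rw [← hq2]; exact n2), hq2]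
    · rw [dphi_3 (nea q2 o2) n2 (by rw [← hq3]; exact nea q3 o3) (by rw [← hq3]; exact n3), hq3]
    · rw [dphi_2 h.lm hr'.symm hl (nea q3 o3) n3 hq, r2]
    · refine r3.congr ?_
      intro x hx
      refine dphi_3 (naB x hx) (neO _ _ (OB x hx) ha) ?_ (nr x (OB x hx))
      intro hc
      obtain ⟨x0, hx0, hx1⟩ := r1.pred a (Or.inr rfl)
      have hxx : x0 = x := φ.injective (hx1.trans hc.symm)
      refine nd3 x0 (List.mem_cons.2 hx0) x ?_ hxx
      exact List.mem_cons_of_mem _ (List.mem_cons.2 hx)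
  · -- nodup
    have h1 : ((s :: A) ++ (q1 :: q2 :: q3 :: e :: B)).Nodup := by
      refine List.nodup_append.2 ⟨nd1, ?_, ?_⟩
      · have m1 : ∀ x, x ∉ s :: (A ++ a :: e :: B) → x ∉ e :: B := fun x hx hc =>
          hx (OB x (List.mem_cons.1 hc))
        refine List.nodup_cons.2 ⟨?_, List.nodup_cons.2 ⟨?_, List.nodup_cons.2 ⟨m1 q3 o3,
          (List.nodup_cons.1 nd2).2⟩⟩⟩
        · rintro hc
          rcases List.mem_cons.1 hc with hc | hc
          · exact n21 hc.symm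
          · rcases List.mem_cons.1 hc with hc | hc
            · exact n31 hc.symm
            · exact m1 q1 o1 hc
        · rintro hc
          rcases List.mem_cons.1 hc with hc | hc
          · exact n32 hc.symm
          · exact m1 q2 o2 hc
      · intro x hx y hy
        have hxO := OA x (List.mem_cons.1 hx)
        rcases List.mem_cons.1 hy with rfl | hy
        · exact neO _ _ hxO o1
        · rcases List.mem_cons.1 hy with rfl | hy
          · exact neO _ _ hxO o2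
          · rcases List.mem_cons.1 hy with rfl | hy
            · exact neO _ _ hxO o3
            · exact nd3 x hx y (List.mem_cons_of_mem _ hy)
    exact h1
  · -- live
    have h1 : s ≠ a := naA s (Or.inl rfl)
    have h2 : s ≠ r' := neO _ _ (OA s (Or.inl rfl)) ha
    rw [K2.a3 s h1 h2]
    exact h.live
  · -- quad
    intro d hd hd2
    obtain ⟨d1, d2, d3⟩ := killed_live K2 hd
    have step : ∀ d, (d ∉ s :: (A ++ a :: e :: B) ∧ d ≠ r' ∧ d ≠ q1 ∧ d ≠ q2 ∧ d ≠ q3) →
        dphi φ a r' d = φ d ∧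
        (φ d ∉ s :: (A ++ a :: e :: B) ∧ φ d ≠ r' ∧ φ d ≠ q1 ∧ φ d ≠ q2 ∧ φ d ≠ q3) := by
      rintro d ⟨p0, p1, p2, p3, p4⟩
      have t0 := ncl d p0
      have t1 : φ d ≠ r' := fun hc => p4 (φ.injective (hc.trans hq.symm))
      have t2 : φ d ≠ q1 := fun hc => p1 (φ.injective (hc.trans hq1))
      have t3 : φ d ≠ q2 := fun hc => p2 (φ.injective (hc.trans hq2))
      have t4 : φ d ≠ q3 := fun hc => p3 (φ.injective (hc.trans hq3))
      exact ⟨dphi_3 (nea d p0) p1 (nea _ t0) t1, t0, t1, t2, t3, t4⟩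
    have h0 : d ∉ s :: (A ++ a :: e :: B) ∧ d ≠ r' ∧ d ≠ q1 ∧ d ≠ q2 ∧ d ≠ q3 := by
      simp only [List.mem_cons, List.mem_append] at hd2 ⊢
      tauto
    obtain ⟨e1, f1⟩ := step d h0
    obtain ⟨e2, f2⟩ := step _ f1
    obtain ⟨e3, f3⟩ := step _ f2
    obtain ⟨e4, f4⟩ := step _ f3
    rw [e1, e2, e3, e4]
    exact h.quad d d1 h0.1
  · -- connectivity
    intro d hd
    obtain ⟨d1, d2, d3⟩ := killed_live K2 hd
    refine del_conn1 h.lm hr'.symm ?_ (naA s (Or.inl rfl)) (neO _ _ (OA s (Or.inl rfl)) ha) d2 d3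
      (h.conn d d1)
    intro hc
    rcases h.run.closed_same hc.symm (List.mem_cons.1 oa) with h1 | h1
    · exact ha (List.mem_cons.2 (Or.inl h1))
    · exact ha (List.mem_cons.2 (Or.inr h1))
  · rw [← hr']
    exact K2

end Pool.Agent.Lib.H36G
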