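import Pool.Agent.Lib.H36G.A3

set_option autoImplicit false

/-!
# H36G, chunk B2: deletion of a pendant edge
-/

namespace Pool.Agent.Lib.H36G

open Equiv Equiv.Perm H71S

variable {D V : Type} {φ α : Perm D} {lam : D → V} {c : V → Bool}

/-- The outer walk is `s, A, a, e, B` with `e = α a`: the edge of `a` is pendant. Delete it.

PROOF. As `eat_one`, with `r := a`, `r' := e`, `φ2 := dphi φ a e`, `α2 := dalpha α a e`. `φ a = e` by
the run, so `hn : φ r = r'` for `del_conn2`. `lam a ≠ lam e` by `bip`.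
* Run: `Run φ s A a`, `φ a = e`, `Run φ e B s`. Let `t` be the first element of `B`, or `s` if
  `B = []`; `φ e = t`. `Run φ2 s A t` by `Run.replace` (`dphi_1`: `φ x = a` gives `φ2 x = φ e = t`;
  `dphi_3` otherwise, `φ x ≠ e` as `φ a = e`, `x ≠ a`). If `B = b :: B'` then `Run φ2 b B' s` by
  `Run.congr` (`dphi_3`). (If `A = []` the statement `Run φ2 s (A ++ B) s` is proved in the same way.)
* quad, conn, live, nodup: as in `eat_one` (here the other faces are not touched at all: for `d` live
  for `α2` and not on the new walk, `d` is not on the old walk, so `φ d ∉ {a, e}`). -/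
theorem eat_pend [Finite D] {s a e : D} {A B : List D} (h : QM φ α lam c s (A ++ a :: e :: B))
    (ha : α a = e) :
    ∃ (φ2 α2 : Perm D), QM φ2 α2 lam c s (A ++ B) ∧ Killed φ α φ2 α2 a e := by
  classical
  have la : α a ≠ a := h.live_mem (by simp)
  have hae : a ≠ e := fun hc => la (by rw [ha, ← hc])
  have hl : lam a ≠ lam e := fun hc => h.bip a la (by rw [ha, hc])
  obtain ⟨r1, r2, r3⟩ := Run.append.1 h.run
  obtain ⟨K1, K2⟩ := del_lm h.lm ha hae
  have nd := h.nod
  have nd2 : (a :: e :: (s :: (A ++ B))).Nodup := by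
    refine (List.Perm.nodup_iff ?_).1 nd
    refine List.perm_iff_count.2 fun x => ?_
    simp only [List.count_append, List.count_cons]
    ring
  have nda : ∀ x ∈ s :: (A ++ B), x ≠ a := fun x hx hc =>
    (List.nodup_cons.1 nd2).1 (by rw [← hc]; exact List.mem_cons_of_mem _ hx)
  have nde : ∀ x ∈ s :: (A ++ B), x ≠ e := fun x hx hc =>
    (List.nodup_cons.1 (List.nodup_cons.1 nd2).2).1 (by rw [← hc]; exact hx)
  have nd3 : (s :: (A ++ B)).Nodup := (List.nodup_cons.1 (List.nodup_cons.1 nd2).2).2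
  have memout : ∀ x, x ∈ s :: (A ++ B) → x ∈ s :: (A ++ a :: e :: B) := by
    intro x hx
    simp only [List.mem_cons, List.mem_append] at hx ⊢
    tauto
  have hout : ∀ d, d ∉ s :: (A ++ a :: e :: B) → dphi φ a e d = φ d ∧ φ d ∉ s :: (A ++ a :: e :: B) := by
    intro d hd
    have hd2 : φ d ∉ s :: (A ++ a :: e :: B) := fun hc => hd (h.closed hc)
    refine ⟨dphi_3 ?_ ?_ ?_ ?_, hd2⟩
    · exact fun hc => hd (by rw [hc]; simp)
    · exact fun hc => hd (by rw [hc]; simp)
    · exact fun hc => hd2 (by rw [hc]; simp)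
    · exact fun hc => hd2 (by rw [hc]; simp)
  have hφe : ∀ x, x ≠ a → φ x ≠ e := fun x hx hc => hx (φ.injective (hc.trans r2.symm))
  refine ⟨dphi φ a e, dalpha α a e, ⟨K1, killed_bip K2 h.bip, killed_simp K2 h.simp, ?_, nd3, ?_, ?_,
    ?_⟩, K2⟩
  · -- the run
    have hA : ∀ x, (x = s ∨ x ∈ A) → x ∈ s :: (A ++ B) := by
      intro x hx
      simp only [List.mem_cons, List.mem_append]
      tauto
    have q1 : Run (dphi φ a e) s A (φ e) := by
      refine r1.replace ?_ ?_ ?_
      · exact fun hc => nda a (hA a (Or.inr hc)) rfl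
      · intro x hx h1
        exact dphi_3 (nda x (hA x hx)) (nde x (hA x hx)) h1 (hφe x (nda x (hA x hx)))
      · intro x hx h1
        exact dphi_1 h.lm ha hl (nda x (hA x hx)) (nde x (hA x hx)) h1
    cases B with
    | nil =>
      have h1 : φ e = s := r3
      rw [h1] at q1
      rw [List.append_nil]
      exact q1
    | cons b B =>
      obtain ⟨h1, h2⟩ := r3
      rw [h1] at q1
      refine Run.append.2 ⟨q1, h2.congr ?_⟩
      intro x hx
      have hx2 : x ∈ s :: (A ++ b :: B) := by
        simp only [List.mem_cons, List.mem_append]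
        tauto
      refine dphi_3 (nda x hx2) (nde x hx2) ?_ (hφe x (nda x hx2))
      intro hc
      obtain ⟨x0, hx0, hx1⟩ := r1.pred a (Or.inr rfl)
      have hxx : x = x0 := φ.injective (hc.trans hx1.symm)
      have nd4 : ((s :: A) ++ (b :: B)).Nodup := nd3
      refine (List.nodup_append.1 nd4).2.2 x ?_ x ?_ rfl
      · rw [hxx]; exact List.mem_cons.2 hx0
      · exact List.mem_cons.2 hx
  · -- live
    have h1 : s ≠ a := nda s (by simp)
    have h2 : s ≠ e := nde s (by simp)
    rw [K2.a3 s h1 h2]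
    exact h.live
  · intro d hd hd2
    obtain ⟨d1, d2, d3⟩ := killed_live K2 hd
    have hd4 : d ∉ s :: (A ++ a :: e :: B) := by
      simp only [List.mem_cons, List.mem_append] at hd2 ⊢
      tauto
    obtain ⟨e1, f1⟩ := hout d hd4
    obtain ⟨e2, f2⟩ := hout _ f1
    obtain ⟨e3, f3⟩ := hout _ f2
    obtain ⟨e4, f4⟩ := hout _ f3
    rw [e1, e2, e3, e4]
    exact h.quad d d1 hd4
  · intro d hd
    obtain ⟨d1, d2, d3⟩ := killed_live K2 hd
    exact del_conn2 h.lm ha hl r2 (nda s (by simp)) (nde s (by simp)) d2 d3 (h.conn d d1)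

end Pool.Agent.Lib.H36G
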