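import Pool.Agent.Lib.H36G.B1
import Pool.Agent.Lib.H36G.B2

set_option autoImplicit false

/-!
# H36G, chunk B3: deletion of a vertex (EAT)
-/

namespace Pool.Agent.Lib.H36G

open Equiv Equiv.Perm H71S

variable {D V : Type} {φ α : Perm D} {lam : D → V} {c : V → Bool}

/-- The outer walk is `s, A, a, e, B`, `g := lam e` is the vertex at which `a` arrives and from which
`e` leaves, and `g` occurs nowhere else on the outer walk. All darts at `g` are deleted; in the outer
walk `a, e` is replaced by a list `C` whose labels of the colour opposite to `g` are the neighbours of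
`g` except `lam (α e)`, each once; `lam a` is the first neighbour.

PROOF. Induction on `n`. `g = lam (φ a) = lam (α a)`. Write `k := !c (lam e)`; `c (lam a) = k`.
Case `α a = e`: `eat_pend` gives `φ2, α2`; take `C := []`. `lam (α e) = lam a`. All live darts with label
`g` are in the `φ * α`-cycle of `e` (`LM.dist`), and `(φ * α) e = φ (α e) = φ a = e`, so `e` is the only
live dart with label `g`; the only neighbour of `g` is `lam (α e)`. If `lam d = g ∨ lam (α d) = g` and
`d` is live then `d = e` or `α d = e`, i.e. `d = a`; both are killed; dead darts stay dead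
(`Killed.a3`). The other clauses are immediate.
Case `α a ≠ e`: `α a ∉ s :: (A ++ a :: e :: B)` since `lam (α a) = g` and the hypothesis (`α a ≠ e`).
`eat_one` gives `φ1, α1, q1, q2, q3` and the outer walk `A ++ q1 :: q2 :: q3 :: e :: B =
(A ++ [q1, q2]) ++ q3 :: e :: B`. `nlive α1 < nlive α` (`nlive_lt` with `killed_live`). The hypothesis
of the induction for `(A ++ [q1, q2], q3, e, B)`: `lam q1 = lam a ≠ g`, `lam q2 ≠ g`, `lam q3 ≠ g` by
`bip` (`φ1 q3 = e` by the run, `lam e = lam (α1 q3)`). Let `C'` be the list of the induction, and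
`C := q1 :: q2 :: C'`, `(A ++ [q1, q2]) ++ C' ++ B = A ++ C ++ B`. `c (lam q1) = k` and
`c (lam q2) ≠ k`, so `cl c k lam C = lam a :: cl c k lam C'`. `α1 e = α e` (`e ≠ a, α a`), `Nb α1 g y ↔
Nb α g y ∧ y ≠ lam a` (the only live dart from `g` to `lam a` is `α a`, by `Simp`; it is killed; darts
other than `a, α a` are not changed). So `lam a ∉ cl c k lam C'`, and the description of the list
follows; `lam a ≠ lam (α e)` since otherwise `α a = e` by `Simp`. -/
theorem eat [Finite D] : ∀ (n : ℕ) (φ α : Perm D) (s a e : D) (A B : List D), nlive α ≤ n →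
    QM φ α lam c s (A ++ a :: e :: B) → (∀ d ∈ s :: (A ++ a :: B), lam d ≠ lam e) →
    ∃ (φ2 α2 : Perm D) (C : List D), QM φ2 α2 lam c s (A ++ C ++ B) ∧
      (∀ d, lam d = lam e ∨ lam (α d) = lam e → α2 d = d) ∧
      (∀ d, lam d ≠ lam e → lam (α d) ≠ lam e → α2 d = α d) ∧
      (cl c (!c (lam e)) lam C).Nodup ∧
      (∀ y, y ∈ cl c (!c (lam e)) lam C ↔ Nb α lam (lam e) y ∧ y ≠ lam (α e)) ∧
      (cl c (!c (lam e)) lam C ++ [lam (α e)]).head? = some (lam a) := by
  intro n
  induction n with
  | zero =>
    intro φ α s a e A B hn h _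
    exfalso
    have h1 : 0 < nlive α := by
      have : Nonempty {d : D // α d ≠ d} := ⟨⟨s, h.live⟩⟩
      exact Nat.card_pos
    omega
  | succ n ih =>
    intro φ α s a e A B hn h hl
    have hma : a ∈ s :: (A ++ a :: e :: B) := by simp
    have hme : e ∈ s :: (A ++ a :: e :: B) := by simp
    have hla : α a ≠ a := h.live_mem hma
    have hle : α e ≠ e := h.live_mem hme
    have hφa : φ a = e := (Run.append.1 h.run).2.1
    have hg : lam (α a) = lam e := by rw [← head h.lm, hφa]
    have hae : lam a ≠ lam e := hl a (by simp)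
    have hk : c (lam a) = !c (lam e) := by
      have h1 := h.bip a hla
      rw [hg] at h1
      revert h1
      cases c (lam a) <;> cases c (lam e) <;> simp
    by_cases he : α a = e
    · -- pendant edge
      obtain ⟨φ2, α2, hq, hkl⟩ := eat_pend h he
      have hea : α e = a := by rw [← he, h.lm.inv]
      have hone : ∀ d, α d ≠ d → lam d = lam e → d = e := by
        intro d hd hde
        have h1 := h.lm.dist e d hle hd hde.symm
        have h2 : (φ * α) e = e := by rw [Equiv.Perm.mul_apply, hea, hφa]
        obtain ⟨k, hk1⟩ := h1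
        rw [← hk1]
        exact Equiv.Perm.zpow_apply_eq_self_of_apply_eq_self h2 k
      refine ⟨φ2, α2, [], by simpa using hq, ?_, ?_, by simp, ?_, ?_⟩
      · intro d hd
        by_cases h1 : d = a
        · rw [h1]; exact hkl.a1
        by_cases h2 : d = e
        · rw [h2]; exact hkl.a2
        rw [hkl.a3 d h1 h2]
        by_contra h3
        rcases hd with hd | hd
        · exact h2 (hone d h3 hd)
        · have h4 := hone (α d) (live_alpha h.lm h3) hd
          exact h1 (by rw [← h.lm.inv d, h4, hea])
      · intro d h1 h2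
        refine hkl.a3 d (fun hc => h2 (by rw [hc, hg])) (fun hc => h1 (by rw [hc]))
      · intro y
        constructor
        · intro hy; simp at hy
        · rintro ⟨⟨d, hd, h1, h2⟩, h3⟩
          exfalso
          rw [hone d hd h1] at h2
          exact h3 h2.symm
      · simp [hea]
    · -- the edge of `a` is not pendant
      have hnot : α a ∉ s :: (A ++ a :: e :: B) := by
        intro hc
        simp only [List.mem_cons, List.mem_append] at hc
        rcases hc with hc | hc | hc | hc | hc
        · exact hl s (by simp) (by rw [← hc]; exact hg)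
        · exact hl (α a) (by simp [hc]) hg
        · exact hla hc
        · exact he hc
        · exact hl (α a) (by simp [hc]) hg
      obtain ⟨φ1, α1, q1, q2, q3, hq, hkl, hq1, hq2⟩ := eat_one h hnot
      have hlt : nlive α1 < nlive α :=
        nlive_lt (fun d hd => (killed_live hkl hd).1) hla hkl.a1
      have hr1 := Run.append.1 hq.run
      have hr2 : φ1 q1 = q2 := hr1.2.1
      have hr3 : φ1 q3 = e := hr1.2.2.2.1
      have hlq1 : α1 q1 ≠ q1 := hq.live_mem (by simp)
      have hlq3 : α1 q3 ≠ q3 := hq.live_mem (by simp)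
      have hq' : QM φ1 α1 lam c s ((A ++ [q1, q2]) ++ q3 :: e :: B) := by
        have e1 : (A ++ [q1, q2]) ++ q3 :: e :: B = A ++ q1 :: q2 :: q3 :: e :: B := by simp
        rw [e1]; exact hq
      have hl3 : lam q3 ≠ lam e := by
        intro hc
        have h1 := hq.bip q3 hlq3
        rw [← head hq.lm, hr3, hc] at h1
        exact h1 rfl
      have hl' : ∀ d ∈ s :: ((A ++ [q1, q2]) ++ q3 :: B), lam d ≠ lam e := by
        intro d hd
        simp only [List.mem_cons, List.mem_append, List.not_mem_nil, or_false] at hd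
        rcases hd with hd | (hd | hd | hd) | hd | hd
        · exact hl d (by simp [hd])
        · exact hl d (by simp [hd])
        · rw [hd, hq1]; exact hae
        · rw [hd]; exact hq2
        · rw [hd]; exact hl3
        · exact hl d (by simp [hd])
      obtain ⟨φ2, α2, C, hQ, hD, hK, hN, hM, hH⟩ :=
        ih φ1 α1 s q3 e (A ++ [q1, q2]) B (by omega) hq' hl'
      have hea : e ≠ a := fun hc => hae (by rw [hc])
      have heq : α1 e = α e := hkl.a3 e hea (fun hc => he hc.symm)
      have hlaa : α (α a) ≠ α a := live_alpha h.lm hla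
      have hcl : cl c (!c (lam e)) lam (q1 :: q2 :: C) = lam a :: cl c (!c (lam e)) lam C := by
        rw [cl_cons_eq _ _ _ (by rw [hq1]; exact hk), cl_cons_ne, hq1]
        intro hc
        have h1 := color_phi hq.lm hq.bip hlq1
        rw [hr2, hc, hq1, hk] at h1
        exact h1 rfl
      refine ⟨φ2, α2, q1 :: q2 :: C, ?_, ?_, ?_, ?_, ?_, ?_⟩
      · have e1 : A ++ q1 :: q2 :: C ++ B = (A ++ [q1, q2]) ++ C ++ B := by simp
        rw [e1]; exact hQ
      · intro d hd
        by_cases h1 : d = a
        · rw [h1, hK a hae (by rw [hkl.a1]; exact hae), hkl.a1]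
        by_cases h2 : d = α a
        · rw [h2]; exact hD _ (Or.inl hg)
        exact hD d (by rw [hkl.a3 d h1 h2]; exact hd)
      · intro d h1 h2
        have h3 : d ≠ a := fun hc => h2 (by rw [hc, hg])
        have h4 : d ≠ α a := fun hc => h1 (by rw [hc, hg])
        have h5 := hkl.a3 d h3 h4
        rw [hK d h1 (by rw [h5]; exact h2), h5]
      · rw [hcl, List.nodup_cons]
        refine ⟨fun hc => ?_, hN⟩
        obtain ⟨⟨d, hd, h1, h2⟩, -⟩ := (hM _).1 hc
        obtain ⟨d1, d2, d3⟩ := killed_live hkl hd
        rw [hkl.a3 d d2 d3] at h2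
        refine d3 (h.simp d (α a) d1 hlaa (by rw [h1, hg]) ?_)
        rw [h2, h.lm.inv]
      · intro y
        rw [hcl, List.mem_cons, hM y, heq]
        constructor
        · rintro (rfl | ⟨⟨d, hd, h1, h2⟩, h3⟩)
          · refine ⟨⟨α a, hlaa, hg, by rw [h.lm.inv]⟩, fun hc => he ?_⟩
            exact h.simp (α a) e hlaa hle hg (by rw [h.lm.inv]; exact hc)
          · obtain ⟨d1, d2, d3⟩ := killed_live hkl hd
            rw [hkl.a3 d d2 d3] at h2
            exact ⟨⟨d, d1, h1, h2⟩, h3⟩
        · rintro ⟨⟨d, hd, h1, h2⟩, h3⟩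
          by_cases h4 : d = α a
          · left
            rw [← h2, h4, h.lm.inv]
          · right
            have h5 : d ≠ a := fun hc => hae (by rw [← h1, hc])
            have h6 := hkl.a3 d h5 h4
            exact ⟨⟨d, by rw [h6]; exact hd, h1, by rw [h6]; exact h2⟩, h3⟩
      · rw [hcl]; rfl

end Pool.Agent.Lib.H36G
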