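import Pool.Agent.Lib.H36G.Defs

set_option autoImplicit false

/-!
# H36G: basic facts
-/

namespace Pool.Agent.Lib.H36G

open Equiv Equiv.Perm H71S

variable {D V : Type} {φ α : Perm D} {lam : D → V} {c : V → Bool}

theorem head (h : LM φ α lam) (d : D) : lam (φ d) = lam (α d) := by
  have := h.vert (α d)
  rw [Equiv.Perm.mul_apply, h.inv] at this
  exact this

theorem live_alpha (h : LM φ α lam) {d : D} (hd : α d ≠ d) : α (α d) ≠ α d := by
  rw [h.inv]; exact hd.symm

theorem nb_symm (h : LM φ α lam) {u v : V} (huv : Nb α lam u v) : Nb α lam v u := by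
  obtain ⟨d, hd, h1, h2⟩ := huv
  exact ⟨α d, live_alpha h hd, h2, by rw [h.inv]; exact h1⟩

theorem nb_ne (hb : Bip α lam c) {u v : V} (huv : Nb α lam u v) : c u ≠ c v := by
  obtain ⟨d, hd, rfl, rfl⟩ := huv
  exact hb d hd

theorem nb_phi (h : LM φ α lam) {d : D} (hd : α d ≠ d) : Nb α lam (lam d) (lam (φ d)) :=
  ⟨d, hd, rfl, (head h d).symm⟩

theorem color_phi (h : LM φ α lam) (hb : Bip α lam c) {d : D} (hd : α d ≠ d) :
    c (lam (φ d)) ≠ c (lam d) := by
  rw [head h]; exact (hb d hd).symm

/-- a dart whose image under `φ` is another dart is live -/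
theorem live_of_ne (h : LM φ α lam) {d : D} (hd : φ d ≠ d) : α d ≠ d :=
  fun hc => hd (h.dead d hc)

theorem phi_ne (h : LM φ α lam) (hb : Bip α lam c) {d : D} (hd : α d ≠ d) : φ d ≠ d := fun hc =>
  color_phi h hb hd (by rw [hc])

theorem live_phi (h : LM φ α lam) (hb : Bip α lam c) {d : D} (hd : α d ≠ d) : α (φ d) ≠ φ d := by
  intro hc
  have h1 := h.dead _ hc
  exact phi_ne h hb hd (φ.injective h1)

/-- all darts of a run which starts at a live dart are live -/
theorem run_live (h : LM φ α lam) (hb : Bip α lam c) {s t : D} {M : List D} (hr : Run φ s M t)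
    (hs : α s ≠ s) : ∀ d ∈ M, α d ≠ d := by
  induction M generalizing s with
  | nil => intro d hd; simp at hd
  | cons a M ih =>
    obtain ⟨h1, h2⟩ := hr
    have ha : α a ≠ a := by rw [← h1]; exact live_phi h hb hs
    intro d hd
    rcases List.mem_cons.1 hd with rfl | hd
    · exact ha
    · exact ih h2 ha d hd

theorem run_end_live (h : LM φ α lam) (hb : Bip α lam c) {s t : D} {M : List D} (hr : Run φ s M t)
    (hs : α s ≠ s) : α t ≠ t := by
  induction M generalizing s with
  | nil => rw [← (show φ s = t from hr)]; exact live_phi h hb hs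
  | cons a M ih =>
    obtain ⟨h1, h2⟩ := hr
    exact ih h2 (by rw [← h1]; exact live_phi h hb hs)

/-- the outer walk of a `QM` is closed under `φ` (backwards) -/
theorem QM.closed {s : D} {M : List D} (h : QM φ α lam c s M) {d : D} (hd : φ d ∈ s :: M) :
    d ∈ s :: M := by
  rcases h.run.closed (List.mem_cons.1 hd) with h1 | h1
  · rw [h1]; exact List.mem_cons_self
  · exact List.mem_cons_of_mem _ h1

theorem QM.live_mem {s : D} {M : List D} (h : QM φ α lam c s M) {d : D} (hd : d ∈ s :: M) :
    α d ≠ d := by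
  rcases List.mem_cons.1 hd with rfl | hd
  · exact h.live
  · exact run_live h.lm h.bip h.run h.live d hd

/-- the outer walk of a `QM` is closed under `φ` -/
theorem QM.closed' {s : D} {M : List D} (h : QM φ α lam c s M) {d : D} (hd : d ∈ s :: M) :
    φ d ∈ s :: M := by
  have key : ∀ (M : List D) (a b : D), Run φ a M b → ∀ d, d = a ∨ d ∈ M → φ d = b ∨ φ d ∈ M := by
    intro M
    induction M with
    | nil =>
      rintro a b hr d (rfl | hd)
      · exact Or.inl hr
      · simp at hd
    | cons x M ih =>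
      rintro a b ⟨h1, h2⟩ d hd
      rcases hd with rfl | hd
      · right; rw [h1]; exact List.mem_cons_self
      · rcases ih x b h2 d (List.mem_cons.1 hd) with h3 | h3
        · exact Or.inl h3
        · exact Or.inr (List.mem_cons_of_mem _ h3)
  rcases key M s s h.run d (List.mem_cons.1 hd) with h1 | h1
  · rw [h1]; exact List.mem_cons_self
  · exact List.mem_cons_of_mem _ h1

@[simp] theorem cl_nil (k : Bool) : cl c k lam [] = [] := rfl

theorem cl_append (k : Bool) (L M : List D) : cl c k lam (L ++ M) = cl c k lam L ++ cl c k lam M := by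
  simp [cl]

theorem cl_cons_eq (k : Bool) (d : D) (L : List D) (h : c (lam d) = k) :
    cl c k lam (d :: L) = lam d :: cl c k lam L := by
  simp [cl, h]

theorem cl_cons_ne (k : Bool) (d : D) (L : List D) (h : c (lam d) ≠ k) :
    cl c k lam (d :: L) = cl c k lam L := by
  simp [cl, h]

theorem mem_cl (k : Bool) (L : List D) (v : V) :
    v ∈ cl c k lam L ↔ (∃ d ∈ L, lam d = v) ∧ c v = k := by
  simp [cl]

theorem nlive_lt [Finite D] {α2 : Perm D} (h : ∀ d, α2 d ≠ d → α d ≠ d) {a : D} (ha : α a ≠ a)
    (ha2 : α2 a = a) : nlive α2 < nlive α := by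
  have h1 : {d | α2 d ≠ d} ⊂ {d | α d ≠ d} :=
    ⟨fun d hd => h d hd, fun hc => (hc (show a ∈ {d | α d ≠ d} from ha)) ha2⟩
  have h2 := Set.ncard_lt_ncard h1 (Set.toFinite _)
  exact h2

end Pool.Agent.Lib.H36G
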