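import Pool.Agent.Lib.H36G.Basic

set_option autoImplicit false

/-!
# H36G, chunk C1: contraction with explicit permutations, runs and `skip`
-/

namespace Pool.Agent.Lib.H36G

open Equiv Equiv.Perm H71S

variable {D V : Type} {φ α : Perm D} {lam : D → V} {c : V → Bool}

/-- Contraction of an edge, explicit.

PROOF. This is exactly the proof of `LM.contract` (Lib/H71S/LMOps.lean): there `φ2` is
`skip (skip φ r) r'` and `α2` is `α * swap r r'`; copy the proof. -/
theorem contract_lm [Finite D] [DecidableEq D] [DecidableEq V] (h : LM φ α lam) {r r' : D}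
    (hr : α r = r') (hl : lam r ≠ lam r') :
    LM (skip (skip φ r) r') (α * swap r r') (fun d => if lam d = lam r then lam r' else lam d) := by
  have hr' : α r' = r := by rw [← hr, h.inv]
  have hne : r ≠ r' := fun hc => hl (by rw [hc])
  have hσlam : ∀ d, lam ((φ * α) d) = lam d := h.vert
  have hns : ¬ SameCycle (φ * α) r r' := by
    intro hc
    let s : Setoid D := (⊥ : Setoid V).comap lam
    exact hl (sc_le (s := s) (fun a => (hσlam a).symm) hc)
  obtain ⟨g1, m1, -⟩ := (h.g0.rot h.inv).del hr hr' hns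
  have e0 : φ * α * α = φ := by
    ext1 d
    simp [h.inv]
  rw [e0] at m1
  set σ1 := φ * α * swap r r' with hσ1
  set α2 := α * swap r r' with hα2
  have α2r : α2 r = r := by simp [hα2, hr']
  have α2r' : α2 r' = r' := by simp [hα2, hr]
  have α2o : ∀ d, d ≠ r → d ≠ r' → α2 d = α d := fun d hd hd' => by
    simp [hα2, swap_apply_of_ne_of_ne hd hd']
  have α2i : ∀ d, α2 (α2 d) = d := by
    intro d
    by_cases hd : d = r
    · rw [hd, α2r, α2r]
    · by_cases hd' : d = r'
      · rw [hd', α2r', α2r']
      · rw [α2o d hd hd', α2o, h.inv]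
        · intro hc; exact hd' (by rw [← h.inv d, hc, hr])
        · intro hc; exact hd (by rw [← h.inv d, hc, hr'])
  obtain ⟨g2, m2, -⟩ := G0.skip g1 α2r
  obtain ⟨g3, m3, -⟩ := G0.skip g2 α2r'
  set σ2 := skip (skip σ1 r) r' with hσ2
  have hφ2 : σ2 * α2 = skip (skip φ r) r' := by rw [m3, m2, m1]
  set φ2 := skip (skip φ r) r' with hφ2'
  have hσφ : φ2 * α2 = σ2 := by
    rw [← hφ2]
    ext1 d
    simp [α2i]
  have φar : skip φ r r = r := skip_self _ _
  have φ2r : φ2 r = r := by
    rw [hφ2', skip_ne _ r' hne (by rw [φar]; exact hne), φar]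
  have φ2r' : φ2 r' = r' := skip_self _ _
  set lam2 : D → V := fun d => if lam d = lam r then lam r' else lam d with hlam2
  have l1 : ∀ d, lam2 (σ1 d) = lam2 d := by
    intro d
    rw [hσ1, Equiv.Perm.mul_apply]
    by_cases h1 : d = r
    · rw [h1, swap_apply_left, hlam2]
      simp only [hσlam, if_true]
      rw [if_neg hl.symm]
    · by_cases h2 : d = r'
      · rw [h2, swap_apply_right, hlam2]
        simp only [hσlam, if_true]
        rw [if_neg hl.symm]
      · rw [swap_apply_of_ne_of_ne h1 h2, hlam2]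
        simp only [hσlam]
  refine ⟨α2i, ?_, ?_, ?_, ?_⟩
  · have := g3.rot α2i
    rwa [hφ2] at this
  · intro d
    rw [hσφ]
    exact skip_lab (skip_lab l1 r) r' d
  · intro d hd
    by_cases h1 : d = r
    · rw [h1, φ2r]
    · by_cases h2 : d = r'
      · rw [h2, φ2r']
      · rw [α2o d h1 h2] at hd
        have h3 := h.dead d hd
        have e1 : skip φ r d = d := by rw [skip_ne φ r h1 (by rw [h3]; exact h1), h3]
        rw [hφ2', skip_ne _ r' h2 (by rw [e1]; exact h2), e1]
  · intro a b ha hb hab
    have ha1 : a ≠ r := fun hc => ha (by rw [hc, α2r])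
    have ha2 : a ≠ r' := fun hc => ha (by rw [hc, α2r'])
    have hb1 : b ≠ r := fun hc => hb (by rw [hc, α2r])
    have hb2 : b ≠ r' := fun hc => hb (by rw [hc, α2r'])
    rw [α2o a ha1 ha2] at ha
    rw [α2o b hb1 hb2] at hb
    have hrl : α r ≠ r := by rw [hr]; exact hne.symm
    have hrl' : α r' ≠ r' := by rw [hr']; exact hne
    rw [hσφ]
    refine skip_sameCycle _ _ ha2 hb2 (skip_sameCycle _ _ ha1 hb1 ?_)
    rw [hσ1, swap_merge _ hns]
    simp only [hlam2] at hab
    by_cases h1 : lam a = lam r
    · by_cases h2 : lam b = lam r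
      · exact Or.inl (h.dist a b ha hb (h1.trans h2.symm))
      · rw [if_pos h1, if_neg h2] at hab
        exact Or.inr (Or.inl ⟨h.dist a r ha hrl h1, h.dist r' b hrl' hb hab⟩)
    · by_cases h2 : lam b = lam r
      · rw [if_neg h1, if_pos h2] at hab
        exact Or.inr (Or.inr ⟨h.dist a r' ha hrl' hab, h.dist r b hrl hb h2.symm⟩)
      · rw [if_neg h1, if_neg h2] at hab
        exact Or.inl (h.dist a b ha hb hab)

private theorem C1_run_skip [DecidableEq D] {r b : D} (hb : b ≠ r) (l : List D) :
    ∀ a : D, Run φ a l b → l.Nodup →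
      (a ≠ r → Run (skip φ r) a (l.filter (fun x => x ≠ r)) b) ∧
      (a = r → r ∉ l → ∀ a' : D, φ a' = r → Run (skip φ r) a' (l.filter (fun x => x ≠ r)) b) := by
  induction l with
  | nil =>
    intro a h _
    have h1 : φ a = b := h
    refine ⟨fun ha => ?_, fun ha _ a' ha' => ?_⟩
    · change skip φ r a = b
      rw [skip_ne φ r ha (by rw [h1]; exact hb), h1]
    · change skip φ r a' = b
      rw [skip_eq φ r ha', ← ha, h1]
  | cons x l ih =>
    intro a h nd
    obtain ⟨h1, h2⟩ := h
    obtain ⟨nx, nd⟩ := List.nodup_cons.1 nd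
    refine ⟨fun ha => ?_, fun ha hn a' ha' => ?_⟩
    · by_cases hx : x = r
      · have h3 : (x :: l).filter (fun x => x ≠ r) = l.filter (fun x => x ≠ r) := by
          simp [hx]
        rw [h3]
        exact (ih x h2 nd).2 hx (by rw [← hx]; exact nx) a (by rw [h1, hx])
      · have h3 : (x :: l).filter (fun x => x ≠ r) = x :: l.filter (fun x => x ≠ r) := by
          simp [hx]
        rw [h3]
        refine ⟨?_, (ih x h2 nd).1 hx⟩
        rw [skip_ne φ r ha (by rw [h1]; exact hx), h1]
    · have hx : x ≠ r := fun hc => hn (by rw [hc]; exact List.mem_cons_self)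
      have h3 : (x :: l).filter (fun x => x ≠ r) = x :: l.filter (fun x => x ≠ r) := by
        simp [hx]
      rw [h3]
      refine ⟨?_, (ih x h2 nd).1 hx⟩
      rw [skip_eq φ r ha', ← ha, h1]

/-- Runs and removal of a dart.

PROOF. Induction on `l` (generalizing `a`); use `skip_eq`, `skip_ne`. In the step `l = x :: l`: if
`x = r` then `l ++ [b]` continues with `φ r`; treat this case by looking at the next element (for
`l = []`: `φ r = b`, `skip φ r a = φ r = b` by `skip_eq`; for `l = y :: l'`: `y ≠ r` by `nd`,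
`skip φ r a = φ r = y`), so it is easier to prove first the case `r ∉ l` (`Run.congr`-like), then split
`l = l1 ++ r :: l2` with `Run.append`. -/
theorem run_skip [DecidableEq D] {r a b : D} {l : List D} (h : Run φ a l b) (ha : a ≠ r)
    (hb : b ≠ r) (nd : l.Nodup) : Run (skip φ r) a (l.filter (fun x => x ≠ r)) b := by
  exact (C1_run_skip hb l a h nd).1 ha

end Pool.Agent.Lib.H36G
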