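import Pool.Agent.Lib.H36G.C1

set_option autoImplicit false

/-!
# H36G, chunk C2: two chords of a face do not cross (after contraction)
-/

namespace Pool.Agent.Lib.H36G

open Equiv Equiv.Perm H71S

variable {D V : Type} {φ α : Perm D} {lam : D → V} {c : V → Bool}

private theorem C2_fwd {ψ : Perm D} (l : List D) : ∀ (a b : D), Run ψ a l b →
    ∀ d, d = a ∨ d ∈ l → ψ d = b ∨ ψ d ∈ l := by
  induction l with
  | nil =>
    rintro a b hr d (rfl | hd)
    · exact Or.inl hr
    · simp at hd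
  | cons x l ih =>
    rintro a b ⟨h1, h2⟩ d hd
    rcases hd with rfl | hd
    · right; rw [h1]; exact List.mem_cons_self
    · rcases ih x b h2 d (List.mem_cons.1 hd) with h3 | h3
      · exact Or.inl h3
      · exact Or.inr (List.mem_cons_of_mem _ h3)

private theorem C2_vert [Finite D] [DecidableEq D] {ψ β : Perm D} {mu : D → V}
    (hv : ∀ d, mu ((ψ * β) d) = mu d) {x y : D} (hxy : mu x = mu y) (k : ℕ) :
    ∀ a b, mu a ≠ mu x → ((ψ * β) ^ k) a = b → cs (swap x y * ψ) β a b := by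
  induction k with
  | zero =>
    intro a b _ h
    rw [pow_zero, Equiv.Perm.one_apply] at h
    rw [h]
  | succ k ih =>
    intro a b ha h
    rw [pow_succ, Equiv.Perm.mul_apply] at h
    have h1 : mu ((ψ * β) a) ≠ mu x := by rw [hv]; exact ha
    have h2 := ih ((ψ * β) a) b h1 h
    have h3 : (ψ * β) a ≠ x := fun hc => h1 (by rw [hc])
    have h4 : (ψ * β) a ≠ y := fun hc => h1 (by rw [hc, hxy])
    have h5 : (swap x y * ψ * β) a = (ψ * β) a := by
      rw [mul_assoc, Equiv.Perm.mul_apply, swap_apply_of_ne_of_ne h3 h4]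
    have h6 := cs_mul (swap x y * ψ) β a
    rw [h5] at h6
    exact (cs _ β).trans h6 h2

private theorem C2_path [Finite D] [DecidableEq D] {ψ : Perm D} (β : Perm D) {x y a b w : D}
    {l : List D} (hr : Run ψ a l b) (hx : x ∉ l) (hy : y ∉ l) (hw : w ∈ l) (hnd : l.Nodup)
    (hb : b ∉ l) : cs (swap x y * ψ) β a w ∧ ψ w ≠ w := by
  obtain ⟨s, t, rfl⟩ := List.append_of_mem hw
  obtain ⟨h1, h2⟩ := Run.append.1 hr
  constructor
  · have h3 : Run (swap x y * ψ) a s w := by
      refine h1.congr fun d hd => ?_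
      have h4 : ψ d ∈ s ++ w :: t := by
        rcases C2_fwd s a w h1 d hd with h5 | h5
        · rw [h5]; simp
        · simp [h5]
      rw [Equiv.Perm.mul_apply, swap_apply_of_ne_of_ne]
      · exact fun hc => hx (by rw [← hc]; exact h4)
      · exact fun hc => hy (by rw [← hc]; exact h4)
    exact cs_of_sameCycle (h3.same w (Or.inr rfl))
  · intro hc
    rcases C2_fwd t w b h2 w (Or.inl rfl) with h5 | h5
    · rw [hc] at h5
      exact hb (by rw [← h5]; exact hw)
    · rw [hc] at h5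
      have h6 := (List.nodup_append.1 hnd).2.1
      exact (List.nodup_cons.1 h6).1 h5

private theorem C2_live {ψ : Perm D} {a b w : D} {l : List D} (hr : Run ψ a l b) (ha : a ∉ l)
    (hw : w ∈ l) : ψ a ≠ a := by
  cases l with
  | nil => simp at hw
  | cons c l =>
    intro hc
    obtain ⟨h1, -⟩ := hr
    rw [hc] at h1
    exact ha (by rw [h1]; exact List.mem_cons_self)

/-- First form: the two chords are live darts `f` (from `lam x1` to `lam x3`) and `g` (from `lam x2` to
`lam x4`), and neither `f` nor `α f` is one of `x1, x2, x3, x4` or of the runs `l1, l3`... This form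
treats the situation AFTER the contraction: a map `(ψ, β, mu)` with two darts `x, y` of the same label
and in the same face, `Run ψ x l1 y`, `Run ψ y l2 x`, a dart `x2 ∈ l1` and a dart `x4 ∈ l2` whose labels
differ from `mu x`, and a live dart `g` with `mu g = mu x2`, `mu (β g) = mu x4`: impossible.

PROOF. `x ≠ y` by `nd`. `SameCycle ψ x y` (`Run.same`), `SameCycle (ψ * β) x y` by `dist` (`x`, `y`
are live since `ψ x ≠ x`, `ψ y ≠ y`). `h.g0.split` (Lib/H71S/Ops.lean) gives, with `χ := swap x y * ψ`: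
`¬ cs χ β x y`. Now `cs χ β x x2`: `Run χ x (part of l1 before x2) x2` since `χ d = ψ d` as long as
`ψ d ∉ {x, y}` (`Run.congr` after `Run.append`), so they are in one `χ`-cycle (`Run.same`,
`cs_of_sameCycle`). Similarly `cs χ β y x4`. Vertices: `χ * β = swap x y * (ψ * β)`; for a dart `d` with
`mu d ≠ mu x` also `(ψ * β)` keeps the label (`vert`), so `(ψ * β) d ∉ {x, y}` and `(χ * β) d =
(ψ * β) d`; hence the `ψ * β`-cycle of `x2` is a `χ * β`-cycle, and `g` (same label as `x2`, both live,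
`dist`) satisfies `cs χ β x2 g` (`cs_of_sameCycle_mul`; to transfer `SameCycle` use `zpow`/`pow`
induction: `(χ * β)^k x2 = (ψ * β)^k x2` by induction on `k : ℕ`, `SameCycle.exists_pow_eq'`). Similarly
`cs χ β (β g) x4`. With `cs_right χ β g`: `cs χ β x y`, contradiction. -/
theorem cross_core [Finite D] [DecidableEq D] {ψ β : Perm D} {mu : D → V} (h : LM ψ β mu)
    {x y x2 x4 g : D} {l1 l2 : List D} (r1 : Run ψ x l1 y) (r2 : Run ψ y l2 x)
    (nd : (x :: (l1 ++ y :: l2)).Nodup) (hxy : mu x = mu y) (h2 : x2 ∈ l1) (h4 : x4 ∈ l2)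
    (n2 : mu x2 ≠ mu x) (n4 : mu x4 ≠ mu x) (hg : β g ≠ g) (g1 : mu g = mu x2)
    (g2 : mu (β g) = mu x4) : False := by
  obtain ⟨hxn, nd1⟩ := List.nodup_cons.1 nd
  have hx1 : x ∉ l1 := fun hc => hxn (List.mem_append_left _ hc)
  have hxy' : x ≠ y := fun hc => hxn (List.mem_append_right _ (by rw [hc]; exact List.mem_cons_self))
  have hx2 : x ∉ l2 := fun hc => hxn (List.mem_append_right _ (List.mem_cons_of_mem _ hc))
  obtain ⟨nl1, nl2, hdis⟩ := List.nodup_append.1 nd1
  obtain ⟨hy2, nl2'⟩ := List.nodup_cons.1 nl2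
  have hy1 : y ∉ l1 := fun hc => hdis y hc y List.mem_cons_self rfl
  obtain ⟨p1, q1⟩ := C2_path β r1 hx1 hy1 h2 nl1 hy1
  obtain ⟨p2, q2⟩ := C2_path β r2 hx2 hy2 h4 nl2' hx2
  have lx : β x ≠ x := fun hc => C2_live r1 hx1 h2 (h.dead x hc)
  have ly : β y ≠ y := fun hc => C2_live r2 hy2 h4 (h.dead y hc)
  have lx2 : β x2 ≠ x2 := fun hc => q1 (h.dead x2 hc)
  have lx4 : β x4 ≠ x4 := fun hc => q2 (h.dead x4 hc)
  obtain ⟨-, hnot, -⟩ := h.g0.split hxy' (r1.same y (Or.inr rfl)) (h.dist x y lx ly hxy)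
  have lg : β (β g) ≠ β g := by rw [h.inv]; exact hg.symm
  obtain ⟨k, hk⟩ := (h.dist x2 g lx2 hg g1.symm).exists_nat_pow_eq
  obtain ⟨k', hk'⟩ := (h.dist x4 (β g) lx4 lg g2.symm).exists_nat_pow_eq
  have a1 := C2_vert h.vert hxy k x2 g n2 hk
  have a2 := C2_vert h.vert hxy k' x4 (β g) n4 hk'
  refine hnot ?_
  refine (cs _ β).trans p1 ((cs _ β).trans a1 ((cs _ β).trans (cs_right _ β g) ?_))
  exact (cs _ β).trans ((cs _ β).symm a2) ((cs _ β).symm p2)

end Pool.Agent.Lib.H36G
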