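import Pool.Agent.Lib.H36G.C2

set_option autoImplicit false

/-!
# H36G, chunk C3: two chords of a face do not cross
-/

namespace Pool.Agent.Lib.H36G

open Equiv Equiv.Perm H71S

variable {D V : Type} {φ α : Perm D} {lam : D → V} {c : V → Bool}

/-- a corner of the merged vertex which survives the contraction -/
theorem corner [Finite D] (h : LM φ α lam) {f x t o : D} {l : List D} (r : Run φ x l t)
    (hx : lam x = lam f) (hne : lam f ≠ lam (α f)) (ht : lam t ≠ lam (α f))
    (ho : lam o = lam (α f)) (hol : α o ≠ o) (hno : o ∉ l) (nd : (x :: l).Nodup) :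
    ∃ y ∈ x :: l, y ≠ f ∧ y ≠ α f ∧ (lam y = lam f ∨ lam y = lam (α f)) := by
  by_cases hxf : x = f
  · subst hxf
    cases l with
    | nil =>
      exfalso
      have h1 : φ x = t := r
      exact ht (by rw [← h1, head h])
    | cons z l =>
      obtain ⟨h1, h2⟩ := r
      have hz : lam z = lam (α x) := by rw [← h1, head h]
      refine ⟨z, by simp, ?_, ?_, Or.inr hz⟩
      · intro hc
        rw [List.nodup_cons] at nd
        exact nd.1 (by rw [hc]; exact List.mem_cons_self)
      · intro hc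
        have hfix : (φ * α) (α x) = α x := by
          rw [Equiv.Perm.mul_apply, h.inv, h1, hc]
        have hx' : α x ≠ x := fun hc => hne (by rw [hc])
        have h3 : SameCycle (φ * α) (α x) o :=
          h.dist _ _ (live_alpha h hx') hol ho.symm
        have h4 := h3.eq_of_left hfix
        exact hno (by rw [← h4, ← hc]; exact List.mem_cons_self)
  · exact ⟨x, by simp, hxf, fun hc => hne (by rw [← hx, hc]), Or.inl hx⟩

/-- Two chords of a face do not cross.

PROOF. Let `f` be live, `lam f = lam x1`, `lam (α f) = lam x3`, `f' := α f`; `g` live, `lam g = lam x2`,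
`lam (α g) = lam x4`. Contract `f` (`contract_lm` with `r := f'`, `r' := f`, or `r := f`, `r' := f'`):
`ψ := skip (skip φ f) f'`, `β := α * swap f f'`, `mu d := if lam d = lam f then lam f' else lam d`.
`g ∉ {f, f'}` (labels), so `β g = α g ≠ g`, `mu g = lam x2 = mu x2`, `mu (β g) = lam x4 = mu x4`, both
different from `mu x1 = mu x3 = lam x3`.
Corners: let `x := x1` if `x1 ≠ f`, and `x := φ f` if `x1 = f` (then `lam x = lam f' = lam x3`, so `x ≠
x2`, and `l1 = x :: l1'` starts with `x`; also `x ≠ f'`: otherwise `φ f = f'`, the only dart at `lam x3`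
is `f'` (`(φ * α) f' = f'` and `dist`), so `x3 = f'` is in `l1`: contradiction to `nd`). Always
`x1 ≠ f'` and `x3 ≠ f` (labels). Let similarly `y := x3` if `x3 ≠ f'`, and `y := φ f'` if `x3 = f'`
(then `l3 = y :: l3'`, `y ≠ x4`, `y ≠ f`). Removing `f` and `f'` from the closed walk `x1, l1, x2, l2,
x3, l3, x4, l4` with `run_skip` (twice, applied to the pieces from `x` to `y` and from `y` to `x`; after
a change of the starting corner the pieces are `x → l1' ++ x2 :: l2 ++ [x3]... ` etc., rotate the walk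
accordingly) gives `Run ψ x L1 y`, `Run ψ y L2 x` with `x2 ∈ L1`, `x4 ∈ L2`, nodup: apply
`cross_core`. (`x2, x4 ∉ {f, f'}` by labels. `ψ`-values: `skip` removes one dart from a run, see
`run_skip`.) -/
theorem cross [Finite D] (h : LM φ α lam) {x1 x2 x3 x4 : D} {l1 l2 l3 l4 : List D}
    (r1 : Run φ x1 l1 x2) (r2 : Run φ x2 l2 x3) (r3 : Run φ x3 l3 x4) (r4 : Run φ x4 l4 x1)
    (nd : (x1 :: (l1 ++ x2 :: (l2 ++ x3 :: (l3 ++ x4 :: l4)))).Nodup)
    (n12 : lam x1 ≠ lam x2) (n13 : lam x1 ≠ lam x3) (n14 : lam x1 ≠ lam x4)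
    (n23 : lam x2 ≠ lam x3) (n24 : lam x2 ≠ lam x4) (n34 : lam x3 ≠ lam x4)
    (c1 : Nb α lam (lam x1) (lam x3)) (c2 : Nb α lam (lam x2) (lam x4)) : False := by
  classical
  obtain ⟨f, hf, f1, f3⟩ := c1
  obtain ⟨g, hg, g2, g4⟩ := c2
  have hne : lam f ≠ lam (α f) := by rw [f1, f3]; exact n13
  have hl : α (α f) = f := h.inv f
  -- liveness of the corners
  have lx1 : α x1 ≠ x1 := by
    intro hc
    have h1 := h.dead x1 hc
    cases l1 with
    | nil => exact n12 (congrArg lam (h1.symm.trans r1))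
    | cons z l =>
      have h2 : z = x1 := r1.1.symm.trans h1
      rw [h2] at nd
      simp at nd
  have lx3 : α x3 ≠ x3 := by
    intro hc
    have h1 := h.dead x3 hc
    cases l3 with
    | nil => exact n34 (congrArg lam (h1.symm.trans r3))
    | cons z l =>
      have h2 : z = x3 := r3.1.symm.trans h1
      rw [h2] at nd
      have h1 := (List.nodup_append.1 (List.nodup_cons.1 nd).2).2.1
      have h2 := (List.nodup_append.1 (List.nodup_cons.1 h1).2).2.1
      exact (List.nodup_cons.1 h2).1 (by simp)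
  -- the two long runs
  have R1 : Run φ x2 (l2 ++ x3 :: l3) x4 := Run.append.2 ⟨r2, r3⟩
  have R2 : Run φ x4 (l4 ++ x1 :: l1) x2 := Run.append.2 ⟨r4, r1⟩
  have nd2 : (x2 :: ((l2 ++ x3 :: l3) ++ x4 :: (l4 ++ x1 :: l1))).Nodup := by
    refine (List.Perm.nodup_iff ?_).1 nd
    refine List.perm_iff_count.2 fun a => ?_
    simp only [List.count_append, List.count_cons]
    ring
  have x2f : x2 ≠ f := fun hc => n12 (by rw [← f1, hc])
  have x2f' : x2 ≠ α f := fun hc => n23 (by rw [← f3, hc])
  have x4f : x4 ≠ f := fun hc => n14 (by rw [← f1, hc])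
  have x4f' : x4 ≠ α f := fun hc => n34 (by rw [← f3, hc])
  have ndA : (l2 ++ x3 :: l3).Nodup :=
    (List.nodup_append.1 (List.nodup_cons.1 nd2).2).1
  have ndB : (l4 ++ x1 :: l1).Nodup :=
    (List.nodup_cons.1 (List.nodup_append.1 (List.nodup_cons.1 nd2).2).2.1).2
  set ψ := skip (skip φ f) (α f) with hψ
  have S1 := run_skip (run_skip R1 x2f x4f ndA) x2f' x4f' (ndA.filter _)
  have S2 := run_skip (run_skip R2 x4f x2f ndB) x4f' x2f' (ndB.filter _)
  rw [← hψ] at S1 S2
  set W1 := ((l2 ++ x3 :: l3).filter (fun x => x ≠ f)).filter (fun x => x ≠ α f) with hW1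
  set W2 := ((l4 ++ x1 :: l1).filter (fun x => x ≠ f)).filter (fun x => x ≠ α f) with hW2
  have nd3 : (x2 :: (W1 ++ x4 :: W2)).Nodup := by
    refine List.Nodup.sublist ?_ nd2
    refine List.Sublist.cons_cons _ (List.Sublist.append ?_ (List.Sublist.cons_cons _ ?_))
    · exact List.filter_sublist.trans List.filter_sublist
    · exact List.filter_sublist.trans List.filter_sublist
  -- the corners
  obtain ⟨x, hx, hxf, hxf', hxl⟩ := corner (o := x3) (l := l1) (x := x1) h r1 f1.symm hne
    (by rw [f3]; exact n23) f3.symm lx3 (by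
      intro hc
      have := (List.nodup_cons.1 nd).2
      rw [List.nodup_append] at this
      exact this.2.2 x3 hc x3 (by simp) rfl) (by
      have h1 := List.nodup_cons.1 nd
      refine List.nodup_cons.2 ⟨fun hc => h1.1 (List.mem_append_left _ hc), ?_⟩
      exact (List.nodup_append.1 h1.2).1)
  obtain ⟨y, hy, hyf', hyf, hyl⟩ := corner (o := x1) (l := l3) (x := x3) (f := α f) h r3 f3.symm
    (by rw [hl]; exact hne.symm) (by rw [hl, f1]; exact n14.symm) (by rw [hl]; exact f1.symm) lx1 (by
      intro hc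
      exact (List.nodup_cons.1 nd).1 (by simp [hc])) (by
      have h1 := (List.nodup_append.1 (List.nodup_cons.1 nd).2).2.1
      have h2 := (List.nodup_append.1 (List.nodup_cons.1 h1).2).2.1
      have h3 := List.nodup_cons.1 h2
      refine List.nodup_cons.2 ⟨fun hc => h3.1 (List.mem_append_left _ hc), ?_⟩
      exact (List.nodup_append.1 h3.2).1)
  rw [hl] at hyf hyl
  have hxW : x ∈ W2 := by
    rw [hW2, List.mem_filter, List.mem_filter]
    refine ⟨⟨?_, by simpa using hxf⟩, by simpa using hxf'⟩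
    exact List.mem_append_right _ hx
  have hyW : y ∈ W1 := by
    rw [hW1, List.mem_filter, List.mem_filter]
    refine ⟨⟨?_, by simpa using hyf⟩, by simpa using hyf'⟩
    exact List.mem_append_right _ hy
  obtain ⟨P, Q, hPQ⟩ := List.append_of_mem hxW
  obtain ⟨R, S, hRS⟩ := List.append_of_mem hyW
  rw [hPQ] at S2 nd3
  rw [hRS] at S1 nd3
  obtain ⟨u1, u2⟩ := Run.append.1 S2
  obtain ⟨v1, v2⟩ := Run.append.1 S1
  have K := contract_lm h (r := f) (r' := α f) rfl hne
  rw [← hψ] at K
  set mu : D → V := fun d => if lam d = lam f then lam (α f) else lam d with hmu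
  have mg : ∀ d, lam d = lam f ∨ lam d = lam (α f) → mu d = lam (α f) := by
    intro d hd
    rw [hmu]
    rcases hd with hd | hd
    · simp [hd]
    · simp only [hd]
      split_ifs <;> rfl
  have mo : ∀ d, lam d ≠ lam f → mu d = lam d := by
    intro d hd
    rw [hmu]
    simp [hd]
  have mx2 : mu x2 = lam x2 := mo x2 (by rw [f1]; exact n12.symm)
  have mx4 : mu x4 = lam x4 := mo x4 (by rw [f1]; exact n14.symm)
  have gf : g ≠ f := fun hc => n12 (by rw [← f1, ← g2, hc])
  have gf' : g ≠ α f := fun hc => n23 (by rw [← f3, ← g2, hc])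
  have hβ : (α * swap f (α f)) g = α g := by
    rw [Equiv.Perm.mul_apply, swap_apply_of_ne_of_ne gf gf']
  refine cross_core (x := x) (y := y) (x2 := x2) (x4 := x4) (g := g) (l1 := Q ++ x2 :: R)
    (l2 := S ++ x4 :: P) K (Run.append.2 ⟨u2, v1⟩) (Run.append.2 ⟨v2, u1⟩) ?_ ?_ (by simp)
    (by simp) ?_ ?_ ?_ ?_ ?_
  · refine (List.Perm.nodup_iff ?_).1 nd3
    refine List.perm_iff_count.2 fun a => ?_
    simp only [List.count_append, List.count_cons]
    ring
  · rw [mg x hxl, mg y (hyl.symm)]
  · rw [mg x hxl, mx2, f3]; exact n23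
  · rw [mg x hxl, mx4, f3]; exact n34.symm
  · rw [hβ]; exact hg
  · rw [mx2, mo g (by rw [g2, f1]; exact n12.symm), g2]
  · rw [hβ, mx4, mo (α g) (by rw [g4, f1]; exact n14.symm), g4]

end Pool.Agent.Lib.H36G
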