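import Pool.Agent.Lib.H36G.Basic

set_option autoImplicit false

/-!
# H36G, chunk D1: appending a last vertex (pure order part)
-/

namespace Pool.Agent.Lib.H36G

variable {V : Type}

/-- Append `g` as the last vertex.

PROOF. `p := fun v => if v = g then M else p' v`. In all claims only three vertices can be compared
with something greater, so they are `≠ g`; the greatest vertex may be `g`.
Strict: let `p z < p u < p v < p w`, `c z = c u`, `N z v`, `N u w`. `z, u, v ≠ g` (they are below
something and `M` is greater than everything). If `w ≠ g`: all edges are in `N'`, use `hst`. If `w = g`: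
`N g u` by `hs`; `hal u` with `a := z`, `d := v`: `N' z v`, `p' z < p' u < p' v`: contradiction.
Alive `g`: `p g = M < p d` is impossible.
Third claim (`w ≠ g`, `c w = c g`): let `c a = c w`, `N a d`, `p a < p w < p d`. `a ≠ g`. If `d = g` then
`N a g`, so `c a ≠ c g` by `hb`, contradiction. So `N' a d` and `Alive N'` applies.
Fourth claim (`c w ≠ c g`): `a ≠ g`; if `d = g` then `N g a` and `p' w ≤ p' a`, contradiction to
`p a < p w`. Otherwise as before. -/
theorem order_last (N N' : V → V → Prop) (c : V → Bool) (p' : V → ℕ) (g : V) (M : ℕ)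
    [DecidableEq V] (hM : ∀ v, p' v < M) (hb : ∀ a d, N a d → c a ≠ c d)
    (hs : ∀ a d, N a d → N d a) (hN : ∀ a d, N a d → a ≠ g → d ≠ g → N' a d)
    (hst : Strict N' c p') (hal : ∀ u, N g u → Alive N' c p' u) :
    Strict N c (fun v => if v = g then M else p' v) ∧
    Alive N c (fun v => if v = g then M else p' v) g ∧
    (∀ w, w ≠ g → c w = c g → Alive N' c p' w → Alive N c (fun v => if v = g then M else p' v) w) ∧
    (∀ w, w ≠ g → c w ≠ c g → Alive N' c p' w → (∀ a, N g a → p' w ≤ p' a) →
      Alive N c (fun v => if v = g then M else p' v) w) := by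
  have lt_M : ∀ v w, (if v = g then M else p' v) < (if w = g then M else p' w) → v ≠ g := by
    intro v w hvw hc
    rw [if_pos hc] at hvw
    split_ifs at hvw with h1
    · exact lt_irrefl _ hvw
    · exact absurd (hM w) (not_lt.2 hvw.le)
  refine ⟨?_, ?_, ?_, ?_⟩
  · intro z u v w h1 h2 h3 hc hzv huw
    have hz := lt_M _ _ h1
    have hu := lt_M _ _ h2
    have hv := lt_M _ _ h3
    simp only [if_neg hz, if_neg hu, if_neg hv] at h1 h2 h3
    have hzv' := hN z v hzv hz hv
    by_cases hw : w = g
    · subst hw
      exact hal u (hs _ _ huw) z v hc hzv' h1 h2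
    · rw [if_neg hw] at h3
      exact hst z u v w h1 h2 h3 hc hzv' (hN u w huw hu hw)
  · intro a d _ _ _ h2
    exact lt_M _ _ h2 rfl
  · intro w hw hcw hA a d hac had h1 h2
    have ha := lt_M _ _ h1
    simp only [if_neg ha, if_neg hw] at h1 h2
    have hd : d ≠ g := by
      intro hc
      exact hb a d had (by rw [hac, hcw, hc])
    rw [if_neg hd] at h2
    exact hA a d hac (hN a d had ha hd) h1 h2
  · intro w hw hcw hA hle a d hac had h1 h2
    have ha := lt_M _ _ h1
    simp only [if_neg ha, if_neg hw] at h1 h2
    have hd : d ≠ g := by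
      intro hc
      rw [hc] at had
      exact absurd (hle a (hs _ _ had)) (not_le.2 h1)
    rw [if_neg hd] at h2
    exact hA a d hac (hN a d had ha hd) h1 h2

end Pool.Agent.Lib.H36G
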