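import Pool.Agent.Lib.H36G.D1

set_option autoImplicit false

/-!
# H36G, chunk D2a: order part of the step which deletes a white vertex
-/

namespace Pool.Agent.Lib.H36G

variable {V : Type}

/-- Order part of the step which deletes the white vertex `g`.

PROOF. `obtain ⟨M, hM⟩ : ∃ M, ∀ v, p' v < M` (`V` is finite: `Set.exists_upper_bound_image` or
`Finset.univ.sup p' + 1`). `p := fun v => if v = g then M else p' v` and `order_last`; `hal`: a
neighbour `u` of `g` is in `NC` or is `r`, so it is in `NC ++ r :: BB`, use `h.bal`.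
inj: two vertices `≠ g` by `h.inj`; `p' v < M`. first: `b ≠ g` (colours), so `p b = p' b < p' v` or
`< M`. strict: first claim. winc: on `WA`, `p = p'` since `g ∉ WA`; all `p' x < M = p g`
(`List.pairwise_append`). wal: third claim (`c w = true = c g`) for `w ∈ WA`, second claim for `g`.
bdec: sublist of `h.bdec` (`NC ++ r :: BB` has the sublist `r :: BB`) and `p = p'` there (`c = false`, so
`≠ g`). bal: fourth claim: for `w ∈ r :: BB` and `a` with `N g a`, i.e. `a ∈ NC` or `a = r`:
`p' w ≤ p' a` from `h.bdec` (`List.pairwise_append`, `List.pairwise_cons`). -/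
theorem out_G [Finite V] (N N' : V → V → Prop) (c : V → Bool) {b g r : V} {WA NC BB : List V}
    {p' : V → ℕ} (h : Out N' c b WA (NC ++ r :: BB) p') (hb : ∀ a d, N a d → c a ≠ c d)
    (hs : ∀ a d, N a d → N d a) (hN : ∀ a d, N a d → a ≠ g → d ≠ g → N' a d)
    (hcb : c b = false) (hcg : c g = true) (hW : ∀ w ∈ WA, c w = true ∧ w ≠ g)
    (hB : ∀ w ∈ NC ++ r :: BB, c w = false) (hg : ∀ a, N g a → a ∈ NC ∨ a = r) :
    ∃ p, Out N c b (WA ++ [g]) (r :: BB) p := by
  classical
  obtain ⟨M, hM⟩ : ∃ M, ∀ v, p' v < M := by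
    obtain ⟨M, hM⟩ := (Set.finite_range p').bddAbove
    exact ⟨M + 1, fun v => Nat.lt_succ_of_le (hM ⟨v, rfl⟩)⟩
  obtain ⟨o1, o2, o3, o4⟩ := order_last N N' c p' g M hM hb hs hN h.strict (fun u hu =>
    h.bal u (by rcases hg u hu with h1 | h1 <;> simp [h1]))
  have hbg : b ≠ g := fun hc => by rw [hc, hcg] at hcb; exact absurd hcb (by simp)
  have hBg : ∀ w ∈ NC ++ r :: BB, w ≠ g := fun w hw hc => by
    have := hB w hw
    rw [hc, hcg] at this
    exact absurd this (by simp)
  obtain ⟨k1, k2, k3⟩ := List.pairwise_append.1 h.bdec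
  refine ⟨fun v => if v = g then M else p' v, ⟨?_, ?_, o1, ?_, ?_, ?_, ?_⟩⟩
  · intro v w hvw
    by_cases h1 : v = g
    · by_cases h2 : w = g
      · rw [h1, h2]
      · simp only [if_pos h1, if_neg h2] at hvw
        exact absurd (hM w) (by omega)
    · by_cases h2 : w = g
      · simp only [if_neg h1, if_pos h2] at hvw
        exact absurd (hM v) (by omega)
      · simp only [if_neg h1, if_neg h2] at hvw
        exact h.inj hvw
  · intro v hv
    simp only [if_neg hbg]
    split_ifs
    · exact hM b
    · exact h.first v hv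
  · refine List.pairwise_append.2 ⟨?_, List.pairwise_singleton _ _, ?_⟩
    · refine h.winc.imp_of_mem ?_
      intro x y hx hy hxy
      simpa only [if_neg (hW x hx).2, if_neg (hW y hy).2] using hxy
    · intro x hx y hy
      rw [List.mem_singleton] at hy
      subst hy
      simp only [if_neg (hW x hx).2, if_true]
      exact hM x
  · intro w hw
    rcases List.mem_append.1 hw with h1 | h1
    · exact o3 w (hW w h1).2 ((hW w h1).1.trans hcg.symm) (h.wal w h1)
    · rw [List.mem_singleton] at h1
      rw [h1]; exact o2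
  · refine k2.imp_of_mem ?_
    intro x y hx hy hxy
    simpa only [if_neg (hBg x (List.mem_append_right _ hx)),
      if_neg (hBg y (List.mem_append_right _ hy))] using hxy
  · intro w hw
    have hw' : w ∈ NC ++ r :: BB := List.mem_append_right _ hw
    refine o4 w (hBg w hw') (by rw [hB w hw', hcg]; simp) (h.bal w hw') ?_
    intro a ha
    rcases hg a ha with h1 | h1
    · exact (k3 a h1 w hw).le
    · rw [h1]
      rcases List.mem_cons.1 hw with h2 | h2
      · rw [h2]
      · exact ((List.pairwise_cons.1 k2).1 w h2).le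

end Pool.Agent.Lib.H36G
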