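import Pool.Agent.Lib.H36G.D1

set_option autoImplicit false

/-!
# H36G, chunk D2b: order part of the step which deletes a black vertex
-/

namespace Pool.Agent.Lib.H36G

variable {V : Type}

/-- Order part of the step which deletes the black vertex `r`.

PROOF. As `out_G`: `p := fun v => if v = r then M else p' v`, `order_last` with the vertex `r`. The
neighbours of `r` are in `g :: WN`, alive by `h.wal`. inj, first (`b ≠ r`), strict as before. winc:
`WA ++ [g]` is a prefix (sublist) of `WA ++ g :: WN`, `p = p'` there (`c = true`, so `≠ r`). wal: fourth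
claim: for `w ∈ WA ++ [g]` and a neighbour `a ∈ g :: WN` of `r`: `p' w ≤ p' a` from `h.winc`. bdec:
`r` is greater than all; `p = p'` on `BB` (`r ∉ BB`). bal: `r` by the second claim, the others by the
third claim. -/
theorem out_R [Finite V] (N N' : V → V → Prop) (c : V → Bool) {b g r : V} {WA WN BB : List V}
    {p' : V → ℕ} (h : Out N' c b (WA ++ g :: WN) BB p') (hb : ∀ a d, N a d → c a ≠ c d)
    (hs : ∀ a d, N a d → N d a) (hN : ∀ a d, N a d → a ≠ r → d ≠ r → N' a d)
    (hbr : b ≠ r) (hcr : c r = false) (hW : ∀ w ∈ WA ++ g :: WN, c w = true)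
    (hB : ∀ w ∈ BB, c w = false ∧ w ≠ r) (hg : ∀ a, N r a → a ∈ g :: WN) :
    ∃ p, Out N c b (WA ++ [g]) (r :: BB) p := by
  classical
  obtain ⟨M, hM⟩ : ∃ M, ∀ v, p' v < M := by
    obtain ⟨M, hM⟩ := (Set.finite_range p').bddAbove
    exact ⟨M + 1, fun v => Nat.lt_succ_of_le (hM ⟨v, rfl⟩)⟩
  obtain ⟨o1, o2, o3, o4⟩ := order_last N N' c p' r M hM hb hs hN h.strict (fun u hu =>
    h.wal u (List.mem_append_right _ (hg u hu)))
  have hWr : ∀ w ∈ WA ++ g :: WN, w ≠ r := fun w hw hc => by
    have := hW w hw
    rw [hc, hcr] at this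
    exact absurd this (by simp)
  obtain ⟨k1, k2, k3⟩ := List.pairwise_append.1 h.winc
  have hsub : ∀ w ∈ WA ++ [g], w ∈ WA ++ g :: WN := by
    intro w hw
    simp only [List.mem_append, List.mem_cons, List.not_mem_nil, or_false] at hw ⊢
    tauto
  refine ⟨fun v => if v = r then M else p' v, ⟨?_, ?_, o1, ?_, ?_, ?_, ?_⟩⟩
  · intro v w hvw
    by_cases h1 : v = r
    · by_cases h2 : w = r
      · rw [h1, h2]
      · simp only [if_pos h1, if_neg h2] at hvw
        exact absurd (hM w) (by omega)
    · by_cases h2 : w = r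
      · simp only [if_neg h1, if_pos h2] at hvw
        exact absurd (hM v) (by omega)
      · simp only [if_neg h1, if_neg h2] at hvw
        exact h.inj hvw
  · intro v hv
    simp only [if_neg hbr]
    split_ifs
    · exact hM b
    · exact h.first v hv
  · have : (WA ++ [g]).Pairwise (fun x y => p' x < p' y) := by
      refine List.pairwise_append.2 ⟨k1, List.pairwise_singleton _ _, ?_⟩
      intro x hx y hy
      exact k3 x hx y (by rw [List.mem_singleton] at hy; simp [hy])
    refine this.imp_of_mem ?_
    intro x y hx hy hxy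
    simpa only [if_neg (hWr x (hsub x hx)), if_neg (hWr y (hsub y hy))] using hxy
  · intro w hw
    refine o4 w (hWr w (hsub w hw)) (by rw [hW w (hsub w hw), hcr]; simp) (h.wal w (hsub w hw)) ?_
    intro a ha
    have ha' := hg a ha
    have hga : p' g ≤ p' a := by
      rcases List.mem_cons.1 ha' with h1 | h1
      · rw [h1]
      · exact ((List.pairwise_cons.1 k2).1 a h1).le
    rcases List.mem_append.1 hw with h1 | h1
    · exact (k3 w h1 a ha').le
    · rw [List.mem_singleton] at h1
      rw [h1]; exact hga
  · refine List.pairwise_cons.2 ⟨?_, ?_⟩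
    · intro y hy
      simp only [if_neg (hB y hy).2, if_true]
      exact hM y
    · refine h.bdec.imp_of_mem ?_
      intro x y hx hy hxy
      simpa only [if_neg (hB x hx).2, if_neg (hB y hy).2] using hxy
  · intro w hw
    rcases List.mem_cons.1 hw with h1 | h1
    · rw [h1]; exact o2
    · exact o3 w (hB w h1).2 ((hB w h1).1.trans hcr.symm) (h.bal w h1)

end Pool.Agent.Lib.H36G
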