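import Pool.Agent.Lib.H36G.Basic

set_option autoImplicit false

/-!
# H36G, chunk D3a: the deleted white vertex occurs only once on the outer walk
-/

namespace Pool.Agent.Lib.H36G

open Equiv Equiv.Perm H71S

variable {D V : Type} {φ α : Perm D} {lam : D → V} {c : V → Bool}

/-- In the run `x0, L, t` each element of `L` has a predecessor.

PROOF. Induction on `L` or `Run.append` after splitting `L = L1 ++ d :: L2`: the predecessor is `x0` if
`L1 = []`, else the last element of `L1` (`List.eq_nil_or_concat`). -/
theorem run_pred {x0 t d : D} {L1 L2 : List D} (h : Run φ x0 (L1 ++ d :: L2) t) :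
    (L1 = [] ∧ φ x0 = d) ∨ ∃ L0 x, L1 = L0 ++ [x] ∧ φ x = d := by
  obtain ⟨h1, -⟩ := Run.append.1 h
  rcases List.eq_nil_or_concat L1 with h2 | ⟨L0, x, h2⟩
  · rw [h2] at h1
    exact Or.inl ⟨h2, h1⟩
  · rw [List.concat_eq_append] at h2
    rw [h2] at h1
    obtain ⟨-, h3⟩ := Run.append.1 h1
    exact Or.inr ⟨L0, x, h2, h3⟩

/-- The white vertex `g = lam e` (last of `A ++ [e]`), all of whose black neighbours on `B` and `s` are
equal to `lam (α e)`, occurs on the outer walk only at `e`.

PROOF. `d = s`: colours. `d ∈ A`: then `lam e ∈ cl c true lam A` and `hW` (with `cl_append`,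
`cl_cons_eq`) is contradicted. `d ∈ B`: write `B = B1 ++ d :: B2` (`List.append_of_mem`). `h.run` splits
at `e` (`Run.append`): `Run φ e (B1 ++ d :: B2) s`. By `run_pred`: if `B1 = []` then `φ e = d`, but
`c (lam (φ e)) ≠ c (lam e)` (`color_phi`), contradiction to `lam d = lam e`. So `B1 = B0 ++ [x]`,
`φ x = d`; `x` is live, `lam (φ x) = lam d = lam e`, `nb_phi`: `Nb (lam e) (lam x)` by `nb_symm`;
`c (lam x) = false` (`color_phi`), `lam x ∈ cl c false lam B`, so `lam x = lam (α e)` by `good`. Let
`y := φ d`, the next dart: it is the head of `B2`, or `s` if `B2 = []`. `Nb (lam e) (lam y)`,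
`c (lam y) = false`, so `lam y = lam (α e) = lam x` by `good`. But `cl c false lam B ++ [lam s] =
cl B0 ++ lam x :: (cl (d :: B2) ++ [lam s])` and `lam y` is in the second part: contradiction to `hB`. -/
theorem only_G {s e : D} {A B : List D} (h : QM φ α lam c s (A ++ e :: B))
    (hcs : c (lam s) = false) (hce : c (lam e) = true)
    (hW : (cl c true lam (A ++ [e])).Nodup) (hB : (cl c false lam B ++ [lam s]).Nodup)
    (good : ∀ y, Nb α lam (lam e) y → y ∈ cl c false lam B ++ [lam s] → y = lam (α e)) :
    ∀ d ∈ s :: (A ++ B), lam d ≠ lam e := by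
  intro d hd hde
  rcases List.mem_cons.1 hd with h1 | h1
  · rw [← hde, h1, hcs] at hce
    exact Bool.false_ne_true hce
  · rcases List.mem_append.1 h1 with h1 | h1
    · -- `d` in `A`
      rw [cl_append, List.nodup_append] at hW
      refine hW.2.2 (lam e) ?_ (lam e) ?_ rfl
      · exact (mem_cl true A (lam e)).2 ⟨⟨d, h1, hde⟩, hce⟩
      · exact (mem_cl true [e] (lam e)).2 ⟨⟨e, List.mem_singleton.2 rfl, rfl⟩, hce⟩
    · -- `d` in `B`
      obtain ⟨B1, B2, rfl⟩ := List.append_of_mem h1
      have hcd : c (lam d) = true := by rw [hde]; exact hce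
      have hcd' : c (lam d) ≠ false := by rw [hcd]; exact fun hc => Bool.false_ne_true hc.symm
      obtain ⟨-, hr⟩ := Run.append.1 h.run
      have hlive : ∀ x ∈ s :: (A ++ e :: (B1 ++ d :: B2)), α x ≠ x := fun x hx => h.live_mem hx
      have hle : α e ≠ e := hlive e (by simp)
      have hld : α d ≠ d := hlive d (by simp)
      rcases run_pred hr with ⟨-, h3⟩ | ⟨B0, x, h2, h3⟩
      · have := color_phi h.lm h.bip hle
        rw [h3, hde] at this
        exact this rfl
      · subst h2
        have hlx : α x ≠ x := hlive x (by simp)
        have n1 : Nb α lam (lam e) (lam x) := by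
          have := nb_phi h.lm hlx
          rw [h3, hde] at this
          exact nb_symm h.lm this
        have cx : c (lam x) = false := by
          have := nb_ne h.bip n1
          rw [hce] at this
          exact Bool.eq_false_iff.2 this.symm
        have n2 : Nb α lam (lam e) (lam (φ d)) := by
          have := nb_phi h.lm hld
          rwa [hde] at this
        have cy : c (lam (φ d)) = false := by
          have := nb_ne h.bip n2
          rw [hce] at this
          exact Bool.eq_false_iff.2 this.symm
        have mx : lam x ∈ cl c false lam (B0 ++ [x]) :=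
          (mem_cl false _ _).2 ⟨⟨x, by simp, rfl⟩, cx⟩
        have my : lam (φ d) ∈ cl c false lam (d :: B2) ++ [lam s] := by
          obtain ⟨-, hr2⟩ := Run.append.1 hr
          cases B2 with
          | nil =>
            have h4 : φ d = s := hr2
            rw [h4]
            exact List.mem_append_right _ (List.mem_singleton.2 rfl)
          | cons y B3 =>
            have h4 : φ d = y := hr2.1
            refine List.mem_append_left _ ?_
            exact (mem_cl false _ _).2 ⟨⟨y, by simp, by rw [h4]⟩, cy⟩
        rw [cl_append, List.append_assoc] at hB good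
        have e1 := good _ n1 (List.mem_append_left _ mx)
        have e2 := good _ n2 (List.mem_append_right _ my)
        rw [List.nodup_append] at hB
        exact hB.2.2 _ mx _ my (e1.trans e2.symm)

end Pool.Agent.Lib.H36G
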