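import Pool.Agent.Lib.H36G.C3
import Pool.Agent.Lib.H36G.D3a

set_option autoImplicit false

/-!
# H36G, chunk D3b: the deleted black vertex occurs only once on the outer walk
-/

namespace Pool.Agent.Lib.H36G

open Equiv Equiv.Perm H71S

variable {D V : Type} {φ α : Perm D} {lam : D → V} {c : V → Bool}

/-- If `g = lam e` has a black neighbour `y ≠ r := lam e'` on `B` or `y = lam s`, then `r` has no white
neighbour on `A`, and `r` occurs on the outer walk only at `e'`.

PROOF. First claim: let `t ∈ cl c true lam A`, `t = lam x1`, `x1 ∈ A`, `A = A1 ++ x1 :: A2`, and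
`Nb α lam (lam e') t`. `t ≠ lam e` by `hW` (`cl_append`). If `y = lam x4` with `x4 ∈ B`,
`B = B1 ++ x4 :: B2` (`mem_cl`): `Run.append` splits `h.run : Run φ s (A1 ++ x1 :: (A2 ++ e :: (e' ::
(B1 ++ x4 :: B2)))) s` into runs; apply `cross` with `x1`, `x2 := e`, `x3 := e'`, `x4` and
`l1 := A2`, `l2 := []`, `l3 := B1`, `l4 := B2 ++ s :: A1`. If `y = lam s`: `x4 := s`, `l3 := B`,
`l4 := A1`. Nodup: a rotation of `h.nod` (`List.Nodup` is invariant under `List.Perm`). Labels: `c` is
`true` for `lam x1, lam e` and `false` for `lam e', y`; `lam e' ≠ y` by `hB` (`cl_cons_eq`). Chords: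
`nb_symm` of the hypothesis and `hy`.
Second claim: `d = s`: `hB`. `d = e`: colours. `d ∈ B`: `hB`. `d ∈ A`: if `lam d = lam e'` then
`c (lam d) = false`; `A = A1 ++ d :: A2`, `run_pred`: the predecessor `x` of `d` is `s` or in `A`;
`c (lam x) = true` (`color_phi`), so `x ≠ s`, `x ∈ A`, `Nb (lam e') (lam x)` (`nb_phi`, `nb_symm`):
contradiction to the first claim. -/
theorem only_R [Finite D] {s e e' : D} {A B : List D} (h : QM φ α lam c s (A ++ e :: e' :: B))
    (hcs : c (lam s) = false) (hce : c (lam e) = true)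
    (hW : (cl c true lam (A ++ [e])).Nodup) (hB : (cl c false lam (e' :: B) ++ [lam s]).Nodup)
    {y : V} (hy : Nb α lam (lam e) y) (hyB : y ∈ cl c false lam B ++ [lam s]) :
    (∀ t ∈ cl c true lam A, ¬ Nb α lam (lam e') t) ∧
    (∀ d ∈ s :: (A ++ e :: B), lam d ≠ lam e') := by
  have hlive : α e ≠ e := h.live_mem (List.mem_cons_of_mem _ (by simp))
  have hrun := h.run
  have hfe : φ e = e' := by
    rw [Run.append] at hrun
    exact hrun.2.1
  have hce' : c (lam e') = false := by
    have h1 := color_phi h.lm h.bip hlive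
    rw [hfe, hce] at h1
    simpa using h1
  have hclB : cl c false lam (e' :: B) = lam e' :: cl c false lam B := cl_cons_eq _ _ _ hce'
  rw [hclB] at hB
  have hB' : lam e' ∉ cl c false lam B ++ [lam s] := by
    rw [List.cons_append] at hB
    exact (List.nodup_cons.1 hB).1
  have hcy : c y = false := by
    rcases List.mem_append.1 hyB with h1 | h1
    · exact ((mem_cl _ _ _).1 h1).2
    · rw [List.mem_singleton.1 h1]; exact hcs
  have hyr : lam e' ≠ y := by
    rintro rfl
    exact hB' hyB
  have hWe : lam e ∉ cl c true lam A := by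
    rw [cl_append, cl_cons_eq _ _ _ hce, cl_nil] at hW
    intro h1
    exact (List.disjoint_of_nodup_append hW) h1 (List.mem_singleton.2 rfl)
  have first : ∀ t ∈ cl c true lam A, ¬ Nb α lam (lam e') t := by
    intro t ht hN
    obtain ⟨⟨x1, hx1, rfl⟩, hct⟩ := (mem_cl _ _ _).1 ht
    obtain ⟨A1, A2, rfl⟩ := List.append_of_mem hx1
    have n12 : lam x1 ≠ lam e := by
      intro h1
      rw [h1] at ht
      exact hWe ht
    have n13 : lam x1 ≠ lam e' := by
      intro h1
      rw [h1, hce'] at hct
      exact Bool.noConfusion hct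
    have n14 : lam x1 ≠ y := by
      intro h1
      rw [h1, hcy] at hct
      exact Bool.noConfusion hct
    have n23 : lam e ≠ lam e' := by
      intro h1
      rw [h1, hce'] at hce
      exact Bool.noConfusion hce
    have n24 : lam e ≠ y := by
      intro h1
      rw [h1, hcy] at hce
      exact Bool.noConfusion hce
    have hr : Run φ s (A1 ++ x1 :: (A2 ++ e :: e' :: B)) s := by
      have := h.run
      rwa [List.append_assoc, List.cons_append] at this
    have hnod : (s :: (A1 ++ x1 :: (A2 ++ e :: e' :: B))).Nodup := by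
      have := h.nod
      rwa [List.append_assoc, List.cons_append] at this
    rw [Run.append] at hr
    obtain ⟨q1, hr⟩ := hr
    rw [Run.append] at hr
    obtain ⟨q2, q3, q4⟩ := hr
    rcases List.mem_append.1 hyB with h1 | h1
    · obtain ⟨⟨x4, hx4, rfl⟩, -⟩ := (mem_cl _ _ _).1 h1
      obtain ⟨B1, B2, rfl⟩ := List.append_of_mem hx4
      rw [Run.append] at q4
      obtain ⟨q5, q6⟩ := q4
      refine cross h.lm (l1 := A2) (l2 := []) (l3 := B1) (l4 := B2 ++ s :: A1) q2 q3 q5
        (Run.append.2 ⟨q6, q1⟩) ?_ n12 n13 n14 n23 n24 hyr (nb_symm h.lm hN) hy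
      refine (List.Perm.nodup_iff ?_).1 hnod
      have h2 : (s :: (A1 ++ x1 :: (A2 ++ e :: e' :: (B1 ++ x4 :: B2)))) =
          (s :: A1) ++ (x1 :: (A2 ++ e :: e' :: (B1 ++ x4 :: B2))) := by simp
      have h3 : (x1 :: (A2 ++ e :: ([] ++ e' :: (B1 ++ x4 :: (B2 ++ s :: A1))))) =
          (x1 :: (A2 ++ e :: e' :: (B1 ++ x4 :: B2))) ++ (s :: A1) := by simp
      rw [h2, h3]
      exact List.perm_append_comm
    · rw [List.mem_singleton] at h1
      subst h1
      refine cross h.lm (l1 := A2) (l2 := []) (l3 := B) (l4 := A1) q2 q3 q4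
        q1 ?_ n12 n13 n14 n23 n24 hyr (nb_symm h.lm hN) hy
      refine (List.Perm.nodup_iff ?_).1 hnod
      have h2 : (s :: (A1 ++ x1 :: (A2 ++ e :: e' :: B))) =
          (s :: A1) ++ (x1 :: (A2 ++ e :: e' :: B)) := by simp
      have h3 : (x1 :: (A2 ++ e :: ([] ++ e' :: (B ++ s :: A1)))) =
          (x1 :: (A2 ++ e :: e' :: B)) ++ (s :: A1) := by simp
      rw [h2, h3]
      exact List.perm_append_comm
  refine ⟨first, ?_⟩
  intro d hd hde
  have hcd : c (lam d) = false := by rw [hde]; exact hce'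
  rcases List.mem_cons.1 hd with rfl | hd
  · exact hB' (by rw [← hde]; simp)
  rcases List.mem_append.1 hd with hd | hd
  · -- `d ∈ A`
    obtain ⟨A1, A2, rfl⟩ := List.append_of_mem hd
    have hr : Run φ s (A1 ++ d :: (A2 ++ e :: e' :: B)) s := by
      have := h.run
      rwa [List.append_assoc, List.cons_append] at this
    rw [Run.append] at hr
    obtain ⟨x, hx, hxd⟩ := hr.1.pred d (Or.inr rfl)
    have hxm : x ∈ s :: (A1 ++ d :: A2 ++ e :: e' :: B) := by
      rcases hx with rfl | hx
      · exact List.mem_cons_self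
      · exact List.mem_cons_of_mem _ (by simp [hx])
    have hxl : α x ≠ x := h.live_mem hxm
    have hcx : c (lam x) = true := by
      have h1 := color_phi h.lm h.bip hxl
      rw [hxd, hcd] at h1
      simpa using h1.symm
    have hxA : x ∈ A1 := by
      rcases hx with rfl | hx
      · rw [hcs] at hcx
        exact Bool.noConfusion hcx
      · exact hx
    refine first (lam x) ((mem_cl _ _ _).2 ⟨⟨x, by simp [hxA], rfl⟩, hcx⟩) ?_
    rw [← hde, ← hxd]
    exact nb_symm h.lm (nb_phi h.lm hxl)
  · rcases List.mem_cons.1 hd with rfl | hd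
    · rw [hce] at hcd
      exact Bool.noConfusion hcd
    · refine hB' (List.mem_append.2 (Or.inl ?_))
      exact (mem_cl _ _ _).2 ⟨⟨d, hd, hde⟩, hce'⟩

end Pool.Agent.Lib.H36G
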