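import Pool.Agent.Lib.H36G.Basic

set_option autoImplicit false

/-!
# H36G, chunk D4: the base case of the peeling
-/

namespace Pool.Agent.Lib.H36G

open Equiv Equiv.Perm H71S

variable {D V : Type} {φ α : Perm D} {lam : D → V} {c : V → Bool}

/-- Base case: the outer walk is `s, e`.

PROOF. `φ s = e`, `φ e = s` (`h.run`). `lam e = lam (α s)`, `lam (α e) = lam (φ e) = lam s` (`head`), so
`e = α s` by `h.simp` (`lam (α e) = lam s = lam (α (α s))`). So `{s, e}` is closed under `φ` and `α`, and
by `h.conn` and `cs_le` (setoid: both in `{s, e}` or both not) every live dart is `s` or `e`. Hence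
`Nb α lam u v` implies `{u, v} = {lam s, lam e}`. Choose an injective `p : V → ℕ` with `p (lam s) = 0`,
hence `p (lam s) < p v` for all other `v` (from `Finite.exists_equiv_fin`-like injection `f : V → ℕ`:
take `p v := if v = lam s then 0 else f v + 1`). Strict: `c z = c u`, `z, u ∈ {lam s, lam e}` and
`c (lam s) ≠ c (lam e)`, so `z = u`, contradiction to `p z < p u`. Alive `w` for `w ∈ {lam s, lam e}`:
`c a = c w`, `a ∈ {lam s, lam e}`, so `a = w`, contradiction. The lists have one element each. -/
theorem peel_base [Finite D] [Finite V] {s e : D} (h : QM φ α lam c s [e])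
    (hcs : c (lam s) = false) (hce : c (lam e) = true) :
    ∃ p, Out (Nb α lam) c (lam s) [lam e] [lam s] p := by
  classical
  obtain ⟨r1, r2⟩ := h.run
  have r2' : φ e = s := r2
  have hle : α e ≠ e := h.live_mem (List.mem_cons_of_mem _ (List.mem_singleton.2 rfl))
  have hes : e = α s := by
    refine h.simp e (α s) hle (live_alpha h.lm h.live) ?_ ?_
    · rw [← r1, head h.lm]
    · rw [← head h.lm, r2', h.lm.inv]
  have a1 : α s = e := hes.symm
  have a2 : α e = s := by rw [hes, h.lm.inv]
  -- all live darts
  have hall : ∀ d, α d ≠ d → d = s ∨ d = e := by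
    intro d hd
    have h1 := cs_le (s := (⊥ : Setoid Prop).comap (fun x : D => x = s ∨ x = e))
      (fun a => ?_) (fun a => ?_) (h.conn d hd)
    · have h2 : (s = s ∨ s = e) = (d = s ∨ d = e) := h1
      rw [← h2]
      exact Or.inl rfl
    · change (a = s ∨ a = e) = (φ a = s ∨ φ a = e)
      apply propext
      constructor
      · rintro (h1 | h1)
        · rw [h1]; exact Or.inr r1
        · rw [h1]; exact Or.inl r2'
      · rintro (h1 | h1)
        · exact Or.inr (φ.injective (h1.trans r2'.symm))
        · exact Or.inl (φ.injective (h1.trans r1.symm))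
    · change (a = s ∨ a = e) = (α a = s ∨ α a = e)
      apply propext
      constructor
      · rintro (h1 | h1)
        · rw [h1]; exact Or.inr a1
        · rw [h1]; exact Or.inl a2
      · rintro (h1 | h1)
        · exact Or.inr (α.injective (h1.trans a2.symm))
        · exact Or.inl (α.injective (h1.trans a1.symm))
  have hne : c (lam s) ≠ c (lam e) := by
    rw [hcs, hce]; exact Bool.false_ne_true
  have hnb : ∀ u v, Nb α lam u v → u = lam s ∨ u = lam e := by
    rintro u v ⟨d, hd, rfl, rfl⟩
    rcases hall d hd with h1 | h1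
    · rw [h1]; exact Or.inl rfl
    · rw [h1]; exact Or.inr rfl
  have heq : ∀ u v, (u = lam s ∨ u = lam e) → (v = lam s ∨ v = lam e) → c u = c v → u = v := by
    rintro u v (h1 | h1) (h2 | h2) hc
    · rw [h1, h2]
    · rw [h1, h2] at hc; exact absurd hc hne
    · rw [h1, h2] at hc; exact absurd hc.symm hne
    · rw [h1, h2]
  obtain ⟨n, ⟨f⟩⟩ := Finite.exists_equiv_fin V
  refine ⟨fun v => if v = lam s then 0 else (f v : ℕ) + 1, ?_, ?_, ?_, List.pairwise_singleton _ _,
    ?_, List.pairwise_singleton _ _, ?_⟩
  · intro x y hxy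
    dsimp only at hxy
    by_cases hx : x = lam s
    · by_cases hy : y = lam s
      · rw [hx, hy]
      · rw [if_pos hx, if_neg hy] at hxy
        omega
    · by_cases hy : y = lam s
      · rw [if_neg hx, if_pos hy] at hxy
        omega
      · rw [if_neg hx, if_neg hy] at hxy
        exact f.injective (Fin.ext (by omega))
  · intro v hv
    rw [if_pos rfl, if_neg hv]
    omega
  · intro z u v w h1 h2 h3 hc n1 n2
    have := heq z u (hnb _ _ n1) (hnb _ _ n2) hc
    rw [this] at h1
    exact lt_irrefl _ h1
  · intro w hw a d hc n1 h1 h2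
    rw [List.mem_singleton] at hw
    have := heq a w (hnb _ _ n1) (Or.inr hw) hc
    rw [this] at h1
    exact lt_irrefl _ h1
  · intro w hw a d hc n1 h1 h2
    rw [List.mem_singleton] at hw
    have := heq a w (hnb _ _ n1) (Or.inl hw) hc
    rw [this] at h1
    exact lt_irrefl _ h1

end Pool.Agent.Lib.H36G
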