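import Pool.Agent.Lib.H36G.D2a
import Pool.Agent.Lib.H36G.D3a
import Pool.Agent.Lib.H36G.B3

set_option autoImplicit false

/-!
# H36G, chunk D5: the step which deletes the white vertex `lam e`
-/

namespace Pool.Agent.Lib.H36G

open Equiv Equiv.Perm H71S

variable {D V : Type} {φ α : Perm D} {lam : D → V} {c : V → Bool}

/-- Step G.

PROOF. Let `g := lam e`, `r := lam (α e) = lam (φ e)`. `r` is the first element of
`cl c false lam B ++ [lam s]`: if `B = []` then `φ e = s`; if `B = e' :: B'` then `φ e = e'`,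
`c (lam e') = false` (`color_phi`). So `cl c false lam B ++ [lam s] = r :: BB` for some `BB`.
(1) `A ≠ []`: if `A = []` then `φ s = e`, `Nb g (lam s)` (`nb_phi`, `nb_symm`), `lam s = r` by `good`, so
by `hB` (nodup) `BB = []`, and then `B = []`: otherwise the head `e'` of `B` is black and
`cl c false lam B ++ [lam s]` has length `≥ 2`. This contradicts `hne`.
(2) `A = A0 ++ [a]` (`List.eq_nil_or_concat`), `φ a = e`, `c (lam a) = false`. `A0 ≠ []`: otherwise
`φ s = a` and `c (lam a) ≠ c (lam s) = false`. `A0 = A1 ++ [e1]`, `φ e1 = a`, `c (lam e1) = true`.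
(3) `only_G` gives `∀ d ∈ s :: (A ++ B), lam d ≠ g`, which is the hypothesis of `eat` for
`A0 ++ a :: e :: B`. Let `φ2, α2, C` be as in `eat` (`!c (lam e) = false`), `NC := cl c false lam C`.
(4) Apply `hI : PeelLt` to `φ2, α2`, the lists `A1`, `e1`, `C ++ B`: `A0 ++ C ++ B = A1 ++ e1 ::
(C ++ B)`. `nlive α2 < nlive α`: `nlive_lt` (`α2 d ≠ d` implies `α d ≠ d` by the two clauses of `eat`;
`e` is killed). `(cl c true lam (A1 ++ [e1])).Nodup`: sublist of `hW`. `(cl c false lam (C ++ B) ++
[lam s]).Nodup`: `NC` is nodup, `r :: BB` is nodup, and they are disjoint: `y ∈ NC` is a neighbour of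
`g` and `≠ r`, so by `good` it is not in `r :: BB`.
(5) `out_G` with `N := Nb α lam`, `N' := Nb α2 lam`, `WA := cl c true lam (A1 ++ [e1])`, `NC`, `r`, `BB`:
`hN`: a live dart `d` of `α` with both labels `≠ g` satisfies `α2 d = α d`. `hW`: colours, and
`lam d ≠ g` for `d ∈ A`. `cl c true lam (A ++ [e]) = WA ++ [g]` since `lam a` is black. -/
theorem step_G [Finite D] [Finite V] {s e : D} {A B : List D}
    (h : QM φ α lam c s (A ++ e :: B)) (hcs : c (lam s) = false) (hce : c (lam e) = true)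
    (hW : (cl c true lam (A ++ [e])).Nodup) (hB : (cl c false lam B ++ [lam s]).Nodup)
    (hne : A ≠ [] ∨ B ≠ [])
    (good : ∀ y, Nb α lam (lam e) y → y ∈ cl c false lam B ++ [lam s] → y = lam (α e))
    (hI : PeelLt lam c s (nlive α)) :
    ∃ p, Out (Nb α lam) c (lam s) (cl c true lam (A ++ [e])) (cl c false lam B ++ [lam s]) p := by
  obtain ⟨hr1, hr2⟩ := Run.append.1 h.run
  have le : α e ≠ e := h.live_mem (by simp)
  have hcol : ∀ {d : D}, α d ≠ d → c (lam (φ d)) = !c (lam d) := fun {d} hd => by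
    have := color_phi h.lm h.bip hd
    revert this
    cases c (lam (φ d)) <;> cases c (lam d) <;> simp
  obtain ⟨BB, hBB⟩ : ∃ BB, cl c false lam B ++ [lam s] = lam (α e) :: BB := by
    cases B with
    | nil =>
      refine ⟨[], ?_⟩
      have h1 : φ e = s := hr2
      rw [← head h.lm, h1]
      rfl
    | cons e' B' =>
      obtain ⟨h1, h2⟩ := hr2
      have h3 : c (lam e') = false := by
        rw [← h1, hcol le, hce]; rfl
      refine ⟨cl c false lam B' ++ [lam s], ?_⟩
      rw [cl_cons_eq _ _ _ h3, ← head h.lm, h1]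
      rfl
  have hA : A ≠ [] := by
    rintro rfl
    have h1 : φ s = e := hr1
    have h2 : Nb α lam (lam e) (lam s) := by
      have h2 := nb_phi h.lm h.live
      rw [h1] at h2
      exact nb_symm h.lm h2
    have h3 : lam s = lam (α e) := good _ h2 (by simp)
    have h4 : B ≠ [] := hne.resolve_left (fun h => h rfl)
    obtain ⟨e', B', rfl⟩ := List.exists_cons_of_ne_nil h4
    obtain ⟨k1, k2⟩ := hr2
    have k3 : c (lam e') = false := by
      rw [← k1, hcol le, hce]; rfl
    have k4 : lam e' = lam s := by rw [← k1, head h.lm, h3]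
    rw [cl_cons_eq _ _ _ k3, List.cons_append, List.nodup_cons] at hB
    exact hB.1 (by rw [k4]; simp)
  obtain ⟨A0, a, rfl⟩ : ∃ A0 a, A = A0 ++ [a] := ⟨A.dropLast, A.getLast hA, (List.dropLast_append_getLast hA).symm⟩
  obtain ⟨hr3, hr4⟩ := Run.append.1 hr1
  have hr4 : φ a = e := hr4
  have la : α a ≠ a := h.live_mem (by simp)
  have ca : c (lam a) = false := by
    have h1 := hcol la
    rw [hr4, hce] at h1
    revert h1
    cases c (lam a) <;> simp
  have hA0 : A0 ≠ [] := by
    rintro rfl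
    have h1 : φ s = a := hr3
    have h2 := hcol h.live
    rw [h1, hcs, ca] at h2
    simp at h2
  obtain ⟨A1, e1, rfl⟩ : ∃ A1 e1, A0 = A1 ++ [e1] := ⟨A0.dropLast, A0.getLast hA0, (List.dropLast_append_getLast hA0).symm⟩
  obtain ⟨hr5, hr6⟩ := Run.append.1 hr3
  have hr6 : φ e1 = a := hr6
  have le1 : α e1 ≠ e1 := h.live_mem (by simp)
  have ce1 : c (lam e1) = true := by
    have h1 := hcol le1
    rw [hr6, ca] at h1
    revert h1
    cases c (lam e1) <;> simp
  have honly := only_G h hcs hce hW hB good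
  have hw : A1 ++ [e1] ++ [a] ++ e :: B = (A1 ++ [e1]) ++ a :: e :: B := by simp
  have h' := h
  rw [hw] at h'
  obtain ⟨φ2, α2, C, hQ, hk1, hk2, hn, hm, hh⟩ := eat (nlive α) φ α s a e (A1 ++ [e1]) B le_rfl h'
    (fun d hd => honly d (by
      rw [show (A1 ++ [e1] ++ [a] ++ B) = A1 ++ [e1] ++ a :: B by simp]; exact hd))
  rw [hce] at hn hm hh
  simp only [Bool.not_true] at hn hm hh
  -- liveness
  have hlive : ∀ d, α2 d ≠ d → α d ≠ d := by
    intro d hd hc
    by_cases h1 : lam d = lam e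
    · exact hd (hk1 d (Or.inl h1))
    · exact hd (by rw [hk2 d h1 (by rw [hc]; exact h1), hc])
  have hlt : nlive α2 < nlive α := nlive_lt hlive le (hk1 e (Or.inl rfl))
  have hBn : (lam (α e) :: BB).Nodup := by rw [← hBB]; exact hB
  have hdis : ∀ y ∈ cl c false lam C, y ∉ lam (α e) :: BB := by
    intro y hy hy2
    obtain ⟨h1, h2⟩ := (hm y).1 hy
    exact h2 (good y h1 (by rw [hBB]; exact hy2))
  have hwA : cl c true lam (A1 ++ [e1] ++ [a] ++ [e]) = cl c true lam (A1 ++ [e1]) ++ [lam e] := by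
    rw [cl_append, cl_append, cl_cons_ne _ _ _ (by rw [ca]; simp), cl_nil, List.append_nil,
      cl_cons_eq _ _ _ hce, cl_nil]
  rw [hwA] at hW
  obtain ⟨p', hp'⟩ := hI φ2 α2 A1 e1 (C ++ B) hlt (by
      rw [show A1 ++ e1 :: (C ++ B) = A1 ++ [e1] ++ C ++ B by simp]; exact hQ) ce1
    (List.nodup_append.1 hW).1 (by
      rw [cl_append, List.append_assoc, hBB]
      refine List.nodup_append.2 ⟨hn, hBn, ?_⟩
      intro y hy z hz hyz
      exact hdis y hy (by rw [hyz]; exact hz))
  rw [cl_append false C, List.append_assoc, hBB] at hp'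
  rw [hwA, hBB]
  refine out_G (Nb α lam) (Nb α2 lam) c hp' (fun a d => nb_ne h.bip) (fun a d => nb_symm h.lm) ?_
    hcs hce ?_ ?_ ?_
  · rintro u v ⟨d, hd, rfl, rfl⟩ hu hv
    have h1 := hk2 d hu hv
    exact ⟨d, by rw [h1]; exact hd, rfl, by rw [h1]⟩
  · intro w hw
    obtain ⟨⟨d, hd, rfl⟩, hc⟩ := (mem_cl true _ w).1 hw
    exact ⟨hc, honly d (by
      rcases List.mem_append.1 hd with h1 | h1
      · simp [h1]
      · simp [List.mem_singleton.1 h1])⟩
  · intro w hw
    rcases List.mem_append.1 hw with h1 | h1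
    · exact ((mem_cl false _ w).1 h1).2
    · rw [← hBB] at h1
      rcases List.mem_append.1 h1 with h2 | h2
      · exact ((mem_cl false _ w).1 h2).2
      · rw [List.mem_singleton.1 h2]; exact hcs
  · intro u hu
    by_cases h1 : u = lam (α e)
    · exact Or.inr h1
    · exact Or.inl ((hm u).2 ⟨hu, h1⟩)

end Pool.Agent.Lib.H36G
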