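import Pool.Agent.Lib.H36G.D2b
import Pool.Agent.Lib.H36G.D3b
import Pool.Agent.Lib.H36G.B3

set_option autoImplicit false

/-!
# H36G, chunk D6: the step which deletes the black vertex `lam (φ e)`
-/

namespace Pool.Agent.Lib.H36G

open Equiv Equiv.Perm H71S

variable {D V : Type} {φ α : Perm D} {lam : D → V} {c : V → Bool}

/-- Step R: `g = lam e` has a neighbour `y ≠ lam (α e)` among the black labels of `B` and `lam s`.

PROOF. `B ≠ []`: if `B = []` then `φ e = s`, `lam (α e) = lam s` (`head`), and `y = lam s`,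
contradiction. `B = e' :: B'`, `φ e = e'`, `r := lam e' = lam (α e)`, `c r = false`. `y ≠ r`, so
`y ∈ cl c false lam B' ++ [lam s]`. `only_R` gives: (a) no `t ∈ cl c true lam A` is a neighbour of `r`;
(b) `r` occurs on the outer walk only at `e'`. `B' ≠ []`: otherwise `φ e' = s` and
`c (lam s) ≠ c (lam e') = false`. `B' = f :: B1`, `φ e' = f`, `q := lam f = lam (α e')`, `c q = true`.
`eat` for the walk `A ++ e :: e' :: (f :: B1)` (with `a := e`, `e := e'`): `φ2, α2, C`,
`WN0 := cl c true lam C` (`!c (lam e') = true`), `head? (WN0 ++ [q]) = some g`, so `WN0 ++ [q] = g :: WN`.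
`y ∈ WN0 ↔ Nb r y ∧ y ≠ q`.
Apply `hI` to `φ2, α2`, `A ++ C`, `f`, `B1`: `A ++ C ++ (f :: B1)`. `nlive α2 < nlive α` as in
`step_G`. `(cl c true lam (A ++ C ++ [f])).Nodup`: `cl c true lam A` is nodup (`hW`), `WN0 ++ [q]` is
nodup, and they are disjoint by (a), since all elements of `WN0 ++ [q]` are neighbours of `r`
(`nb_phi` for `e'`). `(cl c false lam B1 ++ [lam s]).Nodup`: sublist of `hB`.
`out_R` with `WA := cl c true lam A`, `g`, `WN`, `BB := cl c false lam B1 ++ [lam s]`, `r`:
`cl c true lam (A ++ C ++ [f]) = WA ++ g :: WN`; `hg`: a neighbour `a` of `r` is `q` or in `WN0`;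
`hbr`: `lam s ≠ r` by `hB`; `hB`: colours and nodup. Result lists: `cl c true lam (A ++ [e]) = WA ++ [g]`,
`cl c false lam (e' :: f :: B1) ++ [lam s] = r :: BB`. -/
theorem step_R [Finite D] [Finite V] {s e : D} {A B : List D}
    (h : QM φ α lam c s (A ++ e :: B)) (hcs : c (lam s) = false) (hce : c (lam e) = true)
    (hW : (cl c true lam (A ++ [e])).Nodup) (hB : (cl c false lam B ++ [lam s]).Nodup)
    {y : V} (hy : Nb α lam (lam e) y) (hyB : y ∈ cl c false lam B ++ [lam s])
    (hyr : y ≠ lam (α e)) (hI : PeelLt lam c s (nlive α)) :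
    ∃ p, Out (Nb α lam) c (lam s) (cl c true lam (A ++ [e])) (cl c false lam B ++ [lam s]) p := by
  obtain ⟨hr1, hr2⟩ := Run.append.1 h.run
  have le : α e ≠ e := h.live_mem (by simp)
  have hcol : ∀ {d : D}, α d ≠ d → c (lam (φ d)) = !c (lam d) := fun {d} hd => by
    have := color_phi h.lm h.bip hd
    revert this
    cases c (lam (φ d)) <;> cases c (lam d) <;> simp
  have hB0 : B ≠ [] := by
    rintro rfl
    have h1 : φ e = s := hr2
    rw [cl_nil, List.nil_append, List.mem_singleton] at hyB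
    exact hyr (by rw [hyB, ← head h.lm, h1])
  obtain ⟨e', B', rfl⟩ := List.exists_cons_of_ne_nil hB0
  obtain ⟨h1, hr3⟩ := hr2
  have h1 : φ e = e' := h1
  have le' : α e' ≠ e' := h.live_mem (by simp)
  have ce' : c (lam e') = false := by
    rw [← h1, hcol le, hce]; rfl
  have hle' : lam e' = lam (α e) := by rw [← h1, head h.lm]
  have hBn := hB
  rw [cl_cons_eq _ _ _ ce', List.cons_append] at hyB hBn
  have hyB' : y ∈ cl c false lam B' ++ [lam s] := by
    rcases List.mem_cons.1 hyB with h2 | h2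
    · exact absurd (h2.trans hle') hyr
    · exact h2
  obtain ⟨ha, hb⟩ := only_R h hcs hce hW hB hy hyB'
  have hB1 : B' ≠ [] := by
    rintro rfl
    have h2 : φ e' = s := hr3
    have h3 := hcol le'
    rw [h2, hcs, ce'] at h3
    simp at h3
  obtain ⟨f, B1, rfl⟩ := List.exists_cons_of_ne_nil hB1
  obtain ⟨h2, hr4⟩ := hr3
  have h2 : φ e' = f := h2
  have cf : c (lam f) = true := by
    rw [← h2, hcol le', ce']; rfl
  have hlf : lam f = lam (α e') := by rw [← h2, head h.lm]
  obtain ⟨φ2, α2, C, hQ, hk1, hk2, hn, hm, hh⟩ := eat (nlive α) φ α s e e' A (f :: B1) le_rfl h hb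
  rw [ce'] at hn hm hh
  simp only [Bool.not_false] at hn hm hh
  obtain ⟨WN, hWN⟩ : ∃ WN, cl c true lam C ++ [lam f] = lam e :: WN := by
    rw [hlf]
    cases hC : cl c true lam C ++ [lam (α e')] with
    | nil => simp at hC
    | cons u U =>
      rw [hC, List.head?_cons, Option.some.injEq] at hh
      exact ⟨U, by rw [hh]⟩
  -- liveness
  have hlive : ∀ d, α2 d ≠ d → α d ≠ d := by
    intro d hd hc
    by_cases h1 : lam d = lam e'
    · exact hd (hk1 d (Or.inl h1))
    · exact hd (by rw [hk2 d h1 (by rw [hc]; exact h1), hc])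
  have hlt : nlive α2 < nlive α := nlive_lt hlive le' (hk1 e' (Or.inl rfl))
  have hqn : Nb α lam (lam e') (lam f) := ⟨e', le', rfl, hlf.symm⟩
  have hCf : ∀ w, w ∈ cl c true lam C ++ [lam f] ↔ Nb α lam (lam e') w := by
    intro w
    rw [List.mem_append, hm, List.mem_singleton, ← hlf]
    constructor
    · rintro (h3 | h3)
      · exact h3.1
      · rw [h3]; exact hqn
    · intro h3
      by_cases h4 : w = lam f
      · exact Or.inr h4
      · exact Or.inl ⟨h3, h4⟩
  have hCn : (cl c true lam C ++ [lam f]).Nodup := by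
    refine List.nodup_append.2 ⟨hn, by simp, ?_⟩
    intro w hw z hz hwz
    rw [List.mem_singleton] at hz
    exact ((hm w).1 hw).2 (by rw [hwz, hz, hlf])
  rw [cl_append, cl_cons_eq _ _ _ hce, cl_nil] at hW ⊢
  have hwAC : cl c true lam (A ++ C ++ [f]) = cl c true lam A ++ (cl c true lam C ++ [lam f]) := by
    rw [cl_append, cl_append, cl_cons_eq _ _ _ cf, cl_nil, List.append_assoc]
  rw [cl_cons_ne _ _ _ (by rw [cf]; simp)] at hBn
  obtain ⟨p', hp'⟩ := hI φ2 α2 (A ++ C) f B1 hlt hQ cf (by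
      rw [hwAC]
      refine List.nodup_append.2 ⟨(List.nodup_append.1 hW).1, hCn, ?_⟩
      intro w hw z hz hwz
      exact ha w hw (by rw [hwz]; exact (hCf z).1 hz))
    (List.nodup_cons.1 hBn).2
  rw [hwAC, hWN] at hp'
  rw [cl_cons_eq _ _ _ ce', cl_cons_ne _ _ _ (by rw [cf]; simp), List.cons_append]
  refine out_R (Nb α lam) (Nb α2 lam) c hp' (fun a d => nb_ne h.bip) (fun a d => nb_symm h.lm) ?_
    ?_ ce' ?_ ?_ ?_
  · rintro u v ⟨d, hd, rfl, rfl⟩ hu hv
    have h1 := hk2 d hu hv
    exact ⟨d, by rw [h1]; exact hd, rfl, by rw [h1]⟩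
  · intro hc
    exact (List.nodup_cons.1 hBn).1 (by rw [← hc]; simp)
  · intro w hw
    rw [← hWN, ← hwAC] at hw
    exact ((mem_cl true _ w).1 hw).2
  · intro w hw
    constructor
    · rcases List.mem_append.1 hw with h3 | h3
      · exact ((mem_cl false _ w).1 h3).2
      · rw [List.mem_singleton.1 h3]; exact hcs
    · intro hc
      exact (List.nodup_cons.1 hBn).1 (by rw [← hc]; exact hw)
  · intro u hu
    rw [← hWN]
    exact (hCf u).2 hu

end Pool.Agent.Lib.H36G
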