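import Pool.Agent.Lib.H36G.D4
import Pool.Agent.Lib.H36G.D5
import Pool.Agent.Lib.H36G.D6

set_option autoImplicit false

/-!
# H36G, chunk D7: the peeling
-/

namespace Pool.Agent.Lib.H36G

open Equiv Equiv.Perm H71S

variable {D V : Type} {φ α : Perm D} {lam : D → V} {c : V → Bool}

/-- The peeling.

PROOF. Strong induction on `nlive α` (`PeelLt lam c s (nlive α)` is the induction hypothesis; prove
`∀ n, PeelLt lam c s n` by induction on `n` and then use it). If `A = []` and `B = []`: `peel_base`.
Otherwise, if `∀ y, Nb α lam (lam e) y → y ∈ cl c false lam B ++ [lam s] → y = lam (α e)`: `step_G`.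
Otherwise `push_neg` gives `y`: `step_R`. -/
theorem peel [Finite D] [Finite V] {s e : D} {A B : List D}
    (h : QM φ α lam c s (A ++ e :: B)) (hcs : c (lam s) = false) (hce : c (lam e) = true)
    (hW : (cl c true lam (A ++ [e])).Nodup) (hB : (cl c false lam B ++ [lam s]).Nodup) :
    ∃ p, Out (Nb α lam) c (lam s) (cl c true lam (A ++ [e])) (cl c false lam B ++ [lam s]) p := by
  have key : ∀ N : ℕ, PeelLt lam c s N := by
    intro N
    induction N with
    | zero => intro φ α A e B hlt; exact absurd hlt (Nat.not_lt_zero _)
    | succ N ih =>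
      intro φ α A e B hlt h hce hW hB
      have hI : PeelLt lam c s (nlive α) := by
        intro φ2 α2 A2 e2 B2 hlt2
        exact ih φ2 α2 A2 e2 B2 (lt_of_lt_of_le hlt2 (Nat.lt_succ_iff.1 hlt))
      by_cases hne : A ≠ [] ∨ B ≠ []
      · by_cases good : ∀ y, Nb α lam (lam e) y → y ∈ cl c false lam B ++ [lam s] →
            y = lam (α e)
        · exact step_G h hcs hce hW hB hne good hI
        · push Not at good
          obtain ⟨y, hy, hyB, hyr⟩ := good
          exact step_R h hcs hce hW hB hy hyB hyr hI
      · have hA : A = [] := by
          by_contra hc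
          exact hne (Or.inl hc)
        have hB' : B = [] := by
          by_contra hc
          exact hne (Or.inr hc)
        subst hA
        subst hB'
        have h1 := peel_base h hcs hce
        have h2 : cl c true lam ([] ++ [e]) = [lam e] := by
          rw [List.nil_append, cl_cons_eq true e [] hce, cl_nil]
        rw [h2, cl_nil, List.nil_append]
        exact h1
  exact key (nlive α + 1) φ α A e B (Nat.lt_succ_self _) h hce hW hB

end Pool.Agent.Lib.H36G
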