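import Pool.Agent.Lib.H71S.LMOps

set_option autoImplicit false

/-!
# H36G: strict orders of planar bipartite maps (definitions)

`LM φ α lam` (Lib/H71S/FromRot.lean): genus-zero map on a finite dart type, `φ` = face permutation,
`α` = reversal, `lam d` = initial vertex of the dart `d`; a dart with `α d = d` is dead (deleted), it
is also a fixed point of `φ`; two live darts with the same label are in one cycle of `φ * α`.
-/

namespace Pool.Agent.Lib.H36G

open Equiv Equiv.Perm H71S

variable {D V : Type}

/-- adjacency of labels by a live dart -/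
def Nb (α : Perm D) (lam : D → V) (u v : V) : Prop := ∃ d, α d ≠ d ∧ lam d = u ∧ lam (α d) = v

/-- the two ends of each live edge have different colours -/
def Bip (α : Perm D) (lam : D → V) (c : V → Bool) : Prop :=
  ∀ d, α d ≠ d → c (lam d) ≠ c (lam (α d))

/-- no parallel edges -/
def Simp (α : Perm D) (lam : D → V) : Prop :=
  ∀ d e, α d ≠ d → α e ≠ e → lam d = lam e → lam (α d) = lam (α e) → d = e

/-- number of live darts -/
noncomputable def nlive (α : Perm D) : ℕ := Nat.card {d : D // α d ≠ d}

/-- strict order: two edges with left ends of the same colour do not cross -/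
def Strict (N : V → V → Prop) (c : V → Bool) (p : V → ℕ) : Prop :=
  ∀ z u v w, p z < p u → p u < p v → p v < p w → c z = c u → N z v → N u w → False

/-- no edge whose left end has the colour of `w` passes over `w` -/
def Alive (N : V → V → Prop) (c : V → Bool) (p : V → ℕ) (w : V) : Prop :=
  ∀ a d, c a = c w → N a d → p a < p w → p w < p d → False

/-- the labels of colour `k` of a list of darts, in order -/
def cl (c : V → Bool) (k : Bool) (lam : D → V) (L : List D) : List V :=
  (L.map lam).filter (fun v => c v == k)

/-- connected simple bipartite map with outer closed walk `s :: M`, all other faces have length 4 -/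
structure QM (φ α : Perm D) (lam : D → V) (c : V → Bool) (s : D) (M : List D) : Prop where
  lm : LM φ α lam
  bip : Bip α lam c
  simp : Simp α lam
  run : Run φ s M s
  nod : (s :: M).Nodup
  live : α s ≠ s
  quad : ∀ d, α d ≠ d → d ∉ s :: M → φ (φ (φ (φ d))) = d
  conn : ∀ d, α d ≠ d → cs φ α s d

/-- the order which the peeling produces: `b` first, `WA` alive and increasing, `BB` alive and
decreasing -/
structure Out (N : V → V → Prop) (c : V → Bool) (b : V) (WA BB : List V) (p : V → ℕ) : Prop where
  inj : Function.Injective p
  first : ∀ v, v ≠ b → p b < p v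
  strict : Strict N c p
  winc : WA.Pairwise (fun x y => p x < p y)
  wal : ∀ w ∈ WA, Alive N c p w
  bdec : BB.Pairwise (fun x y => p y < p x)
  bal : ∀ w ∈ BB, Alive N c p w

/-- the face permutation after deletion of the edge `r, r'` -/
def dphi [DecidableEq D] (φ : Perm D) (r r' : D) : Perm D := skip (skip (φ * swap r r') r) r'

/-- the reversal after deletion of the edge `r, r'` -/
def dalpha [DecidableEq D] (α : Perm D) (r r' : D) : Perm D := α * swap r r'

/-- maximality: no edge can be added (inside a face, or between two components) -/
def Maxi (φ α : Perm D) (lam : D → V) (c : V → Bool) : Prop :=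
  ∀ x y, α x ≠ x → α y ≠ y → c (lam x) ≠ c (lam y) → (SameCycle φ x y ∨ ¬ cs φ α x y) →
    Nb α lam (lam x) (lam y)

/-- there are two live vertices of each colour -/
def TwoEach (α : Perm D) (lam : D → V) (c : V → Bool) : Prop :=
  ∀ k : Bool, ∃ d e, α d ≠ d ∧ α e ≠ e ∧ c (lam d) = k ∧ c (lam e) = k ∧ lam d ≠ lam e

/-- all smaller maps with the base dart `s` can be peeled -/
def PeelLt (lam : D → V) (c : V → Bool) (s : D) (N : ℕ) : Prop :=
  ∀ (φ α : Perm D) (A : List D) (e : D) (B : List D), nlive α < N →
    QM φ α lam c s (A ++ e :: B) → c (lam e) = true →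
    (cl c true lam (A ++ [e])).Nodup → (cl c false lam B ++ [lam s]).Nodup →
    ∃ p, Out (Nb α lam) c (lam s) (cl c true lam (A ++ [e])) (cl c false lam B ++ [lam s]) p

end Pool.Agent.Lib.H36G
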