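import Pool.Agent.Lib.H36G.Basic

set_option autoImplicit false

/-!
# H36G: deletion of an edge with explicit values
-/

namespace Pool.Agent.Lib.H36G

open Equiv Equiv.Perm H71S

variable {D V : Type} {φ α : Perm D} {lam : D → V} {c : V → Bool}

theorem del_lm [Finite D] [DecidableEq D] (h : LM φ α lam) {r r' : D} (hr : α r = r')
    (hne : r ≠ r') :
    LM (dphi φ r r') (dalpha α r r') lam ∧ Killed φ α (dphi φ r r') (dalpha α r r') r r' := by
  have hr' : α r' = r := by rw [← hr, h.inv]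
  obtain ⟨g1, m1⟩ := h.g0.del' hr hr' hne
  unfold dphi dalpha
  set φ1 := φ * swap r r' with hφ1
  set α2 := α * swap r r' with hα2
  have α2r : α2 r = r := by simp [hα2, hr']
  have α2r' : α2 r' = r' := by simp [hα2, hr]
  have α2o : ∀ d, d ≠ r → d ≠ r' → α2 d = α d := fun d hd hd' => by
    simp [hα2, swap_apply_of_ne_of_ne hd hd']
  obtain ⟨g2, m2, c2⟩ := G0.skip g1 α2r
  set φa := skip φ1 r with hφa
  obtain ⟨g3, m3, c3⟩ := G0.skip g2 α2r'
  set φ2 := skip φa r' with hφ2
  have φar : φa r = r := skip_self _ _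
  have φ2r : φ2 r = r := by
    rw [hφ2, skip_ne φa r' hne (by rw [φar]; exact hne), φar]
  have φ2r' : φ2 r' = r' := skip_self _ _
  have hσ : φ2 * α2 = skip (skip (φ * α) r) r' := by rw [m3, m2, m1]
  refine ⟨⟨?_, g3, ?_, ?_, ?_⟩, ⟨φ2r, φ2r', α2r, α2r', α2o⟩⟩
  · intro d
    by_cases hd : d = r
    · rw [hd, α2r, α2r]
    · by_cases hd' : d = r'
      · rw [hd', α2r', α2r']
      · rw [α2o d hd hd', α2o, h.inv]
        · intro hc; exact hd' (by rw [← h.inv d, hc, hr])
        · intro hc; exact hd (by rw [← h.inv d, hc, hr'])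
  · intro d
    rw [hσ]
    exact skip_lab (skip_lab h.vert r) r' d
  · intro d hd
    by_cases h1 : d = r
    · rw [h1, φ2r]
    · by_cases h2 : d = r'
      · rw [h2, φ2r']
      · rw [α2o d h1 h2] at hd
        have h3 := h.dead d hd
        have e0 : φ1 d = d := by
          rw [hφ1, Equiv.Perm.mul_apply, swap_apply_of_ne_of_ne h1 h2, h3]
        have e1 : φa d = d := by rw [hφa, skip_ne φ1 r h1 (by rw [e0]; exact h1), e0]
        rw [hφ2, skip_ne φa r' h2 (by rw [e1]; exact h2), e1]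
  · intro a b ha hb hab
    have ha1 : a ≠ r := fun hc => ha (by rw [hc, α2r])
    have ha2 : a ≠ r' := fun hc => ha (by rw [hc, α2r'])
    have hb1 : b ≠ r := fun hc => hb (by rw [hc, α2r])
    have hb2 : b ≠ r' := fun hc => hb (by rw [hc, α2r'])
    rw [α2o a ha1 ha2] at ha
    rw [α2o b hb1 hb2] at hb
    rw [hσ]
    exact skip_sameCycle _ _ ha2 hb2 (skip_sameCycle _ _ ha1 hb1 (h.dist a b ha hb hab))

theorem phi_ne_self (h : LM φ α lam) {r r' : D} (hr : α r = r') (hl : lam r ≠ lam r') :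
    φ r ≠ r ∧ φ r' ≠ r' := by
  constructor
  · intro hc
    exact hl (by rw [← hr, ← head h, hc])
  · intro hc
    have h1 := head h r'
    rw [hc, ← hr, h.inv] at h1
    exact hl (by rw [← hr]; exact h1.symm)

theorem dphi_1 [DecidableEq D] (h : LM φ α lam) {r r' : D} (hr : α r = r')
    (hl : lam r ≠ lam r') {d : D} (hd : d ≠ r) (hd' : d ≠ r') (h1 : φ d = r) :
    dphi φ r r' d = φ r' := by
  obtain ⟨k1, k2⟩ := phi_ne_self h hr hl
  have e : (φ * swap r r') d = r := by simp [swap_apply_of_ne_of_ne hd hd', h1]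
  have e2 : (φ * swap r r') r = φ r' := by simp
  have e1 : skip (φ * swap r r') r d = φ r' := by rw [skip_eq _ r e, e2]
  unfold dphi
  rw [skip_ne _ r' hd' (by rw [e1]; exact k2), e1]

theorem dphi_2 [DecidableEq D] (h : LM φ α lam) {r r' : D} (hr : α r = r')
    (hl : lam r ≠ lam r') {d : D} (hd : d ≠ r) (hd' : d ≠ r') (h1 : φ d = r') :
    dphi φ r r' d = φ r := by
  obtain ⟨k1, k2⟩ := phi_ne_self h hr hl
  have hrr : r ≠ r' := fun hc => hl (by rw [hc])
  have e : (φ * swap r r') d = r' := by simp [swap_apply_of_ne_of_ne hd hd', h1]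
  have e2 : (φ * swap r r') r' = φ r := by simp
  have e1 : skip (φ * swap r r') r d = r' := by
    rw [skip_ne _ r hd (by rw [e]; exact hrr.symm), e]
  have e3 : skip (φ * swap r r') r r' = φ r := by
    rw [skip_ne _ r hrr.symm (by rw [e2]; exact k1), e2]
  unfold dphi
  rw [skip_eq _ r' e1, e3]

theorem dphi_3 [DecidableEq D] {r r' : D} {d : D} (hd : d ≠ r) (hd' : d ≠ r') (h1 : φ d ≠ r)
    (h2 : φ d ≠ r') : dphi φ r r' d = φ d := by
  have e : (φ * swap r r') d = φ d := by simp [swap_apply_of_ne_of_ne hd hd']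
  have e1 : skip (φ * swap r r') r d = φ d := by
    rw [skip_ne _ r hd (by rw [e]; exact h1), e]
  unfold dphi
  rw [skip_ne _ r' hd' (by rw [e1]; exact h2), e1]

/-- effect of a deletion on liveness -/
theorem killed_live {φ2 α2 : Perm D} {r r' : D} (hk : Killed φ α φ2 α2 r r') {d : D}
    (hd : α2 d ≠ d) : α d ≠ d ∧ d ≠ r ∧ d ≠ r' := by
  have h1 : d ≠ r := fun hc => hd (by rw [hc, hk.a1])
  have h2 : d ≠ r' := fun hc => hd (by rw [hc, hk.a2])
  exact ⟨by rw [← hk.a3 d h1 h2]; exact hd, h1, h2⟩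

/-- bipartiteness and simplicity survive a deletion -/
theorem killed_bip {φ2 α2 : Perm D} {r r' : D} (hk : Killed φ α φ2 α2 r r') (hb : Bip α lam c) :
    Bip α2 lam c := by
  intro d hd
  obtain ⟨h1, h2, h3⟩ := killed_live hk hd
  rw [hk.a3 d h2 h3]
  exact hb d h1

theorem killed_simp {φ2 α2 : Perm D} {r r' : D} (hk : Killed φ α φ2 α2 r r') (hb : Simp α lam) :
    Simp α2 lam := by
  intro d e hd he h1 h2
  obtain ⟨d1, d2, d3⟩ := killed_live hk hd
  obtain ⟨e1, e2, e3⟩ := killed_live hk he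
  rw [hk.a3 d d2 d3, hk.a3 e e2 e3] at h2
  exact hb d e d1 e1 h1 h2

end Pool.Agent.Lib.H36G
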