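import Pool.Agent.Lib.H36G.Basic

set_option autoImplicit false

/-!
# H36G, chunk E1: the cycle of a dart as a closed run
-/

namespace Pool.Agent.Lib.H36G

open Equiv Equiv.Perm H71S

variable {D V : Type} {φ α : Perm D} {lam : D → V} {c : V → Bool}

/-- The cycle of `d` under `φ` as a list.

PROOF. Let `k ≥ 1` be minimal with `(φ ^ k) d = d` (`Nat.find`, exists by finiteness:
`Function.minimalPeriod`, or `orderOf`). `M := (List.range (k - 1)).map (fun i => (φ ^ (i + 1)) d)`.
Run: prove by induction on `m` that `Run φ x ((List.range m).map fun i => (φ ^ (i + 1)) x)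
((φ ^ (m + 1)) x)` (use `List.range_succ`, `Run.append`). Nodup: `(φ ^ i) d = (φ ^ j) d` with
`i < j < k` gives `(φ ^ (j - i)) d = d`, contradiction to minimality. -/
theorem exists_run [Finite D] (φ : Perm D) (d : D) : ∃ M : List D, Run φ d M d ∧ (d :: M).Nodup := by
  classical
  have hrun : ∀ (m : ℕ) (x : D),
      Run φ x ((List.range m).map fun i => (φ ^ (i + 1)) x) ((φ ^ (m + 1)) x) := by
    intro m
    induction m with
    | zero => intro x; simp [Run]
    | succ m ih =>
      intro x
      rw [List.range_succ_eq_map, List.map_cons]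
      refine ⟨by simp, ?_⟩
      have h1 := ih (φ x)
      rw [List.map_map]
      have e1 : (List.range m).map (fun i => (φ ^ (i + 1)) (φ x)) =
          (List.range m).map ((fun i => (φ ^ (i + 1)) x) ∘ Nat.succ) := by
        refine List.map_congr_left fun i _ => ?_
        show (φ ^ (i + 1)) (φ x) = (φ ^ (i + 1 + 1)) x
        rw [pow_succ φ (i + 1), Equiv.Perm.mul_apply]
      have e2 : (φ ^ (m + 1)) (φ x) = (φ ^ (m + 1 + 1)) x := by
        rw [pow_succ φ (m + 1), Equiv.Perm.mul_apply]
      rw [e1, e2] at h1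
      have e3 : (φ ^ (0 + 1)) x = φ x := by simp
      rw [e3]
      exact h1
  have hex : ∃ k : ℕ, (φ ^ (k + 1)) d = d := by
    refine ⟨orderOf φ - 1, ?_⟩
    rw [Nat.sub_add_cancel (orderOf_pos φ), pow_orderOf_eq_one]
    rfl
  let k := Nat.find hex
  have hk : (φ ^ (k + 1)) d = d := Nat.find_spec hex
  have hmin : ∀ j, j < k → (φ ^ (j + 1)) d ≠ d := fun j hj => Nat.find_min hex hj
  have hinj : ∀ i j, i < j → j ≤ k → (φ ^ i) d ≠ (φ ^ j) d := by
    intro i j hij hjk hc
    have h1 : (φ ^ (j - i)) d = d := by
      have h2 : (φ ^ i) ((φ ^ (j - i)) d) = (φ ^ i) d := by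
        rw [← Equiv.Perm.mul_apply, ← pow_add, Nat.add_sub_cancel' hij.le, hc]
      exact (φ ^ i).injective h2
    refine hmin (j - i - 1) (by omega) ?_
    rw [show j - i - 1 + 1 = j - i by omega]
    exact h1
  refine ⟨(List.range k).map fun i => (φ ^ (i + 1)) d, ?_, ?_⟩
  · have h1 := hrun k d
    rw [hk] at h1
    exact h1
  · rw [List.nodup_cons]
    constructor
    · intro hc
      obtain ⟨i, hi, h1⟩ := List.mem_map.1 hc
      rw [List.mem_range] at hi
      exact hmin i hi h1
    · refine List.Nodup.map_on ?_ List.nodup_range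
      intro i hi j hj hij
      rw [List.mem_range] at hi hj
      rcases lt_trichotomy i j with h1 | h1 | h1
      · exact absurd hij (hinj (i + 1) (j + 1) (by omega) (by omega))
      · exact h1
      · exact absurd hij.symm (hinj (j + 1) (i + 1) (by omega) (by omega))

/-- Elements of the cycle are in the closed run.

PROOF. `Run.closed_same` with `e := s`, and `SameCycle.symm`. -/
theorem mem_run [Finite D] {s d : D} {M : List D} (h : Run φ s M s) (hd : SameCycle φ s d) :
    d = s ∨ d ∈ M :=
  h.closed_same hd.symm (Or.inl rfl)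

end Pool.Agent.Lib.H36G
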