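import Pool.Agent.Lib.H36G.Basic

set_option autoImplicit false

/-!
# H36G, chunk E2: adding two dead darts
-/

namespace Pool.Agent.Lib.H36G

open Equiv Equiv.Perm H71S

variable {D V : Type} {φ α : Perm D} {lam : D → V} {c : V → Bool}

private theorem e2_mul (f g : Perm D) :
    (Equiv.Perm.sumCongr f (1 : Perm Bool)) * (Equiv.Perm.sumCongr g (1 : Perm Bool)) =
      Equiv.Perm.sumCongr (f * g) (1 : Perm Bool) := by
  rw [Equiv.Perm.sumCongr_mul, one_mul]

private theorem e2_cyc [Finite D] (f : Perm D) :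
    cyc f + 2 ≤ cyc (Equiv.Perm.sumCongr f (1 : Perm Bool)) := by
  have h1 : Nat.card (Quotient (SameCycle.setoid f) ⊕ Bool) = cyc f + 2 := by
    rw [Nat.card_sum]
    unfold cyc ncl
    simp
  rw [← h1]
  refine cyc_ge _ (Sum.map (Quotient.mk (SameCycle.setoid f)) id) ?_ ?_
  · rintro (d | b)
    · refine congrArg Sum.inl (Quotient.sound ?_)
      change SameCycle f (f d) d
      exact SameCycle.symm ⟨1, by rw [zpow_one]⟩
    · rfl
  · rintro (q | b)
    · obtain ⟨a, rfl⟩ := Quotient.exists_rep q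
      exact ⟨Sum.inl a, rfl⟩
    · exact ⟨Sum.inr b, rfl⟩

private theorem e2_cs (f g : Perm D) {a b : D} (h : cs f g a b) :
    cs (Equiv.Perm.sumCongr f (1 : Perm Bool)) (Equiv.Perm.sumCongr g (1 : Perm Bool))
      (Sum.inl a) (Sum.inl b) := by
  refine cs_le (s := (cs (Equiv.Perm.sumCongr f (1 : Perm Bool))
    (Equiv.Perm.sumCongr g (1 : Perm Bool))).comap Sum.inl) (fun a => ?_) (fun a => ?_) h
  · exact cs_left (Equiv.Perm.sumCongr f (1 : Perm Bool))
      (Equiv.Perm.sumCongr g (1 : Perm Bool)) (Sum.inl a)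
  · exact cs_right (Equiv.Perm.sumCongr f (1 : Perm Bool))
      (Equiv.Perm.sumCongr g (1 : Perm Bool)) (Sum.inl a)

private theorem e2_comps [Finite D] (f g : Perm D) :
    comps (Equiv.Perm.sumCongr f (1 : Perm Bool)) (Equiv.Perm.sumCongr g (1 : Perm Bool)) ≤
      comps f g + 2 := by
  have hfin : Finite (Quotient (cs f g)) := inferInstance
  have h1 : Nat.card (Quotient (cs f g) ⊕ Bool) = comps f g + 2 := by
    rw [Nat.card_sum]
    unfold comps ncl
    simp
  rw [← h1]
  refine comps_le _ _ (Sum.map Quotient.out id) ?_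
  rintro (d | b)
  · refine ⟨Sum.inl (Quotient.mk (cs f g) d), ?_⟩
    refine e2_cs f g ?_
    exact Quotient.exact (Quotient.out_eq (Quotient.mk (cs f g) d))
  · exact ⟨Sum.inr b, (cs _ _).refl _⟩

private theorem e2_same [Finite D] (f : Perm D) {a b : D} (h : SameCycle f a b) :
    SameCycle (Equiv.Perm.sumCongr f (1 : Perm Bool)) (Sum.inl a) (Sum.inl b) := by
  refine sc_le (s := (SameCycle.setoid (Equiv.Perm.sumCongr f (1 : Perm Bool))).comap Sum.inl)
    (fun a => ?_) h
  change SameCycle (Equiv.Perm.sumCongr f (1 : Perm Bool)) (Sum.inl a) (Sum.inl (f a))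
  exact ⟨1, by rw [zpow_one]; rfl⟩

/-- Two dead darts can be added.

PROOF. `f' := sumCongr f 1`. `(sumCongr φ 1) * (sumCongr α 1) = sumCongr (φ * α) 1`.
Genus: `G0_of_le` (Lib/H71S/FromRot.lean): `Nat.card (D ⊕ Bool) = Nat.card D + 2`; for each `f`:
`cyc f + 2 ≤ cyc (sumCongr f 1)` by `cyc_ge` (FromRot.lean) with
`C := Quotient (SameCycle.setoid f) ⊕ Bool`, `g := Sum.map (Quotient.mk _) id` (surjective, invariant),
`Nat.card C = cyc f + 2` (`Nat.card_sum`, `cyc`, `ncl`); `comps (sumCongr φ 1) (sumCongr α 1) ≤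
comps φ α + 2` by `comps_le` with `C := Quotient (cs φ α) ⊕ Bool`, `h := Sum.map Quotient.out id`
(`cs φ α a b → cs (sumCongr φ 1) (sumCongr α 1) (inl a) (inl b)` by `cs_le` with the setoid
`(cs _ _).comap Sum.inl`). Then `h.g0` and `omega`.
inv, vert, dead: cases on `Sum`. dist: live darts are `inl`, `SameCycle` is transported by
`(sumCongr f 1 ^ k) (inl a) = inl ((f ^ k) a)` (`k : ℤ`; or `SameCycle.map`-like lemma, or
`sc_le` with `(SameCycle.setoid _).comap Sum.inl`). -/
theorem ext_dead [Finite D] (h : LM φ α lam) (u0 : V) :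
    LM (Equiv.Perm.sumCongr φ (1 : Perm Bool)) (Equiv.Perm.sumCongr α (1 : Perm Bool)) (Sum.elim lam fun _ => u0) := by
  refine ⟨?_, ?_, ?_, ?_, ?_⟩
  · rintro (d | b)
    · exact congrArg Sum.inl (h.inv d)
    · rfl
  · apply G0_of_le
    have hg : cyc φ + cyc α + cyc (φ * α) = Nat.card D + 2 * comps φ α := h.g0
    have h1 : Nat.card (D ⊕ Bool) = Nat.card D + 2 := by
      rw [Nat.card_sum]
      simp
    have h2 := e2_cyc φ
    have h3 := e2_cyc α
    have h4 := e2_cyc (φ * α)
    have h5 := e2_comps φ α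
    rw [e2_mul, h1]
    omega
  · rw [e2_mul]
    rintro (d | b)
    · exact h.vert d
    · rfl
  · rintro (d | b) hd
    · have hd' : α d = d := Sum.inl_injective hd
      exact congrArg Sum.inl (h.dead d hd')
    · rfl
  · rw [e2_mul]
    rintro (a | a) (b | b) ha hb hab
    · exact e2_same (φ * α) (h.dist a b (fun hc => ha (congrArg Sum.inl hc))
        (fun hc => hb (congrArg Sum.inl hc)) hab)
    · exact absurd rfl hb
    · exact absurd rfl ha
    · exact absurd rfl ha

end Pool.Agent.Lib.H36G
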