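import Pool.Agent.Lib.H36G.Basic

set_option autoImplicit false

/-!
# H36G, chunk E3a: adding an edge, genus
-/

namespace Pool.Agent.Lib.H36G

open Equiv Equiv.Perm H71S

variable {D V : Type} {φ α : Perm D} {lam : D → V} {c : V → Bool}

/-- Insertion of a new dart `r` before `x` in a permutation: number of cycles.

PROOF. `r` is a fixed point of `f`, `x ≠ r`: `¬ SameCycle f x r` (a fixed point is only in the cycle of
itself: `SameCycle.eq_of_left`-like), `swap x r * f = f * swap (f⁻¹ x) (f⁻¹ r)`
(`swap_mul_eq_mul_swap`), `f⁻¹ r = r`, and `cyc_swap_diff` (Lib/H71S/Cyc.lean). -/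
theorem cyc_insert [Finite D] [DecidableEq D] (f : Perm D) {x r : D} (hx : x ≠ r) (hr : f r = r) :
    cyc (swap x r * f) + 1 = cyc f := by
  have hinv : f⁻¹ r = r := by rw [Equiv.Perm.inv_eq_iff_eq]; exact hr.symm
  rw [swap_mul_eq_mul_swap, hinv]
  refine cyc_swap_diff f fun hc => ?_
  have h1 : SameCycle f r (f⁻¹ x) := hc.symm
  have h2 : r = f⁻¹ x := h1.eq_of_left hr
  exact hx (by rw [← hr, h2]; simp)

/-- Genus zero after adding the edge `r, r'` from the corner `x` to the corner `y`.

PROOF. Let `f2 := swap y r' * swap x r * f * swap r r'`, `g2 := g * swap r r'`.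
`f2 * g2`: `swap r r' * g = g * swap r r'` (`r, r'` are fixed points of `g`), so
`f2 * g2 = swap y r' * (swap x r * (f * g))`: two insertions, `cyc (f2 * g2) + 2 = cyc (f * g)`
(`cyc_insert` twice; `(swap x r * (f * g)) r' = r'`).
`cyc g2 + 1 = cyc g` (`cyc_swap_diff`; `¬ SameCycle g r r'`).
`cyc (swap y r' * swap x r * f) + 2 = cyc f` (`cyc_insert` twice); call this permutation `k`. In `k`,
`r` is in the cycle of `x` (`k r = x`), `r'` in the cycle of `y` (`k r' = y`), and two old darts are in
one cycle of `k` if they were in one cycle of `f`. Case `SameCycle f x y`: `SameCycle k r r'`, so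
`cyc (k * swap r r') = cyc k + 1` (`cyc_swap_same`). Other case: `cyc_swap_le` or `cyc_swap_diff` gives
`cyc k ≤ cyc (k * swap r r') + 1`.
Components: let `t := cs f2 g2`. `cs f g a b → t a b` for all `a, b` (`cs_le`: `f a`: compute `f2` on the
old darts: `f2 a = f a` unless `f a ∈ {x, y}`, `f a = x → f2 a = r`, `f a = y → f2 a = r'`, `f2 r = y`,
`f2 r' = x`; `g2 r = r'`, `g2 r' = r`; so `t a r`, `t r' x`, `t r r'`, hence `t a x`). Also `t r x`,
`t r' y` and `t r r'`. In `cs f g` the darts `r`, `r'` are alone (`isolated`, Lib/H71S/Ops.lean), so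
`mrg (mrg (cs f g) x r) x r'` has two classes less than `cs f g` (`ncl_mrg` twice), and it is finer
than `t` (`mrg_le`): `comps f2 g2 + 2 ≤ comps f g` (`ncl_anti`). If moreover `¬ cs f g x y`, then also
`mrg _ x y`: `comps f2 g2 + 3 ≤ comps f g`.
Conclusion with `G0_of_le` (Lib/H71S/FromRot.lean) and `omega` in both cases. -/
theorem g0_add [Finite D] [DecidableEq D] {f g : Perm D} (h : G0 f g) {x y r r' : D}
    (hf : f r = r) (hf' : f r' = r') (hg : g r = r) (hg' : g r' = r') (hrr : r ≠ r')
    (hxr : x ≠ r) (hxr' : x ≠ r') (hyr : y ≠ r) (hyr' : y ≠ r') (hxy : x ≠ y)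
    (hxy' : SameCycle f x y ∨ ¬ cs f g x y) :
    G0 (swap y r' * swap x r * f * swap r r') (g * swap r r') := by
  have hgg : swap r r' * g = g * swap r r' := by
    ext a
    by_cases h1 : a = r
    · subst h1; simp [hg, hg']
    · by_cases h2 : a = r'
      · subst h2; simp [hg, hg']
      · have h3 : g a ≠ r := fun hc => h1 (g.injective (hc.trans hg.symm))
        have h4 : g a ≠ r' := fun hc => h2 (g.injective (hc.trans hg'.symm))
        simp [swap_apply_of_ne_of_ne h1 h2, swap_apply_of_ne_of_ne h3 h4]
  set k := swap y r' * (swap x r * f) with hk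
  have hf2 : swap y r' * swap x r * f * swap r r' = k * swap r r' := by
    rw [hk]; simp only [mul_assoc]
  set f2 := swap y r' * swap x r * f * swap r r' with hf2d
  set g2 := g * swap r r' with hg2
  have hmul : f2 * g2 = swap y r' * (swap x r * (f * g)) := by
    rw [hf2, ← hgg, hk]
    simp only [mul_assoc]
    rw [← mul_assoc (swap r r') (swap r r'), swap_mul_self, one_mul]
  -- cycle counts
  have e1 : (swap x r * f) r' = r' := by
    rw [Equiv.Perm.mul_apply, hf', swap_apply_of_ne_of_ne hxr'.symm hrr.symm]
  have e2 : (f * g) r = r := by rw [Equiv.Perm.mul_apply, hg, hf]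
  have e3 : (swap x r * (f * g)) r' = r' := by
    rw [Equiv.Perm.mul_apply, Equiv.Perm.mul_apply, hg', hf',
      swap_apply_of_ne_of_ne hxr'.symm hrr.symm]
  have c1 := cyc_insert f hxr hf
  have c2 := cyc_insert (swap x r * f) hyr' e1
  have c3 := cyc_insert (f * g) hxr e2
  have c4 := cyc_insert (swap x r * (f * g)) hyr' e3
  rw [← hk] at c2
  have c5 : cyc g2 + 1 = cyc g := by
    refine cyc_swap_diff g fun hc => ?_
    exact hrr (hc.eq_of_left hg)
  -- values of f2
  have fr : f2 r = y := by
    rw [hf2, hk]
    simp only [Equiv.Perm.mul_apply, swap_apply_left, hf']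
    rw [swap_apply_of_ne_of_ne hxr'.symm hrr.symm, swap_apply_right]
  have fr' : f2 r' = x := by
    rw [hf2, hk]
    simp only [Equiv.Perm.mul_apply, swap_apply_right, hf]
    rw [swap_apply_of_ne_of_ne hxy hxr']
  have fo : ∀ a, a ≠ r → a ≠ r' → f a ≠ x → f a ≠ y → f2 a = f a := by
    intro a ha ha' h1 h2
    have h3 : f a ≠ r := fun hc => ha (f.injective (hc.trans hf.symm))
    have h4 : f a ≠ r' := fun hc => ha' (f.injective (hc.trans hf'.symm))
    rw [hf2, hk]
    simp only [Equiv.Perm.mul_apply]
    rw [swap_apply_of_ne_of_ne ha ha', swap_apply_of_ne_of_ne h1 h3,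
      swap_apply_of_ne_of_ne h2 h4]
  have fx : ∀ a, a ≠ r → a ≠ r' → f a = x → f2 a = r := by
    intro a ha ha' h1
    rw [hf2, hk]
    simp only [Equiv.Perm.mul_apply]
    rw [swap_apply_of_ne_of_ne ha ha', h1, swap_apply_left, swap_apply_of_ne_of_ne hyr.symm hrr]
  have fy : ∀ a, a ≠ r → a ≠ r' → f a = y → f2 a = r' := by
    intro a ha ha' h1
    rw [hf2, hk]
    simp only [Equiv.Perm.mul_apply]
    rw [swap_apply_of_ne_of_ne ha ha', h1, swap_apply_of_ne_of_ne hxy.symm hyr, swap_apply_left]
  -- components
  set t := cs f2 g2 with ht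
  have gr : g2 r = r' := by rw [hg2, Equiv.Perm.mul_apply, swap_apply_left, hg']
  have go : ∀ a, a ≠ r → a ≠ r' → g2 a = g a := by
    intro a ha ha'
    rw [hg2, Equiv.Perm.mul_apply, swap_apply_of_ne_of_ne ha ha']
  have trr : t r r' := by have := cs_right f2 g2 r; rwa [gr] at this
  have try' : t r y := by have := cs_left f2 g2 r; rwa [fr] at this
  have tr'x : t r' x := by have := cs_left f2 g2 r'; rwa [fr'] at this
  have txr : t x r := t.symm (t.trans trr tr'x)
  have tyr' : t x r' := t.symm tr'x
  have txy : t x y := t.trans txr try'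
  have hle : ∀ a b, cs f g a b → t a b := by
    intro a b hab
    refine cs_le (s := t) (fun a => ?_) (fun a => ?_) hab
    · by_cases h1 : a = r
      · rw [h1, hf]
      · by_cases h2 : a = r'
        · rw [h2, hf']
        · by_cases h3 : f a = x
          · have := cs_left f2 g2 a
            rw [fx a h1 h2 h3] at this
            rw [h3]; exact t.trans this (t.symm txr)
          · by_cases h4 : f a = y
            · have := cs_left f2 g2 a
              rw [fy a h1 h2 h4] at this
              rw [h4]; exact t.trans this (t.trans tr'x txy)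
            · have := cs_left f2 g2 a
              rwa [fo a h1 h2 h3 h4] at this
    · by_cases h1 : a = r
      · rw [h1, hg]
      · by_cases h2 : a = r'
        · rw [h2, hg']
        · have := cs_right f2 g2 a
          rwa [go a h1 h2] at this
  have n1 : ¬ cs f g x r := fun hc => hxr (isolated hf hg hc)
  have n2 : ¬ mrg (cs f g) x r x r' := by
    rintro (h1 | ⟨-, h1⟩ | ⟨h1, -⟩)
    · exact hxr' (isolated hf' hg' h1)
    · exact hrr (isolated hf' hg' h1)
    · exact n1 h1
  have m1 := ncl_mrg (cs f g) n1
  have m2 := ncl_mrg (mrg (cs f g) x r) n2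
  have hle2 : ∀ a b, mrg (mrg (cs f g) x r) x r' a b → t a b := by
    intro a b hab
    exact mrg_le (s := t) (fun a b hab => mrg_le (s := t) hle txr hab) tyr' hab
  have d1 : comps f2 g2 ≤ ncl (mrg (mrg (cs f g) x r) x r') := ncl_anti hle2
  have h0 : cyc f + cyc g + cyc (f * g) = Nat.card D + 2 * comps f g := h
  have hcomps : comps f g = ncl (cs f g) := rfl
  apply G0_of_le
  rw [hmul]
  rcases hxy' with hxy' | hxy'
  · have hkk : SameCycle k r r' := by
      have kr : k r = x := by
        rw [hk]
        simp only [Equiv.Perm.mul_apply, hf, swap_apply_right]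
        rw [swap_apply_of_ne_of_ne hxy hxr']
      have kr' : k r' = y := by
        rw [hk]
        simp only [Equiv.Perm.mul_apply, hf']
        rw [swap_apply_of_ne_of_ne hxr'.symm hrr.symm, swap_apply_right]
      have hkle : ∀ a b, SameCycle f a b → SameCycle k a b := by
        intro a b hab
        refine sc_le (s := SameCycle.setoid k) (fun a => ?_) hab
        change SameCycle k a (f a)
        by_cases h1 : a = r
        · rw [h1, hf]
        · by_cases h2 : a = r'
          · rw [h2, hf']
          · have h5 : f a ≠ r := fun hc => h1 (f.injective (hc.trans hf.symm))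
            have h6 : f a ≠ r' := fun hc => h2 (f.injective (hc.trans hf'.symm))
            by_cases h3 : f a = x
            · have h7 : k a = r := by
                rw [hk]
                simp only [Equiv.Perm.mul_apply, h3, swap_apply_left]
                rw [swap_apply_of_ne_of_ne hyr.symm hrr]
              have h8 : k (k a) = f a := by rw [h7, kr, h3]
              exact ⟨2, by rw [← h8]; rfl⟩
            · by_cases h4 : f a = y
              · have h7 : k a = r' := by
                  rw [hk]
                  simp only [Equiv.Perm.mul_apply, h4]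
                  rw [swap_apply_of_ne_of_ne hxy.symm hyr, swap_apply_left]
                have h8 : k (k a) = f a := by rw [h7, kr', h4]
                exact ⟨2, by rw [← h8]; rfl⟩
              · have h7 : k a = f a := by
                  rw [hk]
                  simp only [Equiv.Perm.mul_apply]
                  rw [swap_apply_of_ne_of_ne h3 h5, swap_apply_of_ne_of_ne h4 h6]
                exact ⟨1, by rw [zpow_one]; exact h7⟩
      have s1 : SameCycle k r x := ⟨1, by rw [zpow_one]; exact kr⟩
      have s2 : SameCycle k r' y := ⟨1, by rw [zpow_one]; exact kr'⟩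
      exact s1.trans ((hkle x y hxy').trans s2.symm)
    have c6 := cyc_swap_same k hrr hkk
    rw [← hf2] at c6
    omega
  · have n3 : ¬ mrg (mrg (cs f g) x r) x r' x y := by
      have q1 : ¬ mrg (cs f g) x r x y := by
        rintro (h1 | ⟨-, h1⟩ | ⟨h1, -⟩)
        · exact hxy' h1
        · exact hyr (isolated hf hg ((cs f g).symm h1))
        · exact n1 h1
      rintro (h1 | ⟨-, h1⟩ | ⟨h1, -⟩)
      · exact q1 h1
      · rcases h1 with h1 | ⟨h1, -⟩ | ⟨h1, -⟩
        · exact hyr' (isolated hf' hg' ((cs f g).symm h1))
        · exact hxr' (isolated hf' hg' ((cs f g).symm h1))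
        · exact hrr (isolated hf' hg' ((cs f g).symm h1))
      · exact n2 h1
    have m3 := ncl_mrg (mrg (mrg (cs f g) x r) x r') n3
    have hle3 : ∀ a b, mrg (mrg (mrg (cs f g) x r) x r') x y a b → t a b := by
      intro a b hab
      exact mrg_le (s := t) hle2 txy hab
    have d2 : comps f2 g2 ≤ ncl (mrg (mrg (mrg (cs f g) x r) x r') x y) := ncl_anti hle3
    have c6 : cyc k ≤ cyc f2 + 1 := by
      have := cyc_swap_le (k * swap r r') r r'
      rw [mul_assoc, swap_mul_self, mul_one, ← hf2] at this
      exact this
    omega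

end Pool.Agent.Lib.H36G
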