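import Pool.Agent.Lib.H36G.E3a

set_option autoImplicit false

/-!
# H36G, chunk E3b: adding an edge
-/

namespace Pool.Agent.Lib.H36G

open Equiv Equiv.Perm H71S

variable {D V : Type} {φ α : Perm D} {lam : D → V} {c : V → Bool}

/-- Adding an edge.

PROOF. `g0_add` for the genus (`φ r = r` by `dead`). `inv`: cases. `vert`: `σ2 = swap y r' *
(swap x r * (φ * α))` (see `g0_add`); for `d` with `(φ * α) d = x` we get `r`, label `lam x = lam d`;
`(φ * α) d = y`: `r'`; `σ2 r = x`, `σ2 r' = y`. `dead`: `α2 d = d` means `d ∉ {r, r'}` and `α d = d`, so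
`φ d = d`, `d ∉ {x, y}`, `φ2 d = d`. `dist`: two live darts with the same label: old darts are in one
`φ * α`-cycle, hence in one `σ2`-cycle (insertion keeps cycles: `sc_le` with the setoid
`SameCycle.setoid σ2`, for `a` with `(φ * α) a = x`: `σ2 a = r`, `σ2 r = x`); `r` is in the cycle of
`x`, `r'` in the cycle of `y`; the label of `r` is `lam x`, of `r'` is `lam y ≠ lam x`. -/
theorem lm_add [Finite D] [DecidableEq D] (h : LM φ α lam) {x y r r' : D} (hx : α x ≠ x)
    (hy : α y ≠ y) (hr : α r = r) (hr' : α r' = r') (hrr : r ≠ r') (hl : lam x ≠ lam y)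
    (hxy : SameCycle φ x y ∨ ¬ cs φ α x y) :
    LM (swap y r' * swap x r * φ * swap r r') (α * swap r r')
      (fun d => if d = r then lam x else if d = r' then lam y else lam d) := by
  have fr : φ r = r := h.dead r hr
  have fr' : φ r' = r' := h.dead r' hr'
  have xr : x ≠ r := fun hc => hx (by rw [hc, hr])
  have xr' : x ≠ r' := fun hc => hx (by rw [hc, hr'])
  have yr : y ≠ r := fun hc => hy (by rw [hc, hr])
  have yr' : y ≠ r' := fun hc => hy (by rw [hc, hr'])
  have xy : x ≠ y := fun hc => hl (by rw [hc])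
  -- values of the reversal
  have a1 : (α * swap r r') r = r' := by simp [hr']
  have a2 : (α * swap r r') r' = r := by simp [hr]
  have a3 : ∀ d, d ≠ r → d ≠ r' → (α * swap r r') d = α d := fun d h1 h2 => by
    simp [swap_apply_of_ne_of_ne h1 h2]
  have ao : ∀ d, d ≠ r → d ≠ r' → α d ≠ r ∧ α d ≠ r' := fun d h1 h2 => by
    constructor
    · intro hc; exact h1 (by rw [← h.inv d, hc, hr])
    · intro hc; exact h2 (by rw [← h.inv d, hc, hr'])
  have fo : ∀ d, d ≠ r → d ≠ r' → φ d ≠ r ∧ φ d ≠ r' := fun d h1 h2 => by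
    constructor
    · intro hc; exact h1 (φ.injective (hc.trans fr.symm))
    · intro hc; exact h2 (φ.injective (hc.trans fr'.symm))
  -- values of the face permutation
  have f1 : (swap y r' * swap x r * φ * swap r r') r = y := by
    simp only [Equiv.Perm.mul_apply, swap_apply_left, fr']
    rw [swap_apply_of_ne_of_ne xr'.symm hrr.symm, swap_apply_right]
  have f2 : (swap y r' * swap x r * φ * swap r r') r' = x := by
    simp only [Equiv.Perm.mul_apply, swap_apply_right, fr]
    rw [swap_apply_of_ne_of_ne xy xr']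
  have f3 : ∀ d, d ≠ r → d ≠ r' → φ d = x → (swap y r' * swap x r * φ * swap r r') d = r := by
    intro d h1 h2 h3
    simp only [Equiv.Perm.mul_apply]
    rw [swap_apply_of_ne_of_ne h1 h2, h3, swap_apply_left,
      swap_apply_of_ne_of_ne yr.symm hrr]
  have f4 : ∀ d, d ≠ r → d ≠ r' → φ d = y → (swap y r' * swap x r * φ * swap r r') d = r' := by
    intro d h1 h2 h3
    simp only [Equiv.Perm.mul_apply]
    rw [swap_apply_of_ne_of_ne h1 h2, h3, swap_apply_of_ne_of_ne xy.symm yr, swap_apply_left]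
  have f5 : ∀ d, d ≠ r → d ≠ r' → φ d ≠ x → φ d ≠ y →
      (swap y r' * swap x r * φ * swap r r') d = φ d := by
    intro d h1 h2 h3 h4
    simp only [Equiv.Perm.mul_apply]
    rw [swap_apply_of_ne_of_ne h1 h2, swap_apply_of_ne_of_ne h3 (fo d h1 h2).1,
      swap_apply_of_ne_of_ne h4 (fo d h1 h2).2]
  have g0 := g0_add h.g0 fr fr' hr hr' hrr xr xr' yr yr' xy hxy
  generalize hφ2 : swap y r' * swap x r * φ * swap r r' = φ2 at f1 f2 f3 f4 f5 g0 ⊢
  generalize hα2 : α * swap r r' = α2 at a1 a2 a3 g0 ⊢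
  have s1 : (φ2 * α2) r = x := by rw [Equiv.Perm.mul_apply, a1, f2]
  have s2 : (φ2 * α2) r' = y := by rw [Equiv.Perm.mul_apply, a2, f1]
  have s3 : ∀ d, d ≠ r → d ≠ r' → (φ * α) d = x → (φ2 * α2) d = r := by
    intro d h1 h2 h3
    rw [Equiv.Perm.mul_apply, a3 d h1 h2]
    exact f3 _ (ao d h1 h2).1 (ao d h1 h2).2 h3
  have s4 : ∀ d, d ≠ r → d ≠ r' → (φ * α) d = y → (φ2 * α2) d = r' := by
    intro d h1 h2 h3
    rw [Equiv.Perm.mul_apply, a3 d h1 h2]
    exact f4 _ (ao d h1 h2).1 (ao d h1 h2).2 h3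
  have s5 : ∀ d, d ≠ r → d ≠ r' → (φ * α) d ≠ x → (φ * α) d ≠ y → (φ2 * α2) d = (φ * α) d := by
    intro d h1 h2 h3 h4
    rw [Equiv.Perm.mul_apply, a3 d h1 h2]
    exact f5 _ (ao d h1 h2).1 (ao d h1 h2).2 h3 h4
  have so : ∀ d, d ≠ r → d ≠ r' → (φ * α) d ≠ r ∧ (φ * α) d ≠ r' := fun d h1 h2 =>
    fo _ (ao d h1 h2).1 (ao d h1 h2).2
  refine ⟨?_, g0, ?_, ?_, ?_⟩
  · intro d
    by_cases h1 : d = r
    · rw [h1, a1, a2]
    · by_cases h2 : d = r'
      · rw [h2, a2, a1]
      · rw [a3 d h1 h2, a3 _ (ao d h1 h2).1 (ao d h1 h2).2, h.inv]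
  · intro d
    by_cases h1 : d = r
    · rw [h1]
      rw [s1, if_neg xr, if_neg xr', if_pos rfl]
    · by_cases h2 : d = r'
      · rw [h2]
        rw [s2, if_neg yr, if_neg yr', if_neg hrr.symm, if_pos rfl]
      · by_cases h3 : (φ * α) d = x
        · beta_reduce
          rw [s3 d h1 h2 h3, if_pos rfl, if_neg h1, if_neg h2, ← h3, h.vert]
        · by_cases h4 : (φ * α) d = y
          · beta_reduce
            rw [s4 d h1 h2 h4, if_neg hrr.symm, if_pos rfl, if_neg h1, if_neg h2, ← h4, h.vert]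
          · beta_reduce
            rw [s5 d h1 h2 h3 h4, if_neg (so d h1 h2).1, if_neg (so d h1 h2).2, if_neg h1, if_neg h2, h.vert]
  · intro d hd
    have h1 : d ≠ r := fun hc => hrr (by rw [hc, a1] at hd; exact hd.symm)
    have h2 : d ≠ r' := fun hc => hrr (by rw [hc, a2] at hd; exact hd)
    rw [a3 d h1 h2] at hd
    have h3 := h.dead d hd
    rw [f5 d h1 h2 (fun hc => hx (by rw [← hc, h3, hd])) (fun hc => hy (by rw [← hc, h3, hd])), h3]
  · -- transport of cycles
    have t1 : ∀ a b, SameCycle (φ * α) a b → SameCycle (φ2 * α2) a b := by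
      intro a b hab
      refine sc_le (s := SameCycle.setoid (φ2 * α2)) (fun a => ?_) hab
      change SameCycle (φ2 * α2) a ((φ * α) a)
      by_cases h1 : a = r
      · rw [h1, Equiv.Perm.mul_apply, hr, fr]
      · by_cases h2 : a = r'
        · rw [h2, Equiv.Perm.mul_apply, hr', fr']
        · by_cases h3 : (φ * α) a = x
          · rw [h3]
            exact ⟨2, by rw [zpow_two, Equiv.Perm.mul_apply, s3 a h1 h2 h3, s1]⟩
          · by_cases h4 : (φ * α) a = y
            · rw [h4]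
              exact ⟨2, by rw [zpow_two, Equiv.Perm.mul_apply, s4 a h1 h2 h4, s2]⟩
            · exact ⟨1, by rw [zpow_one, s5 a h1 h2 h3 h4]⟩
    have t2 : ∀ a, α2 a ≠ a → ∃ a', SameCycle (φ2 * α2) a a' ∧ α a' ≠ a' ∧
        (if a = r then lam x else if a = r' then lam y else lam a) = lam a' := by
      intro a ha
      by_cases h1 : a = r
      · exact ⟨x, ⟨1, by rw [zpow_one, h1, s1]⟩, hx, by rw [if_pos h1]⟩
      · by_cases h2 : a = r'
        · exact ⟨y, ⟨1, by rw [zpow_one, h2, s2]⟩, hy, by rw [if_neg h1, if_pos h2]⟩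
        · exact ⟨a, SameCycle.refl _ _, by rw [← a3 a h1 h2]; exact ha, by
            rw [if_neg h1, if_neg h2]⟩
    intro a b ha hb hab
    obtain ⟨a', ha1, ha2, ha3⟩ := t2 a ha
    obtain ⟨b', hb1, hb2, hb3⟩ := t2 b hb
    have h5 : lam a' = lam b' := by rw [← ha3, ← hb3]; exact hab
    exact ha1.trans ((t1 a' b' (h.dist a' b' ha2 hb2 h5)).trans hb1.symm)

end Pool.Agent.Lib.H36G
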