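import Pool.Agent.Lib.H36G.E2
import Pool.Agent.Lib.H36G.E3b

set_option autoImplicit false

/-!
# H36G, chunk E4a: one step of the extension
-/

namespace Pool.Agent.Lib.H36G

open Equiv Equiv.Perm H71S

variable {D V : Type} {φ α : Perm D} {lam : D → V} {c : V → Bool}

/-- One step: a map which is not maximal has a bigger extension.

PROOF. `hm` and `Maxi` give live `x, y` with colours different, not adjacent, in one face or in two
components. `D2 := D ⊕ Bool`, `ext_dead` (with `u0 := lam x`), then `lm_add` with `inl x`, `inl y`,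
`r := inr false`, `r' := inr true` (`SameCycle (sumCongr φ 1) (inl x) (inl y)` from
`SameCycle φ x y`; `¬ cs` is transported back by `cs_le` with a setoid on `D ⊕ Bool` which is `cs φ α`
on `inl` and equality on `inr`). `classical` for `DecidableEq`. Bip: old darts as before; the new edge
has the labels `lam x, lam y`. Simp: old darts as before; a new and an old dart: the labels would be
adjacent in the old map (`nb_symm`). `Nb` of the old map is preserved; new: `lam x, lam y`. -/
theorem add_step [Finite D] (h : LM φ α lam) (hb : Bip α lam c) (hs : Simp α lam)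
    (hm : ¬ Maxi φ α lam c) :
    ∃ (D2 : Type) (_ : Finite D2) (φ2 α2 : Perm D2) (lam2 : D2 → V), LM φ2 α2 lam2 ∧
      Bip α2 lam2 c ∧ Simp α2 lam2 ∧ (∀ u v, Nb α lam u v → Nb α2 lam2 u v) ∧
      ∃ u v, Nb α2 lam2 u v ∧ ¬ Nb α lam u v := by
  classical
  unfold Maxi at hm
  push Not at hm
  obtain ⟨x, y, hx, hy, hxy, hor, hN⟩ := hm
  have hlxy : lam x ≠ lam y := fun hc => hxy (by rw [hc])
  obtain ⟨φ1, hφ1⟩ : ∃ p : Perm (D ⊕ Bool), p = Equiv.Perm.sumCongr φ (1 : Perm Bool) := ⟨_, rfl⟩
  obtain ⟨α1, hα1⟩ : ∃ p : Perm (D ⊕ Bool), p = Equiv.Perm.sumCongr α (1 : Perm Bool) := ⟨_, rfl⟩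
  obtain ⟨lam1, hlam1⟩ : ∃ p : D ⊕ Bool → V, p = Sum.elim lam fun _ => lam x := ⟨_, rfl⟩
  have hLM : LM φ1 α1 lam1 := by
    rw [hφ1, hα1, hlam1]
    exact ext_dead h (lam x)
  have f1 : ∀ d, φ1 (Sum.inl d) = Sum.inl (φ d) := fun d => by rw [hφ1]; rfl
  have f2 : ∀ b, φ1 (Sum.inr b) = Sum.inr b := fun b => by rw [hφ1]; rfl
  have g1 : ∀ d, α1 (Sum.inl d) = Sum.inl (α d) := fun d => by rw [hα1]; rfl
  have g2 : ∀ b, α1 (Sum.inr b) = Sum.inr b := fun b => by rw [hα1]; rfl
  have l1 : ∀ d, lam1 (Sum.inl d) = lam d := fun d => by rw [hlam1]; rfl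
  have hcase : SameCycle φ1 (Sum.inl x) (Sum.inl y) ∨ ¬ cs φ1 α1 (Sum.inl x) (Sum.inl y) := by
    rcases hor with h1 | h1
    · left
      refine sc_le (s := (SameCycle.setoid φ1).comap Sum.inl) (fun a => ?_) h1
      change SameCycle φ1 (Sum.inl a) (Sum.inl (φ a))
      exact ⟨1, by rw [zpow_one, f1]⟩
    · right
      intro h2
      apply h1
      have h3 : Setoid.ker (Sum.map (Quotient.mk (cs φ α)) id : D ⊕ Bool → _) (Sum.inl x)
          (Sum.inl y) := by
        refine cs_le (fun a => ?_) (fun a => ?_) h2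
        · rcases a with d | b
          · rw [f1]
            exact congrArg Sum.inl (Quotient.sound (cs_left φ α d))
          · rw [f2]
        · rcases a with d | b
          · rw [g1]
            exact congrArg Sum.inl (Quotient.sound (cs_right φ α d))
          · rw [g2]
      exact Quotient.exact (Sum.inl_injective h3)
  have hrr : (Sum.inr false : D ⊕ Bool) ≠ Sum.inr true := by simp
  have hnew := lm_add (x := Sum.inl x) (y := Sum.inl y) (r := Sum.inr false)
    (r' := Sum.inr true) hLM (by rw [g1]; exact fun hc => hx (Sum.inl_injective hc))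
    (by rw [g1]; exact fun hc => hy (Sum.inl_injective hc)) (g2 _) (g2 _) hrr
    (by rw [l1, l1]; exact hlxy) hcase
  generalize swap (Sum.inl y) (Sum.inr true) * swap (Sum.inl x) (Sum.inr false) * φ1 *
    swap (Sum.inr false) (Sum.inr true) = φ2 at hnew
  obtain ⟨α2, hα2⟩ : ∃ p : Perm (D ⊕ Bool), p = α1 * swap (Sum.inr false) (Sum.inr true) :=
    ⟨_, rfl⟩
  obtain ⟨lam2, hlam2⟩ : ∃ p : D ⊕ Bool → V, p = fun d => if d = Sum.inr false then
    lam1 (Sum.inl x) else if d = Sum.inr true then lam1 (Sum.inl y) else lam1 d := ⟨_, rfl⟩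
  rw [← hα2, ← hlam2] at hnew
  have A1 : ∀ d, α2 (Sum.inl d) = Sum.inl (α d) := fun d => by
    rw [hα2, Equiv.Perm.mul_apply, swap_apply_of_ne_of_ne (by simp) (by simp), g1]
  have A2 : α2 (Sum.inr false) = Sum.inr true := by
    rw [hα2, Equiv.Perm.mul_apply, swap_apply_left, g2]
  have A3 : α2 (Sum.inr true) = Sum.inr false := by
    rw [hα2, Equiv.Perm.mul_apply, swap_apply_right, g2]
  have L1 : ∀ d, lam2 (Sum.inl d) = lam d := fun d => by
    rw [hlam2]
    show (if (Sum.inl d : D ⊕ Bool) = Sum.inr false then lam1 (Sum.inl x) else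
      if (Sum.inl d : D ⊕ Bool) = Sum.inr true then lam1 (Sum.inl y) else lam1 (Sum.inl d)) = _
    rw [if_neg (by simp), if_neg (by simp), l1]
  have L2 : lam2 (Sum.inr false) = lam x := by
    rw [hlam2]
    show (if (Sum.inr false : D ⊕ Bool) = Sum.inr false then lam1 (Sum.inl x) else
      if (Sum.inr false : D ⊕ Bool) = Sum.inr true then lam1 (Sum.inl y) else
        lam1 (Sum.inr false)) = _
    rw [if_pos rfl, l1]
  have L3 : lam2 (Sum.inr true) = lam y := by
    rw [hlam2]
    show (if (Sum.inr true : D ⊕ Bool) = Sum.inr false then lam1 (Sum.inl x) else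
      if (Sum.inr true : D ⊕ Bool) = Sum.inr true then lam1 (Sum.inl y) else
        lam1 (Sum.inr true)) = _
    rw [if_neg (by simp), if_pos rfl, l1]
  have live : ∀ d, α2 (Sum.inl d) ≠ Sum.inl d → α d ≠ d := fun d hd hc =>
    hd (by rw [A1, hc])
  have nN' : ¬ Nb α lam (lam y) (lam x) := fun hc => hN (nb_symm h hc)
  refine ⟨D ⊕ Bool, inferInstance, φ2, α2, lam2, hnew, ?_, ?_, ?_, ?_⟩
  · rintro (d | b) hd
    · rw [A1, L1, L1]
      exact hb d (live d hd)
    · cases b
      · rw [A2, L2, L3]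
        exact hxy
      · rw [A3, L2, L3]
        exact hxy.symm
  · rintro (d | b) (e | b') hd he h1 h2
    · rw [L1, L1] at h1
      rw [A1, A1, L1, L1] at h2
      rw [hs d e (live d hd) (live e he) h1 h2]
    · exfalso
      cases b'
      · rw [L1, L2] at h1
        rw [A1, A2, L1, L3] at h2
        exact hN ⟨d, live d hd, h1, h2⟩
      · rw [L1, L3] at h1
        rw [A1, A3, L1, L2] at h2
        exact nN' ⟨d, live d hd, h1, h2⟩
    · exfalso
      cases b
      · rw [L1, L2] at h1
        rw [A1, A2, L1, L3] at h2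
        exact hN ⟨e, live e he, h1.symm, h2.symm⟩
      · rw [L1, L3] at h1
        rw [A1, A3, L1, L2] at h2
        exact nN' ⟨e, live e he, h1.symm, h2.symm⟩
    · cases b <;> cases b'
      · rfl
      · rw [L2, L3] at h1
        exact absurd h1 hlxy
      · rw [L2, L3] at h1
        exact absurd h1.symm hlxy
      · rfl
  · rintro u v ⟨d, hd, h1, h2⟩
    exact ⟨Sum.inl d, by rw [A1]; exact fun hc => hd (Sum.inl_injective hc), by rw [L1, h1],
      by rw [A1, L1, h2]⟩
  · exact ⟨lam x, lam y, ⟨Sum.inr false, by rw [A2]; simp, L2, by rw [A2, L3]⟩, hN⟩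

end Pool.Agent.Lib.H36G
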