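import Pool.Agent.Lib.H36G.E4a

set_option autoImplicit false

/-!
# H36G, chunk E4b: a maximal extension exists
-/

namespace Pool.Agent.Lib.H36G

open Equiv Equiv.Perm H71S

variable {D V : Type} {φ α : Perm D} {lam : D → V} {c : V → Bool}

/-- A maximal extension exists.

PROOF. Strong induction on `Nat.card (V × V) - Set.ncard {p : V × V | Nb α lam p.1 p.2}` (`V` finite),
generalizing `D, φ, α, lam`. If `Maxi φ α lam c` we are done (`D2 := D`). Otherwise `add_step`; the set
of adjacent pairs is strictly bigger (`Set.ncard_lt_ncard`), and it is bounded by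
`Nat.card (V × V)` (`Set.ncard_le_card`-like). -/
theorem exists_max [Finite V] [Finite D] (h : LM φ α lam) (hb : Bip α lam c) (hs : Simp α lam) :
    ∃ (D2 : Type) (_ : Finite D2) (φ2 α2 : Perm D2) (lam2 : D2 → V), LM φ2 α2 lam2 ∧
      Bip α2 lam2 c ∧ Simp α2 lam2 ∧ Maxi φ2 α2 lam2 c ∧
      (∀ u v, Nb α lam u v → Nb α2 lam2 u v) := by
  have key : ∀ (n : ℕ) (D : Type) (_ : Finite D) (φ α : Perm D) (lam : D → V), LM φ α lam →
      Bip α lam c → Simp α lam →
      Nat.card (V × V) < Set.ncard {p : V × V | Nb α lam p.1 p.2} + n →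
      ∃ (D2 : Type) (_ : Finite D2) (φ2 α2 : Perm D2) (lam2 : D2 → V), LM φ2 α2 lam2 ∧
        Bip α2 lam2 c ∧ Simp α2 lam2 ∧ Maxi φ2 α2 lam2 c ∧
        (∀ u v, Nb α lam u v → Nb α2 lam2 u v) := by
    intro n
    induction n with
    | zero =>
      intro D _ φ α lam h hb hs hn
      exfalso
      have h1 : Set.ncard {p : V × V | Nb α lam p.1 p.2} ≤ Nat.card (V × V) :=
        Set.ncard_le_card _
      omega
    | succ n ih =>
      intro D _ φ α lam h hb hs hn
      by_cases hm : Maxi φ α lam c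
      · exact ⟨D, ‹_›, φ, α, lam, h, hb, hs, hm, fun _ _ h => h⟩
      · obtain ⟨D2, hD2, φ2, α2, lam2, h2, hb2, hs2, hsub, u, v, huv, huv'⟩ := add_step h hb hs hm
        have h3 : {p : V × V | Nb α lam p.1 p.2} ⊂ {p : V × V | Nb α2 lam2 p.1 p.2} := by
          refine ⟨fun p hp => hsub _ _ hp, fun hc => huv' ?_⟩
          exact hc (show (u, v) ∈ {p : V × V | Nb α2 lam2 p.1 p.2} from huv)
        have h4 := Set.ncard_lt_ncard h3 (Set.toFinite _)
        obtain ⟨D3, hD3, φ3, α3, lam3, g1, g2, g3, g4, g5⟩ :=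
          ih D2 hD2 φ2 α2 lam2 h2 hb2 hs2 (by omega)
        exact ⟨D3, hD3, φ3, α3, lam3, g1, g2, g3, g4, fun a b hab => g5 _ _ (hsub _ _ hab)⟩
  exact key (Nat.card (V × V) + 1) D ‹_› φ α lam h hb hs (by omega)

end Pool.Agent.Lib.H36G
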