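import Pool.Agent.Lib.H36G.Basic

set_option autoImplicit false

/-!
# H36G, chunk E5a: maximal maps are connected
-/

namespace Pool.Agent.Lib.H36G

open Equiv Equiv.Perm H71S

variable {D V : Type} {φ α : Perm D} {lam : D → V} {c : V → Bool}

/-- A maximal map is connected.

PROOF. Suppose `¬ cs φ α x y`. If `c (lam x) ≠ c (lam y)`, `Maxi` gives a live dart `d` with
`lam d = lam x`, `lam (α d) = lam y`; `LM.dist`: `d` and `x` are in one `φ * α`-cycle, `α d` and `y` as
well, so `cs φ α x y` (`cs_of_sameCycle_mul`, `cs_right`). If `c (lam x) = c (lam y)` use `α x` instead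
of `x` (live by `live_alpha`, colour by `Bip`, `cs φ α x (α x)`). -/
theorem maxi_conn [Finite D] (h : LM φ α lam) (hb : Bip α lam c) (hm : Maxi φ α lam c) {x y : D}
    (hx : α x ≠ x) (hy : α y ≠ y) : cs φ α x y := by
  have key : ∀ x y : D, α x ≠ x → α y ≠ y → c (lam x) ≠ c (lam y) → cs φ α x y := by
    intro x y hx hy hc
    by_contra hcon
    obtain ⟨d, hd, h1, h2⟩ := hm x y hx hy hc (Or.inr hcon)
    have k1 : cs φ α x d := cs_of_sameCycle_mul (h.dist x d hx hd h1.symm)
    have k2 : cs φ α (α d) y := cs_of_sameCycle_mul (h.dist (α d) y (live_alpha h hd) hy h2)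
    exact hcon ((cs φ α).trans' k1 ((cs φ α).trans' (cs_right φ α d) k2))
  by_cases hc : c (lam x) = c (lam y)
  · have h1 : c (lam (α x)) ≠ c (lam y) := by
      rw [← hc]; exact (hb x hx).symm
    exact (cs φ α).trans' (cs_right φ α x) (key (α x) y (live_alpha h hx) hy h1)
  · exact key x y hx hy hc

/-- Labels at distance three on a face are adjacent.

PROOF. `color_phi` three times (with `live_phi`), `Bool`; `SameCycle φ d (φ (φ (φ d)))`. -/
theorem maxi_three (h : LM φ α lam) (hb : Bip α lam c) (hm : Maxi φ α lam c) {d : D}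
    (hd : α d ≠ d) : Nb α lam (lam d) (lam (φ (φ (φ d)))) := by
  have d1 := live_phi h hb hd
  have d2 := live_phi h hb d1
  have d3 := live_phi h hb d2
  have c1 := color_phi h hb hd
  have c2 := color_phi h hb d1
  have c3 := color_phi h hb d2
  refine hm d _ hd d3 ?_ (Or.inl ⟨3, ?_⟩)
  · revert c1 c2 c3
    generalize c (lam d) = a0
    generalize c (lam (φ d)) = a1
    generalize c (lam (φ (φ d))) = a2
    generalize c (lam (φ (φ (φ d)))) = a3
    cases a0 <;> cases a1 <;> cases a2 <;> cases a3 <;> simp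
  · rfl

end Pool.Agent.Lib.H36G
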