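import Pool.Agent.Lib.H36G.E5a

set_option autoImplicit false

/-!
# H36G, chunk E5b: no face of a maximal map turns back
-/

namespace Pool.Agent.Lib.H36G

open Equiv Equiv.Perm H71S

variable {D V : Type} {φ α : Perm D} {lam : D → V} {c : V → Bool}

/-- No face of a maximal map turns back.

PROOF. Suppose `lam (φ (φ d)) = lam d =: o`. (1) `φ d = α d` by `Simp`: `lam (φ d) = lam (α d)` and
`lam (α (φ d)) = lam (φ (φ d)) = lam d = lam (α (α d))` (`head`, `inv`). (2) `(φ * α) (α d) = φ d = α d`,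
so by `LM.dist` the only live dart with label `lam (φ d)` is `φ d` itself: the vertex is a leaf.
(3) `maxi_three` for `φ d`: `Nb (lam (φ d)) (lam (φ^4 d))`; by (2) the dart is `φ d = α d`, its end is
`lam d = o`, so `lam (φ^4 d) = o = lam (φ^2 d)`: the hypothesis holds for `φ^2 d`. By induction for all
`k`: `lam ((φ * φ)^k d) = o` and `φ ((φ * φ)^k d) = α ((φ * φ)^k d)`.
(4) Let `S := {e | ∃ k : ℕ, e = (φ * φ)^k d ∨ e = φ ((φ * φ)^k d)}`. `S` is closed under `φ` and under
`α` (by (3) and `inv`). By `maxi_conn` and `cs_le` (setoid: both in `S` or both not in `S`; `S` is also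
closed backwards since `D` is finite, or use the setoid `a ∈ S ↔ b ∈ S` and prove `a ∈ S ↔ φ a ∈ S` by
`SameCycle`/finite order) all live darts are in `S`; their labels are `o` or of the other colour. So only
one live vertex has the colour of `o`: contradiction to `TwoEach`. -/
theorem no_back [Finite D] (h : LM φ α lam) (hb : Bip α lam c) (hs : Simp α lam)
    (hm : Maxi φ α lam c) (ht : TwoEach α lam c) {d : D} (hd : α d ≠ d) :
    lam (φ (φ d)) ≠ lam d := by
  intro hc
  -- one step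
  have step : ∀ d, α d ≠ d → lam (φ (φ d)) = lam d →
      φ d = α d ∧ lam (φ (φ (φ (φ d)))) = lam (φ (φ d)) := by
    intro d hd hc
    have h1 : φ d = α d := hs (φ d) (α d) (live_phi h hb hd) (live_alpha h hd) (head h d)
      (by rw [← head h (φ d), hc, h.inv])
    refine ⟨h1, ?_⟩
    obtain ⟨x, hx, hx1, hx2⟩ := maxi_three h hb hm (live_phi h hb hd)
    have hfix : (φ * α) (α d) = α d := by rw [Equiv.Perm.mul_apply, h.inv, h1]
    have h2 : SameCycle (φ * α) (α d) x := h.dist _ _ (live_alpha h hd) hx (by rw [hx1, h1])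
    have h3 : α d = x := h2.eq_of_left hfix
    rw [← h3, h.inv] at hx2
    rw [hc, ← hx2]
  have key : ∀ k : ℕ, α (((φ * φ) ^ k) d) ≠ ((φ * φ) ^ k) d ∧ lam (((φ * φ) ^ k) d) = lam d ∧
      lam (φ (φ (((φ * φ) ^ k) d))) = lam (((φ * φ) ^ k) d) := by
    intro k
    induction k with
    | zero => exact ⟨hd, rfl, hc⟩
    | succ k ih =>
      obtain ⟨i1, i2, i3⟩ := ih
      obtain ⟨j1, j2⟩ := step _ i1 i3
      have e1 : ((φ * φ) ^ (k + 1)) d = φ (φ (((φ * φ) ^ k) d)) := by
        rw [pow_succ', Equiv.Perm.mul_apply, Equiv.Perm.mul_apply]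
      rw [e1]
      exact ⟨live_phi h hb (live_phi h hb i1), i3.trans i2, j2⟩
  let S : D → Prop := fun e => ∃ k : ℕ, e = ((φ * φ) ^ k) d ∨ e = φ (((φ * φ) ^ k) d)
  have Sφ : ∀ e, S e → S (φ e) := by
    rintro e ⟨k, rfl | rfl⟩
    · exact ⟨k, Or.inr rfl⟩
    · exact ⟨k + 1, Or.inl (by rw [pow_succ', Equiv.Perm.mul_apply, Equiv.Perm.mul_apply])⟩
  have Sα : ∀ e, S e → S (α e) := by
    rintro e ⟨k, rfl | rfl⟩
    · exact ⟨k, Or.inr (step _ (key k).1 (key k).2.2).1.symm⟩
    · refine ⟨k, Or.inl ?_⟩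
      rw [(step _ (key k).1 (key k).2.2).1, h.inv]
  have Spow : ∀ (m : ℕ) e, S e → S ((φ ^ m) e) := by
    intro m
    induction m with
    | zero => intro e he; exact he
    | succ m ih =>
      intro e he
      rw [pow_succ', Equiv.Perm.mul_apply]
      exact Sφ _ (ih e he)
  have Sφ' : ∀ e, S (φ e) → S e := by
    intro e he
    have h1 := Spow (orderOf φ - 1) _ he
    have h2 : (φ ^ (orderOf φ - 1)) (φ e) = e := by
      rw [← Equiv.Perm.mul_apply, ← pow_succ, Nat.sub_add_cancel (orderOf_pos φ),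
        pow_orderOf_eq_one]
      rfl
    rwa [h2] at h1
  have Sall : ∀ e, α e ≠ e → S e := by
    intro e he
    let s : Setoid D :=
      { r := fun a b => S a ↔ S b
        iseqv := ⟨fun _ => Iff.rfl, fun h => h.symm, fun h1 h2 => h1.trans h2⟩ }
    have h1 : s d e := by
      refine cs_le (s := s) (fun a => ?_) (fun a => ?_) (maxi_conn h hb hm hd he)
      · exact ⟨Sφ a, Sφ' a⟩
      · exact ⟨Sα a, fun h2 => by have := Sα _ h2; rwa [h.inv] at this⟩
    exact h1.1 ⟨0, Or.inl rfl⟩
  have lab : ∀ e, α e ≠ e → c (lam e) = c (lam d) → lam e = lam d := by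
    intro e he hce
    obtain ⟨k, hk | hk⟩ := Sall e he
    · rw [hk]; exact (key k).2.1
    · exfalso
      have h1 := color_phi h hb (key k).1
      rw [← hk, (key k).2.1] at h1
      exact h1 hce
  obtain ⟨x, y, hx, hy, cx, cy, hxy⟩ := ht (c (lam d))
  exact hxy ((lab x hx cx).trans (lab y hy cy).symm)

end Pool.Agent.Lib.H36G
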