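import Pool.Agent.Lib.H36G.E1
import Pool.Agent.Lib.H36G.E5b
import Pool.Agent.Lib.H36G.C3

set_option autoImplicit false

/-!
# H36G, chunk E5c: the faces of a maximal map have length four
-/

namespace Pool.Agent.Lib.H36G

open Equiv Equiv.Perm H71S

variable {D V : Type} {φ α : Perm D} {lam : D → V} {c : V → Bool}

/-- The faces of a maximal map have length four.

PROOF. Suppose `φ^4 d ≠ d`. Then `d, φ d, φ^2 d, φ^3 d, φ^4 d` are distinct: `φ^k e ≠ e` for `k = 1`
(`phi_ne`), `k = 2` (`no_back`), `k = 3` (colours), and `k = 4` (assumption, for `e = d`).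
Claim: if `e` is live and `φ^4 e ≠ e` then `lam (φ^4 e) = lam e`. Proof: `exists_run` gives a closed
run `M` of `e`; it starts with `φ e, φ^2 e, φ^3 e, φ^4 e`, i.e. `M = φ e :: φ^2 e :: φ^3 e :: φ^4 e :: L`
with `Run φ (φ^4 e) L e`. `cross` with `x1 := e`, `x2 := φ e`, `x3 := φ^3 e`, `x4 := φ^4 e`, `l1 := []`,
`l2 := [φ^2 e]`, `l3 := []`, `l4 := L`. Labels: colours, `no_back` for `φ e` (`lam (φ e) ≠
lam (φ^3 e)`), and the assumption `lam e ≠ lam (φ^4 e)`. Chords: `maxi_three` for `e` and for `φ e`.
Apply the claim to `e = d` and to `e = φ d` (`φ^4 (φ d) ≠ φ d`): `lam (φ^4 d) = lam d`,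
`lam (φ^5 d) = lam (φ d)`, so `lam (α (φ^4 d)) = lam (φ^5 d) = lam (φ d) = lam (α d)` and `Simp` gives
`φ^4 d = d`. -/
theorem maxi_quad [Finite D] (h : LM φ α lam) (hb : Bip α lam c) (hs : Simp α lam)
    (hm : Maxi φ α lam c) (ht : TwoEach α lam c) {d : D} (hd : α d ≠ d) :
    φ (φ (φ (φ d))) = d := by
  have bne : ∀ {a b c : Bool}, a ≠ b → b ≠ c → a = c := by decide
  have claim : ∀ e, α e ≠ e → φ (φ (φ (φ e))) ≠ e → lam (φ (φ (φ (φ e)))) = lam e := by
    intro e he hne
    by_contra hlab
    have p1 := live_phi h hb he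
    have p2 := live_phi h hb p1
    have p3 := live_phi h hb p2
    have k1 := color_phi h hb he
    have k2 := color_phi h hb p1
    have k3 := color_phi h hb p2
    have k4 := color_phi h hb p3
    have k13 : c (lam (φ (φ (φ e)))) = c (lam (φ e)) := bne k3 k2
    have k24 : c (lam (φ (φ (φ (φ e))))) = c (lam (φ (φ e))) := bne k4 k3
    have k02 : c (lam (φ (φ e))) = c (lam e) := bne k2 k1
    have nb1 : lam (φ (φ e)) ≠ lam e := no_back h hb hs hm ht he
    have nb2 : lam (φ (φ (φ e))) ≠ lam (φ e) := no_back h hb hs hm ht p1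
    have t1 := maxi_three h hb hm he
    have t2 := maxi_three h hb hm p1
    obtain ⟨M, hM, hn⟩ := exists_run φ e
    cases M with
    | nil =>
      have h0 : φ e = e := hM
      exact k1 (by rw [h0])
    | cons a M =>
      obtain ⟨q1, hM⟩ := hM
      subst q1
      cases M with
      | nil =>
        have h0 : φ (φ e) = e := hM
        exact nb1 (by rw [h0])
      | cons b M =>
        obtain ⟨q1, hM⟩ := hM
        subst q1
        cases M with
        | nil =>
          have h0 : φ (φ (φ e)) = e := hM
          rw [h0] at k13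
          exact k1 k13.symm
        | cons x M =>
          obtain ⟨q1, hM⟩ := hM
          subst q1
          cases M with
          | nil => exact hne hM
          | cons y L =>
            obtain ⟨q1, hM⟩ := hM
            subst q1
            refine cross h (x1 := e) (x2 := φ e) (x3 := φ (φ (φ e))) (x4 := φ (φ (φ (φ e))))
              (l1 := []) (l2 := [φ (φ e)]) (l3 := []) (l4 := L) rfl ⟨rfl, rfl⟩ rfl hM hn
              ?_ ?_ ?_ ?_ ?_ ?_ t1 t2
            · exact fun hc => k1 (by rw [hc])
            · exact fun hc => k1 (by rw [← k13, ← hc])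
            · exact fun hc => hlab hc.symm
            · exact fun hc => nb2 hc.symm
            · exact fun hc => k1 (by rw [hc, k24, k02])
            · exact fun hc => k4 (by rw [hc])
  by_contra hne
  have p1 := live_phi h hb hd
  have p2 := live_phi h hb p1
  have p3 := live_phi h hb p2
  have p4 := live_phi h hb p3
  have e1 := claim d hd hne
  have e2 := claim (φ d) p1 (fun hc => hne (φ.injective hc))
  refine hne (hs _ _ p4 hd e1 ?_)
  rw [← head h, e2, head h]

end Pool.Agent.Lib.H36G
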