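import Pool.Agent.Lib.H36G.E5c
import Pool.Agent.Lib.H36G.D7

set_option autoImplicit false

/-!
# H36G, chunk E6a: maximal maps have a strict order
-/

namespace Pool.Agent.Lib.H36G

open Equiv Equiv.Perm H71S

variable {D V : Type} {φ α : Perm D} {lam : D → V} {c : V → Bool}

/-- A maximal map has a strict order.

PROOF. Take a live dart `s` with `c (lam s) = false` (`ht false`). `e1 := φ s`, `e2 := φ e1`,
`e3 := φ e2`, `φ e3 = s` (`maxi_quad`). The four darts are distinct (`phi_ne`, `no_back`).
`QM φ α lam c s [e1, e2, e3]`: `quad` by `maxi_quad`, `conn` by `maxi_conn`. `lam s ≠ lam e2`,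
(`no_back`), `c (lam e1) = true`, `c (lam e2) = false`. `peel` with `A := []`, `e := e1`,
`B := [e2, e3]`: `cl c true lam [e1] = [lam e1]`, `cl c false lam [e2, e3] ++ [lam s] =
[lam e2, lam s]`. Take `inj` and `strict` of the result. -/
theorem strict_max [Finite D] [Finite V] (h : LM φ α lam) (hb : Bip α lam c) (hs : Simp α lam)
    (hm : Maxi φ α lam c) (ht : TwoEach α lam c) :
    ∃ p : V → ℕ, Function.Injective p ∧ Strict (Nb α lam) c p := by
  obtain ⟨s, -, hs0, -, cs0, -, -⟩ := ht false
  have l1 : α (φ s) ≠ φ s := live_phi h hb hs0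
  have l2 : α (φ (φ s)) ≠ φ (φ s) := live_phi h hb l1
  have l3 : α (φ (φ (φ s))) ≠ φ (φ (φ s)) := live_phi h hb l2
  have c1 : c (lam (φ s)) = true := by
    have h1 := color_phi h hb hs0
    rw [cs0] at h1
    exact Bool.eq_true_of_not_eq_false h1
  have c2 : c (lam (φ (φ s))) = false := by
    have h1 := color_phi h hb l1
    rw [c1] at h1
    exact Bool.eq_false_of_not_eq_true h1
  have c3 : c (lam (φ (φ (φ s)))) = true := by
    have h1 := color_phi h hb l2
    rw [c2] at h1
    exact Bool.eq_true_of_not_eq_false h1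
  have h4 : φ (φ (φ (φ s))) = s := maxi_quad h hb hs hm ht hs0
  have nb0 : lam (φ (φ s)) ≠ lam s := no_back h hb hs hm ht hs0
  have nb1 : lam (φ (φ (φ s))) ≠ lam (φ s) := no_back h hb hs hm ht l1
  have ne_col : ∀ x y : D, c (lam x) = false → c (lam y) = true → x ≠ y := by
    intro x y hx hy hxy
    rw [hxy, hy] at hx
    exact Bool.noConfusion hx
  have hq : QM φ α lam c s ([] ++ φ s :: [φ (φ s), φ (φ (φ s))]) := by
    refine ⟨h, hb, hs, ⟨rfl, rfl, rfl, h4⟩, ?_, hs0, ?_, ?_⟩
    · rw [List.nil_append, List.nodup_cons, List.nodup_cons, List.nodup_cons]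
      refine ⟨?_, ?_, ?_, List.nodup_singleton _⟩
      · intro hmem
        rcases List.mem_cons.1 hmem with h5 | h5
        · exact ne_col _ _ cs0 c1 h5
        · rcases List.mem_cons.1 h5 with h6 | h6
          · exact nb0 (by rw [← h6])
          · exact ne_col _ _ cs0 c3 (List.mem_singleton.1 h6)
      · intro hmem
        rcases List.mem_cons.1 hmem with h5 | h5
        · exact ne_col _ _ c2 c1 h5.symm
        · exact nb1 (by rw [← List.mem_singleton.1 h5])
      · intro hmem
        exact ne_col _ _ c2 c3 (List.mem_singleton.1 hmem)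
    · intro d hd _
      exact maxi_quad h hb hs hm ht hd
    · intro d hd
      exact maxi_conn h hb hm hs0 hd
  have hW : (cl c true lam ([] ++ [φ s])).Nodup := by
    rw [List.nil_append, cl_cons_eq true _ [] c1, cl_nil]
    exact List.nodup_singleton _
  have hB : (cl c false lam [φ (φ s), φ (φ (φ s))] ++ [lam s]).Nodup := by
    rw [cl_cons_eq false _ _ c2, cl_cons_ne false _ [] (by rw [c3]; exact Bool.noConfusion),
      cl_nil, List.cons_append, List.nil_append, List.nodup_cons]
    exact ⟨fun h5 => nb0 (List.mem_singleton.1 h5), List.nodup_singleton _⟩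
  obtain ⟨p, hp⟩ := peel hq cs0 c1 hW hB
  exact ⟨p, hp.inj, hp.strict⟩

end Pool.Agent.Lib.H36G
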