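import Pool.Agent.Lib.H36G.E4b
import Pool.Agent.Lib.H36G.E6a

set_option autoImplicit false

/-!
# H36G, chunk E6b: strict orders exist (final theorem of Part 1)
-/

namespace Pool.Agent.Lib.H36G

open Equiv Equiv.Perm H71S

variable {D V : Type} {φ α : Perm D} {lam : D → V} {c : V → Bool}

/-- FINAL THEOREM OF PART 1: every planar bipartite map without parallel edges has a strict order.

PROOF. If `TwoEach α lam c` fails, take any injective `p : V → ℕ`: in `Strict` the vertices `z, u` are
live, different (`p z < p u`) and of one colour, `v, w` are live, different and both of the other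
colour (`nb_ne`); so there are two live vertices of each colour: contradiction.
Otherwise `exists_max`; `TwoEach` holds for the extension (`Nb` is preserved: a live dart `d` gives
`Nb α lam (lam d) (lam (α d))`, hence a live dart with label `lam d` in the extension); `strict_max`,
and `Strict` is antitone in `N`. -/
theorem strict_order [Finite D] [Finite V] (h : LM φ α lam) (hb : Bip α lam c)
    (hs : Simp α lam) : ∃ p : V → ℕ, Function.Injective p ∧ Strict (Nb α lam) c p := by
  classical
  have := Fintype.ofFinite V
  by_cases ht : TwoEach α lam c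
  · obtain ⟨D2, hD2, φ2, α2, lam2, h2, hb2, hs2, hm2, hsub⟩ := exists_max h hb hs
    have ht2 : TwoEach α2 lam2 c := by
      intro k
      obtain ⟨d, e, hd, he, cd, ce, hde⟩ := ht k
      obtain ⟨d2, hd2, ed2, -⟩ := hsub _ _ ⟨d, hd, rfl, rfl⟩
      obtain ⟨e2, he2, ee2, -⟩ := hsub _ _ ⟨e, he, rfl, rfl⟩
      exact ⟨d2, e2, hd2, he2, by rw [ed2]; exact cd, by rw [ee2]; exact ce,
        by rw [ed2, ee2]; exact hde⟩
    obtain ⟨p, hp1, hp2⟩ := strict_max h2 hb2 hs2 hm2 ht2
    exact ⟨p, hp1, fun z u v w h1 h2 h3 h4 h5 h6 =>
      hp2 z u v w h1 h2 h3 h4 (hsub _ _ h5) (hsub _ _ h6)⟩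
  · refine ⟨fun v => (Fintype.equivFin V v : ℕ), fun a b hab => ?_, ?_⟩
    · exact (Fintype.equivFin V).injective (Fin.ext hab)
    · intro z u v w hzu huv hvw hc hzv huw
      apply ht
      have n1 := nb_ne hb hzv
      have n2 := nb_ne hb huw
      have zu : z ≠ u := fun hc => by rw [hc] at hzu; exact lt_irrefl _ hzu
      have vw : v ≠ w := fun hc => by rw [hc] at hvw; exact lt_irrefl _ hvw
      obtain ⟨d, hd, d1, d2⟩ := hzv
      obtain ⟨e, he, e1, e2⟩ := huw
      have hcv : c v = c w := by
        revert n1 n2 hc
        generalize c z = a1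
        generalize c u = a2
        generalize c v = a3
        generalize c w = a4
        cases a1 <;> cases a2 <;> cases a3 <;> cases a4 <;> simp
      intro k
      by_cases hk : c z = k
      · exact ⟨d, e, hd, he, by rw [d1]; exact hk, by rw [e1, ← hc]; exact hk,
          by rw [d1, e1]; exact zu⟩
      · have hk2 : c v = k := by
          revert n1 hk
          generalize c z = a1
          generalize c v = a3
          cases a1 <;> cases a3 <;> cases k <;> simp
        exact ⟨α d, α e, live_alpha h hd, live_alpha h he, by rw [d2]; exact hk2,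
          by rw [e2, ← hcv]; exact hk2, by rw [d2, e2]; exact vw⟩

end Pool.Agent.Lib.H36G
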